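import Pool.Agent.Lib.MP_fe081e_lc.Exc

/-!
The greedy matching and the certificates used by the algorithm.
-/

namespace Pool.Agent.Lib.MP_fe081e_lc

open Finset

variable {V : Type*} [Fintype V] [DecidableEq V] {G : SimpleGraph V} [DecidableRel G.Adj]

/-- `x` may be the parent of `y` -/
def Elig (G : SimpleGraph V) [DecidableRel G.Adj] (k : ℕ) (r : V) (Ex : Finset V) (y x : V) :
    Prop := G.Adj r x ∧ x ∉ Ex ∧ G.Adj y x ∧ G.degree x + G.degree y ≤ k + 2

/-- The vertices of `rest` can be matched outside `used`. -/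
def Compl (G : SimpleGraph V) [DecidableRel G.Adj] (k : ℕ) (r : V) (Ex rest used : Finset V) :
    Prop := ∃ f : V → V, (∀ y ∈ rest, Elig G k r Ex y (f y) ∧ f y ∉ used) ∧
      ∀ a ∈ rest, ∀ b ∈ rest, f a = f b → a = b

/-- the possible parents of `y`, regardless of degrees -/
def Ws (G : SimpleGraph V) [DecidableRel G.Adj] (r : V) (Ex : Finset V) (y : V) : Finset V :=
  univ.filter (fun x => G.Adj r x ∧ G.Adj y x ∧ x ∉ Ex)

lemma mem_Ws {r : V} {Ex : Finset V} {y x : V} :
    x ∈ Ws G r Ex y ↔ G.Adj r x ∧ G.Adj y x ∧ x ∉ Ex := by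
  simp [Ws]

lemma Ws_subset (hP : P4Free G) {r : V} {Ex : Finset V} {y y' : V} (hy : y ∈ nonNbr G r)
    (hy' : y' ∈ nonNbr G r) (hle : (Ws G r Ex y).card ≤ (Ws G r Ex y').card) :
    Ws G r Ex y ⊆ Ws G r Ex y' := by
  have hchain : Ws G r Ex y ⊆ Ws G r Ex y' ∨ Ws G r Ex y' ⊆ Ws G r Ex y := by
    by_contra hcon
    rw [not_or, Finset.not_subset, Finset.not_subset] at hcon
    obtain ⟨⟨z, hz, hz'⟩, ⟨x, hx, hx'⟩⟩ := hcon
    rw [mem_Ws] at hz hx hz' hx'
    rw [mem_nonNbr] at hy hy'
    rcases Zs_chain hP hz.1 hx.1 with h | h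
    · have : y ∈ Zs G r z := by rw [mem_Zs]; exact ⟨hy, hz.2.1.symm⟩
      have := h this
      rw [mem_Zs] at this
      exact hx' ⟨hx.1, this.2.symm, hx.2.2⟩
    · have : y' ∈ Zs G r x := by rw [mem_Zs]; exact ⟨hy', hx.2.1.symm⟩
      have := h this
      rw [mem_Zs] at this
      exact hz' ⟨hz.1, this.2.symm, hz.2.2⟩
  rcases hchain with h | h
  · exact h
  · rw [Finset.eq_of_subset_of_card_le h hle]

lemma greedy_step {k : ℕ} {r : V} {Ex rest used : Finset V} {y xs : V} (hy : y ∈ rest)
    (hmax : ∀ x, Elig G k r Ex y x → x ∉ used → G.degree x ≤ G.degree xs)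
    (hW : ∀ y' ∈ rest, Ws G r Ex y ⊆ Ws G r Ex y') (h : Compl G k r Ex rest used) :
    Compl G k r Ex (rest.erase y) (insert xs used) := by
  classical
  obtain ⟨f, hf1, hf2⟩ := h
  obtain ⟨hyE, hyU⟩ := hf1 y hy
  refine ⟨fun y' => if f y' = xs then f y else f y', ?_, ?_⟩
  · intro y' hy'
    rw [Finset.mem_erase] at hy'
    obtain ⟨h1, h2⟩ := hf1 y' hy'.2
    by_cases hfx : f y' = xs
    · simp only [if_pos hfx]
      have hne : f y ≠ xs := by
        intro h3
        exact hy'.1 (hf2 y' hy'.2 y hy (hfx.trans h3.symm))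
      refine ⟨⟨hyE.1, hyE.2.1, ?_, ?_⟩, ?_⟩
      · have : f y ∈ Ws G r Ex y := by rw [mem_Ws]; exact ⟨hyE.1, hyE.2.2.1, hyE.2.1⟩
        have := hW y' hy'.2 this
        rw [mem_Ws] at this
        exact this.2.1
      · have h3 := hmax (f y) hyE hyU
        have h4 := h1.2.2.2
        rw [hfx] at h4
        omega
      · rw [Finset.mem_insert, not_or]
        exact ⟨hne, hyU⟩
    · simp only [if_neg hfx]
      refine ⟨h1, ?_⟩
      rw [Finset.mem_insert, not_or]
      exact ⟨hfx, h2⟩
  · intro a ha b hb hab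
    rw [Finset.mem_erase] at ha hb
    by_cases hax : f a = xs <;> by_cases hbx : f b = xs
    · exact hf2 a ha.2 b hb.2 (hax.trans hbx.symm)
    · simp only [if_pos hax, if_neg hbx] at hab
      exact absurd (hf2 y hy b hb.2 hab).symm hb.1
    · simp only [if_neg hax, if_pos hbx] at hab
      exact absurd (hf2 a ha.2 y hy hab) ha.1
    · simp only [if_neg hax, if_neg hbx] at hab
      exact hf2 a ha.2 b hb.2 hab

omit [DecidableEq V] in
lemma greedy_fail {k : ℕ} {r : V} {Ex rest used : Finset V} {y : V} (hy : y ∈ rest)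
    (hno : ∀ x, Elig G k r Ex y x → x ∈ used) : ¬ Compl G k r Ex rest used := by
  rintro ⟨f, hf1, _⟩
  obtain ⟨h1, h2⟩ := hf1 y hy
  exact h2 (hno _ h1)

/-- certificate of the first kind -/
def NormalCert (G : SimpleGraph V) [DecidableRel G.Adj] (k : ℕ) (r : V) : Prop :=
  (∀ z, z ≠ r → G.degree z ≤ k) ∧ Compl G k r ∅ (nonNbr G r) ∅

lemma good_iff_normalCert {k : ℕ} : Good G k ↔ ∃ r, NormalCert G k r := by
  constructor
  · rintro ⟨r, h1, f, h2, h3⟩
    refine ⟨r, h1, f, ?_, ?_⟩
    · intro y hy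
      rw [mem_nonNbr] at hy
      have := h2 y hy.1 hy.2
      exact ⟨⟨this.1, by simp, this.2.1, by omega⟩, by simp⟩
    · intro a ha b hb hab
      rw [mem_nonNbr] at ha hb
      exact h3 a b ha.1 ha.2 hb.1 hb.2 hab
  · rintro ⟨r, h1, f, h2, h3⟩
    refine ⟨r, h1, f, ?_, ?_⟩
    · intro y hy hadj
      have := (h2 y (by rw [mem_nonNbr]; exact ⟨hy, hadj⟩)).1
      have h4 := this.2.2.2
      exact ⟨this.1, this.2.2.1, by omega⟩
    · intro a b ha ha' hb hb' hab
      exact h3 a (by rw [mem_nonNbr]; exact ⟨ha, ha'⟩) b (by rw [mem_nonNbr]; exact ⟨hb, hb'⟩) hab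

/-- conditions on the special pair -/
structure Special (G : SimpleGraph V) [DecidableRel G.Adj] (k : ℕ) (x₁ x₂ r : V) : Prop where
  ne : x₁ ≠ x₂
  nadj : ¬ G.Adj x₁ x₂
  deg1 : G.degree x₁ + 2 = Fintype.card V
  deg2 : G.degree x₂ + 2 = Fintype.card V
  card : Fintype.card V ≤ k + 2
  r1 : r ≠ x₁
  r2 : r ≠ x₂

/-- certificate of the second kind -/
def SpecialCert (G : SimpleGraph V) [DecidableRel G.Adj] (k : ℕ) (x₁ x₂ r : V) : Prop :=
  (∀ z, z ≠ r → G.degree z ≤ k) ∧ Special G k x₁ x₂ r ∧
    Compl G k r {x₁, x₂} ((nonNbr G r).filter (fun y => Ws G r {x₁, x₂} y ≠ ∅)) ∅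

lemma adj_of_deg {x₁ x₂ : V} (hne : x₁ ≠ x₂) (hn : ¬ G.Adj x₁ x₂)
    (hd : G.degree x₁ + 2 = Fintype.card V) {v : V} (h1 : v ≠ x₁) (h2 : v ≠ x₂) :
    G.Adj x₁ v := by
  by_contra hcon
  have h3 := degree_add_nonNbr (G := G) x₁
  have h4 : 2 ≤ (nonNbr G x₁).card := by
    have hsub : ({x₂, v} : Finset V) ⊆ nonNbr G x₁ := by
      intro z hz
      rw [Finset.mem_insert, Finset.mem_singleton] at hz
      rw [mem_nonNbr]
      rcases hz with rfl | rfl
      · exact ⟨hne.symm, hn⟩
      · exact ⟨h1, hcon⟩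
    have := Finset.card_le_card hsub
    rwa [Finset.card_pair h2.symm] at this
  omega

/-- Soundness of the parent functions of the first kind. -/
lemma normal_sound {k : ℕ} {r : V} {par : V → V} (hdeg : ∀ z, z ≠ r → G.degree z ≤ k)
    (h0 : ∀ v, v ∉ nonNbr G r → par v = r)
    (h1 : ∀ y ∈ nonNbr G r, Elig G k r ∅ y (par y))
    (h2 : ∀ a ∈ nonNbr G r, ∀ b ∈ nonNbr G r, par a = par b → a = b) :
    parentGraph par ≤ G ∧ (parentGraph par).IsTree ∧
      ∀ e ∈ (parentGraph par).edgeSet, edgeCongestion G (parentGraph par) e ≤ k := by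
  classical
  refine tree_of_data (r := r) ?_ ?_ ?_ hdeg ?_
  · exact h0 r (by simp)
  · intro v hv
    exact h0 v (by rw [mem_nonNbr]; exact fun h => h.2 hv)
  · intro v hv hadj
    have := h1 v (by rw [mem_nonNbr]; exact ⟨hv, hadj⟩)
    exact ⟨this.1, this.2.2.1⟩
  · intro x hx
    by_cases hne : ((nonNbr G r).filter (fun y => par y = x)).Nonempty
    · obtain ⟨y, hy⟩ := hne
      rw [Finset.mem_filter] at hy
      have heq : (nonNbr G r).filter (fun y => par y = x) = {y} := by
        ext z
        rw [Finset.mem_filter, Finset.mem_singleton]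
        constructor
        · rintro ⟨h3, h4⟩
          exact h2 z h3 y hy.1 (h4.trans hy.2.symm)
        · rintro rfl
          exact hy
      rw [heq]
      have h3 := h1 y hy.1
      rw [hy.2] at h3
      have h4 := cut_pair h3.2.2.1.symm
      have h5 := h3.2.2.2
      show cut G {x, y} ≤ k
      omega
    · rw [Finset.not_nonempty_iff_eq_empty] at hne
      rw [hne]
      show cut G {x} ≤ k
      rw [cut_singleton]
      exact hdeg x hx.ne'

/-- Soundness of the parent functions of the second kind. -/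
lemma special_sound (hP : P4Free G) {k : ℕ} {r x₁ x₂ : V} {par : V → V}
    (hdeg : ∀ z, z ≠ r → G.degree z ≤ k) (hS : Special G k x₁ x₂ r)
    (h0 : ∀ v, v ∉ nonNbr G r → par v = r)
    (hF : ∀ y ∈ nonNbr G r, Ws G r {x₁, x₂} y = ∅ → par y = x₁)
    (h1 : ∀ y ∈ nonNbr G r, Ws G r {x₁, x₂} y ≠ ∅ → Elig G k r {x₁, x₂} y (par y))
    (h2 : ∀ a ∈ nonNbr G r, Ws G r {x₁, x₂} a ≠ ∅ → ∀ b ∈ nonNbr G r,
      Ws G r {x₁, x₂} b ≠ ∅ → par a = par b → a = b) :
    parentGraph par ≤ G ∧ (parentGraph par).IsTree ∧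
      ∀ e ∈ (parentGraph par).edgeSet, edgeCongestion G (parentGraph par) e ≤ k := by
  classical
  have hall : ∀ v, v ≠ x₁ → v ≠ x₂ → G.Adj x₁ v ∧ G.Adj x₂ v := fun v hv1 hv2 =>
    ⟨adj_of_deg hS.ne hS.nadj hS.deg1 hv1 hv2,
      adj_of_deg hS.ne.symm (fun h => hS.nadj h.symm) hS.deg2 hv2 hv1⟩
  have hr := hall r hS.r1 hS.r2
  refine tree_of_data (r := r) ?_ ?_ ?_ hdeg ?_
  · exact h0 r (by simp)
  · intro v hv
    exact h0 v (by rw [mem_nonNbr]; exact fun h => h.2 hv)
  · intro v hv hadj
    have hvQ : v ∈ nonNbr G r := by rw [mem_nonNbr]; exact ⟨hv, hadj⟩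
    by_cases hW : Ws G r {x₁, x₂} v = ∅
    · rw [hF v hvQ hW]
      refine ⟨hr.1.symm, (hall v ?_ ?_).1.symm⟩
      · rintro rfl; exact hadj hr.1.symm
      · rintro rfl; exact hadj hr.2.symm
    · have := h1 v hvQ hW
      exact ⟨this.1, this.2.2.1⟩
  · intro x hx
    by_cases hx1 : x = x₁
    · rw [hx1]
      set F := (nonNbr G r).filter (fun y => par y = x₁) with hFdef
      have mF : ∀ y, y ∈ F ↔ y ∈ nonNbr G r ∧ Ws G r {x₁, x₂} y = ∅ := by
        intro y
        rw [hFdef, Finset.mem_filter]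
        constructor
        · rintro ⟨h3, h4⟩
          refine ⟨h3, ?_⟩
          by_contra hW
          have := (h1 y h3 hW).2.1
          rw [h4] at this
          simp at this
        · rintro ⟨h3, h4⟩
          exact ⟨h3, hF y h3 h4⟩
      have hx1F : x₁ ∉ F := by
        rw [mF, mem_nonNbr]
        exact fun h => h.1.2 hr.1.symm
      have hx2F : x₂ ∉ F := by
        rw [mF, mem_nonNbr]
        exact fun h => h.1.2 hr.2.symm
      unfold cut
      rw [Finset.sum_insert hx1F]
      have e1 : (G.neighborFinset x₁ \ insert x₁ F).card + F.card ≤ G.degree x₁ := by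
        rw [← G.card_neighborFinset_eq_degree]
        have hFN : F ⊆ G.neighborFinset x₁ := by
          intro y hy
          rw [SimpleGraph.mem_neighborFinset]
          have hy' := (mF y).1 hy
          exact (hall y (by rintro rfl; exact hx1F hy) (by rintro rfl; exact hx2F hy)).1
        have hsub : (G.neighborFinset x₁ \ insert x₁ F) ⊆ G.neighborFinset x₁ \ F :=
          Finset.sdiff_subset_sdiff (Finset.Subset.refl _) (Finset.subset_insert _ _)
        have h3 := Finset.card_le_card hsub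
        have h4 := Finset.card_sdiff_add_card_eq_card hFN
        omega
      have e2 : ∑ w ∈ F, (G.neighborFinset w \ insert x₁ F).card ≤ F.card := by
        have := Finset.sum_le_card_nsmul F (fun w => (G.neighborFinset w \ insert x₁ F).card) 1
          (fun w hw => by
            have hsub : G.neighborFinset w \ insert x₁ F ⊆ {x₂} := by
              intro u hu
              rw [Finset.mem_sdiff, SimpleGraph.mem_neighborFinset, Finset.mem_insert, mF,
                not_or] at hu
              rw [Finset.mem_singleton]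
              by_contra hcon
              rw [mF] at hw
              obtain ⟨hwu, hux1, huF⟩ := hu
              have hwQ := hw.1
              rw [mem_nonNbr] at hwQ
              have hur : u ≠ r := by rintro rfl; exact hwQ.2 hwu.symm
              by_cases hru : G.Adj r u
              · have : u ∈ Ws G r {x₁, x₂} w := by
                  rw [mem_Ws]; exact ⟨hru, hwu, by simp [hux1, hcon]⟩
                rw [hw.2] at this
                simp at this
              · have huQ : u ∈ nonNbr G r := by rw [mem_nonNbr]; exact ⟨hur, hru⟩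
                have hWu : Ws G r {x₁, x₂} u ≠ ∅ := fun h => huF ⟨huQ, h⟩
                obtain ⟨x', hx'⟩ := Finset.nonempty_iff_ne_empty.2 hWu
                rw [mem_Ws] at hx'
                have hwx : ¬ G.Adj w x' := by
                  intro h
                  have : x' ∈ Ws G r {x₁, x₂} w := by
                    rw [mem_Ws]; exact ⟨hx'.1, h, hx'.2.2⟩
                  rw [hw.2] at this
                  simp at this
                have := hP w u x' r hwu hx'.2.1 hx'.1.symm hwx (fun h => hru h.symm)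
                exact hwQ.2 this.symm
            have := Finset.card_le_card hsub
            simpa using this)
        simpa using this
      have := hS.deg1
      have := hS.card
      omega
    · by_cases hne' : ((nonNbr G r).filter (fun y => par y = x)).Nonempty
      · obtain ⟨y, hy⟩ := hne'
        rw [Finset.mem_filter] at hy
        have hWy : Ws G r {x₁, x₂} y ≠ ∅ := by
          intro h
          have := hF y hy.1 h
          exact hx1 (hy.2.symm.trans this)
        have heq : (nonNbr G r).filter (fun y => par y = x) = {y} := by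
          ext z
          rw [Finset.mem_filter, Finset.mem_singleton]
          constructor
          · rintro ⟨h3, h4⟩
            have hWz : Ws G r {x₁, x₂} z ≠ ∅ := by
              intro h
              have := hF z h3 h
              exact hx1 (h4.symm.trans this)
            exact h2 z h3 hWz y hy.1 hWy (h4.trans hy.2.symm)
          · rintro rfl
            exact hy
        rw [heq]
        have h3 := h1 y hy.1 hWy
        rw [hy.2] at h3
        have h4 := cut_pair h3.2.2.1.symm
        have h5 := h3.2.2.2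
        show cut G {x, y} ≤ k
        omega
      · rw [Finset.not_nonempty_iff_eq_empty] at hne'
        rw [hne']
        show cut G {x} ≤ k
        rw [cut_singleton]
        exact hdeg x hx.ne'

/-- Completeness for the exceptional graphs. -/
lemma exceptional_cert (hP : P4Free G) (hexc : Exceptional G) {k : ℕ}
    (hk : Fintype.card V ≤ k + 2) : ∃ x₁ x₂ r, SpecialCert G k x₁ x₂ r := by
  classical
  obtain ⟨x₁, x₂, hne, hnadj, hall, hpre⟩ := hexc
  set B : Set V := {v | v ≠ x₁ ∧ v ≠ x₂} with hB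
  set H := G.induce B with hH
  unfold SimpleGraph.Preconnected at hpre
  push Not at hpre
  obtain ⟨a, b, hab⟩ := hpre
  let C : B → Finset V := fun z => univ.filter (fun v => ∃ h : v ∈ B, H.Reachable z ⟨v, h⟩)
  have mC : ∀ z v, v ∈ C z ↔ ∃ h : v ∈ B, H.Reachable z ⟨v, h⟩ := by
    intro z v; simp [C]
  obtain ⟨z0, _, hz0⟩ := Finset.exists_min_image (univ : Finset B) (fun z => (C z).card)
    ⟨a, Finset.mem_univ _⟩
  have hBc : (univ.filter (fun v => v ∈ B)).card + 2 = Fintype.card V := by
    have h1 : (univ.filter (fun v => v ∈ B)) = ((univ : Finset V).erase x₁).erase x₂ := by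
      ext v
      simp only [Finset.mem_filter, Finset.mem_univ, true_and, Finset.mem_erase, hB,
        Set.mem_ofPred_eq, and_true]
      tauto
    rw [h1]
    have h2 := Finset.card_erase_add_one (Finset.mem_erase.2 ⟨hne.symm, Finset.mem_univ x₂⟩)
    have h3 := Finset.card_erase_add_one (Finset.mem_univ x₁)
    rw [Finset.card_univ] at h3
    omega
  have hD2 : 2 * (C z0).card + 2 ≤ Fintype.card V := by
    have h1 : Disjoint (C a) (C b) := by
      rw [Finset.disjoint_left]
      intro v hva hvb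
      rw [mC] at hva hvb
      obtain ⟨h, hva⟩ := hva
      obtain ⟨_, hvb⟩ := hvb
      exact hab (hva.trans hvb.symm)
    have h2 : C a ∪ C b ⊆ univ.filter (fun v => v ∈ B) := by
      intro v hv
      rw [Finset.mem_union, mC, mC] at hv
      rw [Finset.mem_filter]
      rcases hv with ⟨h, _⟩ | ⟨h, _⟩ <;> exact ⟨Finset.mem_univ _, h⟩
    have h3 := Finset.card_le_card h2
    rw [Finset.card_union_of_disjoint h1] at h3
    have h4 : (C z0).card ≤ (C a).card := hz0 a (Finset.mem_univ _)
    have h5 : (C z0).card ≤ (C b).card := hz0 b (Finset.mem_univ _)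
    omega
  set D : Set V := {v | v ∈ C z0} with hD
  have hDB : ∀ v, v ∈ D → v ∈ B := by
    intro v hv
    rw [hD, Set.mem_ofPred_eq, mC] at hv
    exact hv.1
  have hz0D : (z0 : V) ∈ D := by
    rw [hD, Set.mem_ofPred_eq, mC]
    exact ⟨z0.2, SimpleGraph.Reachable.refl _⟩
  have hclosed : ∀ u v, u ∈ D → v ∈ B → G.Adj u v → v ∈ D := by
    intro u v hu hv huv
    rw [hD, Set.mem_ofPred_eq, mC] at hu ⊢
    obtain ⟨hu1, hu2⟩ := hu
    refine ⟨hv, hu2.trans (SimpleGraph.Adj.reachable ?_)⟩
    exact huv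
  set K := G.induce D with hK
  have hKconn : K.Connected := by
    have key : ∀ (v : V) (hv : v ∈ D), K.Reachable ⟨z0, hz0D⟩ ⟨v, hv⟩ := by
      intro v hv
      have hv' := hv
      rw [hD, Set.mem_ofPred_eq, mC] at hv'
      obtain ⟨hvB, hreach⟩ := hv'
      have := walk_closure (H := H)
        (P := fun w => ∃ h : (w : V) ∈ D, K.Reachable ⟨z0, hz0D⟩ ⟨w, h⟩) ?_ hreach
        ⟨hz0D, SimpleGraph.Reachable.refl _⟩
      · exact this.2
      · rintro ⟨u, hu⟩ ⟨w, hw⟩ huw ⟨h1, h2⟩
        have huw' : G.Adj u w := huw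
        have hwD := hclosed u w h1 hw huw'
        exact ⟨hwD, h2.trans (SimpleGraph.Adj.reachable huw')⟩
    have : Nonempty D := ⟨⟨z0, hz0D⟩⟩
    refine ⟨fun u v => ?_⟩
    exact (key u.1 u.2).symm.trans (key v.1 v.2)
  have hKP : P4Free K := by
    rintro ⟨p, hp⟩ ⟨q, hq⟩ ⟨s, hs⟩ ⟨t, ht⟩ h1 h2 h3 h4 h5
    exact hP p q s t h1 h2 h3 h4 h5
  obtain ⟨⟨z, hzD⟩, f, hf1, hf2⟩ := exists_root_matching hKP hKconn
  have hzB := hDB z hzD
  have hzx1 : z ≠ x₁ := hzB.1
  have hzx2 : z ≠ x₂ := hzB.2
  have hadjz := hall z hzx1 hzx2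
  have hnB : ∀ v, v ≠ z → ¬ G.Adj z v → v ∈ B := by
    intro v hv hadj
    refine ⟨?_, ?_⟩
    · rintro rfl; exact hadj hadjz.1.symm
    · rintro rfl; exact hadj hadjz.2.symm
  have hleaf : ∀ v, G.degree v ≤ k := by
    intro v
    have h1 := degree_add_nonNbr (G := G) v
    have h2 : 1 ≤ (nonNbr G v).card := by
      apply Finset.card_pos.2
      by_cases h3 : v = x₁
      · exact ⟨x₂, by rw [mem_nonNbr, h3]; exact ⟨hne.symm, hnadj⟩⟩
      by_cases h4 : v = x₂
      · exact ⟨x₁, by rw [mem_nonNbr, h4]; exact ⟨hne, fun h => hnadj h.symm⟩⟩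
      have hvB : v ∈ B := ⟨h3, h4⟩
      by_cases h5 : H.Reachable ⟨v, hvB⟩ a
      · refine ⟨b, ?_⟩
        rw [mem_nonNbr]
        constructor
        · rintro h
          have : b = ⟨v, hvB⟩ := Subtype.ext h
          rw [← this] at h5
          exact hab h5.symm
        · intro h
          have : H.Reachable ⟨v, hvB⟩ b := SimpleGraph.Adj.reachable (by exact h)
          exact hab (h5.symm.trans this)
      · refine ⟨a, ?_⟩
        rw [mem_nonNbr]
        constructor
        · rintro h
          have : a = ⟨v, hvB⟩ := Subtype.ext h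
          rw [← this] at h5
          exact h5 (SimpleGraph.Reachable.refl _)
        · intro h
          exact h5 (SimpleGraph.Adj.reachable (by exact h))
    omega
  have hdegD : ∀ v, v ∈ D → G.degree v ≤ (C z0).card + 1 := by
    intro v hv
    have hsub : G.neighborFinset v ⊆ {x₁, x₂} ∪ (C z0).erase v := by
      intro w hw
      rw [SimpleGraph.mem_neighborFinset] at hw
      rw [Finset.mem_union, Finset.mem_insert, Finset.mem_singleton, Finset.mem_erase]
      by_cases h1 : w = x₁
      · exact Or.inl (Or.inl h1)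
      by_cases h2 : w = x₂
      · exact Or.inl (Or.inr h2)
      · right
        exact ⟨hw.ne', hclosed v w hv ⟨h1, h2⟩ hw⟩
    rw [← G.card_neighborFinset_eq_degree]
    have h1 := le_trans (Finset.card_le_card hsub) (Finset.card_union_le _ _)
    rw [Finset.card_pair hne] at h1
    have hvC : v ∈ C z0 := hv
    have h2 := Finset.card_erase_add_one hvC
    omega
  have hdeg1 : G.degree x₁ + 2 = Fintype.card V := by
    have h1 := degree_add_nonNbr (G := G) x₁
    have h2 : nonNbr G x₁ = {x₂} := by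
      ext v
      rw [mem_nonNbr, Finset.mem_singleton]
      constructor
      · rintro ⟨h3, h4⟩
        by_contra h5
        exact h4 (hall v h3 h5).1
      · rintro rfl; exact ⟨hne.symm, hnadj⟩
    rw [h2, Finset.card_singleton] at h1
    exact h1
  have hdeg2 : G.degree x₂ + 2 = Fintype.card V := by
    have h1 := degree_add_nonNbr (G := G) x₂
    have h2 : nonNbr G x₂ = {x₁} := by
      ext v
      rw [mem_nonNbr, Finset.mem_singleton]
      constructor
      · rintro ⟨h3, h4⟩
        by_contra h5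
        exact h4 (hall v h5 h3).2
      · rintro rfl; exact ⟨hne, fun h => hnadj h.symm⟩
    rw [h2, Finset.card_singleton] at h1
    exact h1
  have hmemD : ∀ y ∈ (nonNbr G z).filter (fun y => Ws G z {x₁, x₂} y ≠ ∅), y ∈ D := by
    intro y hy
    rw [Finset.mem_filter, mem_nonNbr] at hy
    obtain ⟨⟨h1, h2⟩, h3⟩ := hy
    obtain ⟨x, hx⟩ := Finset.nonempty_iff_ne_empty.2 h3
    rw [mem_Ws] at hx
    obtain ⟨h4, h5, h6⟩ := hx
    have hxB : x ∈ B := by
      refine ⟨?_, ?_⟩
      · rintro rfl; simp at h6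
      · rintro rfl; simp at h6
    have hxD := hclosed z x hzD hxB h4
    exact hclosed x y hxD (hnB y h1 h2) h5.symm
  refine ⟨x₁, x₂, z, fun v _ => hleaf v, ⟨hne, hnadj, hdeg1, hdeg2, hk, hzx1, hzx2⟩,
    fun v => if h : v ∈ D then (f ⟨v, h⟩ : V) else v, ?_, ?_⟩
  · intro y hy
    have hyD := hmemD y hy
    rw [Finset.mem_filter, mem_nonNbr] at hy
    obtain ⟨⟨h1, h2⟩, _⟩ := hy
    simp only [dif_pos hyD]
    have h3 := hf1 ⟨y, hyD⟩ (by intro h; exact h1 (congrArg Subtype.val h)) (by exact h2)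
    have h4 : G.Adj z (f ⟨y, hyD⟩) := h3.1
    have h5 : G.Adj y (f ⟨y, hyD⟩) := h3.2
    have h6 := hDB _ (f ⟨y, hyD⟩).2
    have h7 := hdegD _ (f ⟨y, hyD⟩).2
    have h8 := hdegD y hyD
    refine ⟨⟨h4, ?_, h5, by omega⟩, by simp⟩
    rw [Finset.mem_insert, Finset.mem_singleton, not_or]
    exact h6
  · intro p hp q hq hpq
    have hpD := hmemD p hp
    have hqD := hmemD q hq
    rw [Finset.mem_filter, mem_nonNbr] at hp hq
    simp only [dif_pos hpD, dif_pos hqD] at hpq
    have := hf2 ⟨p, hpD⟩ ⟨q, hqD⟩ (fun h => hp.1.1 (congrArg Subtype.val h)) hp.1.2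
      (fun h => hq.1.1 (congrArg Subtype.val h)) hq.1.2 (Subtype.ext hpq)
    exact congrArg Subtype.val this

end Pool.Agent.Lib.MP_fe081e_lc
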