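import Pool.Agent.Lib.MP_fe081e_lc.Level

/-!
From a family of light branches at a root to the certificate `Good`.
-/

namespace Pool.Agent.Lib.MP_fe081e_lc

open Finset

variable {V : Type*} [Fintype V] [DecidableEq V] {G : SimpleGraph V} [DecidableRel G.Adj]

/-- A decomposition of `V \ {r}` into light branches of cut at most `k`. -/
structure Branching (G : SimpleGraph V) [DecidableRel G.Adj] (r : V) (k : ℕ) where
  B : V → Finset V
  mem : ∀ v, v ≠ r → v ∈ B v
  not_mem : ∀ v, r ∉ B v
  eq : ∀ v w, v ≠ r → w ∈ B v → B w = B v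
  light : ∀ v, v ≠ r → Light G (B v)
  cut_le : ∀ v, v ≠ r → cut G (B v) ≤ k
  nbr : ∀ v, v ≠ r → ∃ z ∈ B v, G.Adj r z
  conn : ∀ v, v ≠ r → ∀ P : V → Prop, (∃ w ∈ B v, P w) →
    (∀ u ∈ B v, ∀ w ∈ B v, G.Adj u w → P u → P w) → ∀ w ∈ B v, P w
  conn' : ∀ v, v ≠ r → ∀ P : V → Prop, P r →
    (∀ u, u ∉ B v → ∀ w, w ∉ B v → G.Adj u w → P u → P w) → ∀ w, w ∉ B v → P w

lemma degree_add_nonNbr (r : V) : G.degree r + (nonNbr G r).card + 1 = Fintype.card V := by
  classical
  have h : (univ : Finset V) = insert r (G.neighborFinset r ∪ nonNbr G r) := by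
    ext x
    simp only [Finset.mem_univ, Finset.mem_insert, Finset.mem_union,
      SimpleGraph.mem_neighborFinset, mem_nonNbr, true_iff]
    tauto
  have h2 : r ∉ G.neighborFinset r ∪ nonNbr G r := by
    simp
  have h3 : Disjoint (G.neighborFinset r) (nonNbr G r) := by
    rw [Finset.disjoint_left]
    intro a ha hb
    rw [SimpleGraph.mem_neighborFinset] at ha
    rw [mem_nonNbr] at hb
    exact hb.2 ha
  rw [← Finset.card_univ, h, Finset.card_insert_of_notMem h2, Finset.card_union_of_disjoint h3,
    G.card_neighborFinset_eq_degree]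

/-- Root with a unique non-neighbour. -/
lemma good_of_unique {k : ℕ} {z x0 y : V} (hne : x0 ≠ z) (hz : ∀ w, w ≠ z → w ≠ x0 → G.Adj z w)
    (huniv : ∀ w, ∃ w', w' ≠ w ∧ ¬ G.Adj w w')
    (hdeg : G.degree z ≤ k) (hyz : G.Adj z y) (hyx : G.Adj x0 y)
    (hsum : G.degree x0 + G.degree y ≤ k + 2) : Good G k := by
  have hzd : G.degree z + 2 ≥ Fintype.card V := by
    have h := degree_add_nonNbr (G := G) z
    have h2 : nonNbr G z ⊆ {x0} := by
      intro w hw
      rw [mem_nonNbr] at hw
      rw [Finset.mem_singleton]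
      by_contra hcon
      exact hw.2 (hz w hw.1 hcon)
    have := Finset.card_le_card h2
    rw [Finset.card_singleton] at this
    omega
  refine ⟨z, ?_, fun _ => y, ?_, ?_⟩
  · intro w _
    obtain ⟨w', hw', hadj⟩ := huniv w
    have h := degree_add_nonNbr (G := G) w
    have : 1 ≤ (nonNbr G w).card :=
      Finset.card_pos.2 ⟨w', by rw [mem_nonNbr]; exact ⟨hw', hadj⟩⟩
    omega
  · intro w hw hwadj
    have : w = x0 := by
      by_contra hcon
      exact hwadj (hz w hw hcon)
    subst this
    exact ⟨hyz, hyx, hsum⟩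
  · intro w w' hw hwadj hw' hwadj' _
    have h1 : w = x0 := by
      by_contra hcon
      exact hwadj (hz w hw hcon)
    have h2 : w' = x0 := by
      by_contra hcon
      exact hwadj' (hz w' hw' hcon)
    rw [h1, h2]

/-- The key claim : in an excess branch all non-neighbours of the root are matchable with all
vertices of the level. -/
lemma key_claim (hP : P4Free G) (hconn : G.Connected)
    (huniv : ∀ w, ∃ w', w' ≠ w ∧ ¬ G.Adj w w') (hexc : ¬ Exceptional G) {r : V} {k : ℕ}
    (D : Branching G r k) (hng : ¬ Good G k) {v : V} (hv : v ≠ r)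
    (hex : (D.B v ∩ Nt G r (lev G r (D.B v))).card < (D.B v ∩ nonNbr G r).card)
    {y z : V} (hy : y ∈ D.B v) (hyQ : y ∈ nonNbr G r) (hz : z ∈ Nt G r (lev G r (D.B v))) :
    G.degree y + G.degree z ≤ k + 2 := by
  classical
  set S := D.B v with hSdef
  set t := lev G r S with ht
  have hrS : r ∉ S := D.not_mem v
  have hlight : Light G S := D.light v hv
  obtain ⟨z0, hz0S, hrz0, htz0, hmax⟩ := exists_lev (G := G) (D.nbr v hv)
  rw [← hSdef, ← ht] at htz0 hmax
  have hz0N : z0 ∈ Nt G r t := by rw [mem_Nt]; exact ⟨hrz0, htz0⟩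
  have hγ2 : 1 ≤ (S ∩ Nt G r t).card :=
    Finset.card_pos.2 ⟨z0, Finset.mem_inter.2 ⟨hz0S, hz0N⟩⟩
  have hA3 := three_le_Atop hP hconn huniv hexc r
  have hadjlev : ∀ y' ∈ S, y' ∈ nonNbr G r → ∀ z' ∈ Nt G r t, y' ∈ Zs G r z' := by
    intro y' hy' hyQ' z' hz'
    rw [mem_Nt] at hz'
    exact adj_of_lev hP hrS (D.nbr v hv) (D.conn v hv) hy' hyQ' hz'.1 hz'.2.ge
  have hcut : cut G S ≤ k := D.cut_le v hv
  suffices h : G.degree y + G.degree z ≤ cut G S + 2 by omega
  have htle : t ≤ (nonNbr G r).card := by rw [← htz0]; exact tz_le r z0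
  rcases Nat.lt_or_eq_of_le htle with hlt | heq
  · -- deep level
    set H := univ.filter (fun z => G.Adj r z ∧ t < tz G r z) with hH
    set L := univ.filter (fun z => G.Adj r z ∧ tz G r z < t) with hL
    set E1 := insert r (L ∪ Zs G r z0) with hE1
    set E2 := Nt G r t with hE2
    have mH : ∀ x, x ∈ H ↔ G.Adj r x ∧ t < tz G r x := by intro x; rw [hH]; simp
    have mL : ∀ x, x ∈ L ↔ G.Adj r x ∧ tz G r x < t := by intro x; rw [hL]; simp
    have mE2 : ∀ x, x ∈ E2 ↔ G.Adj r x ∧ tz G r x = t := by intro x; rw [hE2, mem_Nt]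
    have mE1 : ∀ x, x ∈ E1 ↔ x = r ∨ x ∈ L ∨ x ∈ Zs G r z0 := by
      intro x; rw [hE1]; simp only [Finset.mem_insert, Finset.mem_union]
    have nZ : ∀ x, x ∈ Zs G r z0 → x ≠ r ∧ ¬ G.Adj r x := by
      intro x hx; rw [mem_Zs] at hx; exact hx.1
    have hd12 : Disjoint E1 E2 := by
      rw [Finset.disjoint_left]
      intro x hx1 hx2
      rw [mE2] at hx2
      rw [mE1, mL] at hx1
      rcases hx1 with h | h | h
      · subst h; exact G.loopless.irrefl _ hx2.1
      · omega
      · exact (nZ x h).2 hx2.1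
    have hdH1 : Disjoint H E1 := by
      rw [Finset.disjoint_left]
      intro x hx2 hx1
      rw [mH] at hx2
      rw [mE1, mL] at hx1
      rcases hx1 with h | h | h
      · subst h; exact G.loopless.irrefl _ hx2.1
      · omega
      · exact (nZ x h).2 hx2.1
    have hdH2 : Disjoint H E2 := by
      rw [Finset.disjoint_left]
      intro x hx2 hx1
      rw [mH] at hx2
      rw [mE2] at hx1
      omega
    have hS : S ⊆ E1 ∪ E2 := by
      intro w hw
      rw [Finset.mem_union, mE1, mE2, mL]
      by_cases hrw : G.Adj r w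
      · have := hmax w hw hrw
        rcases Nat.lt_or_eq_of_le this with h | h
        · exact Or.inl (Or.inr (Or.inl ⟨hrw, h⟩))
        · exact Or.inr ⟨hrw, h⟩
      · have hwr : w ≠ r := by rintro rfl; exact hrS hw
        left; right; right
        exact hadjlev w hw (by rw [mem_nonNbr]; exact ⟨hwr, hrw⟩) z0 hz0N
    -- E1 - E2 complete
    have h12 : ∀ w ∈ E1, ∀ x ∈ E2, G.Adj w x := by
      intro w hw x hx
      rw [mE2] at hx
      rw [mE1, mL] at hw
      rcases hw with h | h | h
      · rw [h]; exact hx.1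
      · exact adj_of_card_lt hP h.1 hx.1 (by have := h.2; unfold tz at *; omega)
      · have : Zs G r z0 = Zs G r x :=
          Zs_eq_of_card_eq hP hrz0 hx.1 (by have := hx.2; unfold tz at *; omega)
        rw [this, mem_Zs] at h
        exact h.2.symm
    have hH1 : ∀ w ∈ E1, ∀ x ∈ H, G.Adj w x := by
      intro w hw x hx
      rw [mH] at hx
      rw [mE1, mL] at hw
      rcases hw with h | h | h
      · rw [h]; exact hx.1
      · exact adj_of_card_lt hP h.1 hx.1 (by have := h.2; unfold tz at *; omega)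
      · have : Zs G r z0 ⊆ Zs G r x :=
          Zs_subset_of_card_le hP hrz0 hx.1 (by have := hx.2; unfold tz at *; omega)
        have h' := this h
        rw [mem_Zs] at h'
        exact h'.2.symm
    have hH2 : ∀ w ∈ E2, ∀ x ∈ H, G.Adj w x := by
      intro w hw x hx
      rw [mH] at hx
      rw [mE2] at hw
      exact adj_of_card_lt hP hw.1 hx.1 (by have := hw.2; unfold tz at *; omega)
    have hclosed1 : ∀ w ∈ E1, G.neighborFinset w ⊆ H ∪ E1 ∪ E2 := by
      intro w hw x hx
      rw [SimpleGraph.mem_neighborFinset] at hx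
      rw [Finset.mem_union, Finset.mem_union, mH, mE1, mE2, mL]
      by_cases hxr : x = r
      · exact Or.inl (Or.inr (Or.inl hxr))
      by_cases hrx : G.Adj r x
      · rcases lt_trichotomy (tz G r x) t with h | h | h
        · exact Or.inl (Or.inr (Or.inr (Or.inl ⟨hrx, h⟩)))
        · exact Or.inr ⟨hrx, h⟩
        · exact Or.inl (Or.inl ⟨hrx, h⟩)
      · have hxQ : x ∈ nonNbr G r := by rw [mem_nonNbr]; exact ⟨hxr, hrx⟩
        rw [mE1, mL] at hw
        rcases hw with h | h | h
        · rw [h] at hx; exact absurd hx hrx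
        · left; right; right; right
          have : Zs G r w ⊆ Zs G r z0 :=
            Zs_subset_of_card_le hP h.1 hrz0 (by have := h.2; unfold tz at *; omega)
          apply this
          rw [mem_Zs]
          exact ⟨⟨hxr, hrx⟩, hx⟩
        · left; right; right; right
          by_contra hcon
          exact not_adj_of_Zs hP hrz0 hxQ hcon h hx.symm
    have hclosed2 : ∀ w ∈ E2, G.neighborFinset w ⊆ H ∪ E1 ∪ E2 := by
      intro w hw x hx
      rw [SimpleGraph.mem_neighborFinset] at hx
      rw [Finset.mem_union, Finset.mem_union, mH, mE1, mE2, mL]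
      by_cases hxr : x = r
      · exact Or.inl (Or.inr (Or.inl hxr))
      by_cases hrx : G.Adj r x
      · rcases lt_trichotomy (tz G r x) t with h | h | h
        · exact Or.inl (Or.inr (Or.inr (Or.inl ⟨hrx, h⟩)))
        · exact Or.inr ⟨hrx, h⟩
        · exact Or.inl (Or.inl ⟨hrx, h⟩)
      · left; right; right; right
        rw [mE2] at hw
        have : Zs G r z0 = Zs G r w :=
          Zs_eq_of_card_eq hP hrz0 hw.1 (by have := hw.2; unfold tz at *; omega)
        rw [this, mem_Zs]
        exact ⟨⟨hxr, hrx⟩, hx⟩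
    have hHcard : 2 ≤ H.card := by
      have : Atop G r ⊆ H := by
        intro x hx
        unfold Atop at hx
        rw [mem_Nt] at hx
        rw [mH]
        exact ⟨hx.1, by omega⟩
      have := Finset.card_le_card this
      omega
    have hg1 : 2 ≤ (S ∩ E1).card := by
      have : S ∩ nonNbr G r ⊆ S ∩ E1 := by
        intro x hx
        rw [Finset.mem_inter] at hx ⊢
        exact ⟨hx.1, by rw [mE1]; right; right; exact hadjlev x hx.1 hx.2 z0 hz0N⟩
      have := Finset.card_le_card this
      omega
    have hyE1 : y ∈ S ∩ E1 := by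
      rw [Finset.mem_inter, mE1]
      exact ⟨hy, Or.inr (Or.inr (hadjlev y hy hyQ z0 hz0N))⟩
    refine claimB hd12 hdH1 hdH2 hS ?_ ?_ hclosed1 hclosed2 hHcard hg1 hγ2 hyE1 hz
    · intro w hw x hx
      rw [SimpleGraph.mem_neighborFinset]
      rcases Finset.mem_union.1 hx with h | h
      · exact hH1 w hw x h
      · exact h12 w hw x h
    · intro w hw x hx
      rw [SimpleGraph.mem_neighborFinset]
      rcases Finset.mem_union.1 hx with h | h
      · exact hH2 w hw x h
      · exact (h12 x h w hw).symm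
  · -- top level
    have hNt : Nt G r t = Atop G r := by rw [heq]; rfl
    set A := Atop G r with hA
    rw [hNt] at hex hz hγ2 hz0N hadjlev
    have hd12 : Disjoint (univ \ A) A := Finset.sdiff_disjoint
    have hcov : (univ \ A) ∪ A = univ := Finset.sdiff_union_of_subset (Finset.subset_univ _)
    have h1 : ∀ w ∈ univ \ A, A ⊆ G.neighborFinset w := by
      intro w hw x hx
      rw [SimpleGraph.mem_neighborFinset]
      exact (Atop_adj hP hx (Finset.mem_sdiff.1 hw).2).symm
    have h2 : ∀ w ∈ A, univ \ A ⊆ G.neighborFinset w := by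
      intro w hw x hx
      rw [SimpleGraph.mem_neighborFinset]
      exact Atop_adj hP hw (Finset.mem_sdiff.1 hx).2
    have hsubQ : S ∩ nonNbr G r ⊆ S ∩ (univ \ A) := by
      intro x hx
      rw [Finset.mem_inter] at hx ⊢
      refine ⟨hx.1, Finset.mem_sdiff.2 ⟨Finset.mem_univ _, ?_⟩⟩
      intro hxA
      have := hx.2
      rw [mem_nonNbr] at this
      exact this.2 (mem_Atop.1 hxA).1
    have hg12 : (S ∩ A).card + 1 ≤ (S ∩ (univ \ A)).card := by
      have := Finset.card_le_card hsubQ
      omega
    have hu : 1 ≤ (A \ S).card := by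
      by_contra hcon
      have hAS : A ⊆ S := by
        rw [← Finset.sdiff_eq_empty_iff_subset, ← Finset.card_eq_zero]; omega
      have hQ : (nonNbr G r).Nonempty := ⟨y, hyQ⟩
      obtain ⟨w, hw⟩ := R0_nonempty hP hQ
      have hout : ∀ x, x ∉ S → x ∉ R0 G r := by
        apply D.conn' v hv
        · exact not_mem_R0_self
        · intro u huS x hxS hux hu hx
          have huA : u ∉ Atop G r := fun h => huS (hAS h)
          exact R0_not_adj hP hx huA hu hux.symm
      have hwS : w ∈ S := by
        by_contra h; exact hout w h hw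
      have := hlight w hwS
      have hempty : G.neighborFinset w \ S = ∅ := by
        rw [Finset.sdiff_eq_empty_iff_subset]
        intro x hx
        rw [SimpleGraph.mem_neighborFinset] at hx
        by_contra hxS
        exact R0_not_adj hP hw (fun h => hxS (hAS h)) (hout x hxS) hx
      rw [hempty, Finset.card_empty] at this
      omega
    have hx : ∀ x0 ∈ S ∩ A, (S ∩ A).card = 1 → ∀ z ∈ A, z ≠ x0 → ¬ G.Adj z x0 →
        dIn G A z + 3 ≤ A.card := by
      intro x0 hx0 _ z' hz' hne hnadj
      by_contra hcon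
      apply hng
      rw [Finset.mem_inter] at hx0
      have hsub : G.neighborFinset z' ∩ A ⊆ (A.erase z').erase x0 := by
        intro x hx
        rw [Finset.mem_inter, SimpleGraph.mem_neighborFinset] at hx
        refine Finset.mem_erase.2 ⟨?_, Finset.mem_erase.2 ⟨?_, hx.2⟩⟩
        · rintro rfl; exact hnadj hx.1
        · rintro rfl; exact G.loopless.irrefl _ hx.1
      have hcard : ((A.erase z').erase x0).card = A.card - 1 - 1 := by
        rw [Finset.card_erase_of_mem (Finset.mem_erase.2 ⟨hne.symm, hx0.2⟩),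
          Finset.card_erase_of_mem hz']
      have heq' : G.neighborFinset z' ∩ A = (A.erase z').erase x0 := by
        apply Finset.eq_of_subset_of_card_le hsub
        rw [hcard]
        unfold dIn at hcon
        omega
      have hzall : ∀ w, w ≠ z' → w ≠ x0 → G.Adj z' w := by
        intro w hw1 hw2
        by_cases hwA : w ∈ A
        · have : w ∈ (A.erase z').erase x0 :=
            Finset.mem_erase.2 ⟨hw2, Finset.mem_erase.2 ⟨hw1, hwA⟩⟩
          rw [← heq', Finset.mem_inter, SimpleGraph.mem_neighborFinset] at this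
          exact this.1
        · exact Atop_adj hP hz' hwA
      have hyA : y ∉ A := by
        intro h
        rw [mem_nonNbr] at hyQ
        exact hyQ.2 (mem_Atop.1 h).1
      have hz'r : z' ≠ r := by rintro rfl; exact not_mem_Atop_self hz'
      refine good_of_unique hne.symm hzall huniv ?_ (Atop_adj hP hz' hyA)
        (Atop_adj hP hx0.2 hyA) ?_
      · exact le_trans ((D.light z' hz'r).degree_le (D.mem z' hz'r)) (D.cut_le z' hz'r)
      · have := hlight.pair_le hx0.1 hy (Atop_adj hP hx0.2 hyA)
        omega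
    exact claimA hd12 hcov h1 h2 hlight (Finset.mem_sdiff.2 ⟨Finset.mem_univ _,
      not_mem_Atop_self⟩) hrS huniv hA3 hu hγ2 hg12 hx
      (hsubQ (Finset.mem_inter.2 ⟨hy, hyQ⟩)) hz

end Pool.Agent.Lib.MP_fe081e_lc
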