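import Pool.Agent.Lib.MP_fe081e_lc.Core

/-!
The two counting claims about a light branch `S` that holds more non-neighbours of the root than
neighbours of its own level.
-/

namespace Pool.Agent.Lib.MP_fe081e_lc

open Finset

variable {V : Type*} [Fintype V] [DecidableEq V] {G : SimpleGraph V} [DecidableRel G.Adj]

/-- number of neighbours of `w` that lie in `E` -/
def dIn (G : SimpleGraph V) [DecidableRel G.Adj] (E : Finset V) (w : V) : ℕ :=
  (G.neighborFinset w ∩ E).card

/-- lower bound for the cut of a set inside a join `E1 + E2`, with `H` complete to both. -/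
lemma cut_ge_join {S E1 E2 H : Finset V} (hd12 : Disjoint E1 E2) (hdH1 : Disjoint H E1)
    (hdH2 : Disjoint H E2) (hS : S ⊆ E1 ∪ E2)
    (h1 : ∀ w ∈ E1, H ∪ E2 ⊆ G.neighborFinset w) (h2 : ∀ w ∈ E2, H ∪ E1 ⊆ G.neighborFinset w) :
    (S ∩ E1).card * (H.card + (E2 \ S).card) + ∑ w ∈ S ∩ E1, dIn G (E1 \ S) w +
    ((S ∩ E2).card * (H.card + (E1 \ S).card) + ∑ w ∈ S ∩ E2, dIn G (E2 \ S) w) ≤ cut G S := by
  have hSeq : S = (S ∩ E1) ∪ (S ∩ E2) := by
    rw [← Finset.inter_union_distrib_left, Finset.inter_eq_left.2 hS]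
  have hdisj : Disjoint (S ∩ E1) (S ∩ E2) :=
    Finset.disjoint_of_subset_left Finset.inter_subset_right
      (Finset.disjoint_of_subset_right Finset.inter_subset_right hd12)
  have hHS : Disjoint H S := by
    rw [Finset.disjoint_left] at *
    intro a ha haS
    rcases Finset.mem_union.1 (hS haS) with h | h
    · exact hdH1 ha h
    · exact hdH2 ha h
  have key : ∀ (A B : Finset V), Disjoint A B → Disjoint H A → Disjoint H B →
      (∀ w ∈ A, H ∪ B ⊆ G.neighborFinset w) → ∀ w ∈ S ∩ A,
      H.card + (B \ S).card + dIn G (A \ S) w ≤ (G.neighborFinset w \ S).card := by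
    intro A B hAB hHA hHB hN w hw
    have hwA : w ∈ A := (Finset.mem_inter.1 hw).2
    have hsub : H ∪ (B \ S) ∪ (G.neighborFinset w ∩ (A \ S)) ⊆ G.neighborFinset w \ S := by
      intro x hx
      rw [Finset.mem_union, Finset.mem_union] at hx
      rcases hx with (hx | hx) | hx
      · refine Finset.mem_sdiff.2 ⟨hN w hwA (Finset.mem_union_left _ hx), ?_⟩
        exact Finset.disjoint_left.1 hHS hx
      · rw [Finset.mem_sdiff] at hx
        exact Finset.mem_sdiff.2 ⟨hN w hwA (Finset.mem_union_right _ hx.1), hx.2⟩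
      · rw [Finset.mem_inter, Finset.mem_sdiff] at hx
        exact Finset.mem_sdiff.2 ⟨hx.1, hx.2.2⟩
    have hcard := Finset.card_le_card hsub
    have hd1 : Disjoint H (B \ S) := Finset.disjoint_of_subset_right Finset.sdiff_subset hHB
    have hd2 : Disjoint (H ∪ (B \ S)) (G.neighborFinset w ∩ (A \ S)) := by
      rw [Finset.disjoint_union_left]
      constructor
      · exact Finset.disjoint_of_subset_right
          (Finset.inter_subset_right.trans Finset.sdiff_subset) hHA
      · exact Finset.disjoint_of_subset_left Finset.sdiff_subset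
          (Finset.disjoint_of_subset_right
            (Finset.inter_subset_right.trans Finset.sdiff_subset) hAB.symm)
    rw [Finset.card_union_of_disjoint hd2, Finset.card_union_of_disjoint hd1] at hcard
    exact hcard
  have e1 : (S ∩ E1).card * (H.card + (E2 \ S).card) + ∑ w ∈ S ∩ E1, dIn G (E1 \ S) w ≤
      ∑ w ∈ S ∩ E1, (G.neighborFinset w \ S).card := by
    have := Finset.sum_le_sum (key E1 E2 hd12 hdH1 hdH2 h1)
    rw [Finset.sum_add_distrib, Finset.sum_const, smul_eq_mul] at this
    exact this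
  have e2 : (S ∩ E2).card * (H.card + (E1 \ S).card) + ∑ w ∈ S ∩ E2, dIn G (E2 \ S) w ≤
      ∑ w ∈ S ∩ E2, (G.neighborFinset w \ S).card := by
    have := Finset.sum_le_sum (key E2 E1 hd12.symm hdH2 hdH1 h2)
    rw [Finset.sum_add_distrib, Finset.sum_const, smul_eq_mul] at this
    exact this
  have e3 : cut G S = ∑ w ∈ S ∩ E1, (G.neighborFinset w \ S).card +
      ∑ w ∈ S ∩ E2, (G.neighborFinset w \ S).card := by
    unfold cut
    conv_lhs => rw [hSeq]
    rw [Finset.sum_union hdisj, ← hSeq]
  omega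

lemma dIn_le_of_mem {S E : Finset V} {y : V} (hy : y ∈ S ∩ E) :
    dIn G E y + 1 ≤ (∑ w ∈ S ∩ E, dIn G (E \ S) w) + (S ∩ E).card := by
  have h1 : dIn G (E \ S) y ≤ ∑ w ∈ S ∩ E, dIn G (E \ S) w :=
    Finset.single_le_sum (f := fun w => dIn G (E \ S) w) (fun _ _ => Nat.zero_le _) hy
  have h2 : dIn G E y ≤ dIn G (E \ S) y + ((S ∩ E).erase y).card := by
    unfold dIn
    refine le_trans (Finset.card_le_card ?_) (Finset.card_union_le _ _)
    intro x hx
    rw [Finset.mem_inter] at hx
    by_cases hxS : x ∈ S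
    · apply Finset.mem_union_right
      refine Finset.mem_erase.2 ⟨?_, Finset.mem_inter.2 ⟨hxS, hx.2⟩⟩
      rintro rfl
      simp at hx
    · exact Finset.mem_union_left _
        (Finset.mem_inter.2 ⟨hx.1, Finset.mem_sdiff.2 ⟨hx.2, hxS⟩⟩)
  rw [Finset.card_erase_of_mem hy] at h2
  have h3 : 1 ≤ (S ∩ E).card := Finset.card_pos.2 ⟨y, hy⟩
  omega

lemma dIn_le_of_not_mem {S E : Finset V} {z : V} (hz : z ∈ E \ S) :
    dIn G E z + 1 ≤ (∑ w ∈ S ∩ E, dIn G (E \ S) w) + (E \ S).card := by
  have h1 : dIn G (S ∩ E) z ≤ ∑ w ∈ S ∩ E, dIn G (E \ S) w := by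
    unfold dIn
    rw [Finset.card_eq_sum_ones]
    rw [Finset.inter_comm, ← Finset.filter_mem_eq_inter, Finset.sum_filter]
    apply Finset.sum_le_sum
    intro w hw
    split_ifs with h
    · apply Finset.card_pos.2
      refine ⟨z, Finset.mem_inter.2 ⟨?_, hz⟩⟩
      rw [SimpleGraph.mem_neighborFinset] at *
      exact h.symm
    · exact Nat.zero_le _
  have h2 : dIn G E z ≤ dIn G (S ∩ E) z + ((E \ S).erase z).card := by
    unfold dIn
    refine le_trans (Finset.card_le_card ?_) (Finset.card_union_le _ _)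
    intro x hx
    rw [Finset.mem_inter] at hx
    by_cases hxS : x ∈ S
    · exact Finset.mem_union_left _
        (Finset.mem_inter.2 ⟨hx.1, Finset.mem_inter.2 ⟨hxS, hx.2⟩⟩)
    · apply Finset.mem_union_right
      refine Finset.mem_erase.2 ⟨?_, Finset.mem_sdiff.2 ⟨hx.2, hxS⟩⟩
      rintro rfl
      simp at hx
  rw [Finset.card_erase_of_mem hz] at h2
  have h3 : 1 ≤ (E \ S).card := Finset.card_pos.2 ⟨z, hz⟩
  omega

lemma degree_le_dIn {E1 E2 H : Finset V} {w : V} (h : G.neighborFinset w ⊆ H ∪ E1 ∪ E2) :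
    G.degree w ≤ H.card + E2.card + dIn G E1 w := by
  rw [← G.card_neighborFinset_eq_degree w]
  have : G.neighborFinset w ⊆ (H ∪ E2) ∪ (G.neighborFinset w ∩ E1) := by
    intro x hx
    have := h hx
    simp only [Finset.mem_union, Finset.mem_inter] at *
    tauto
  refine le_trans (Finset.card_le_card this) ?_
  refine le_trans (Finset.card_union_le _ _) ?_
  have := Finset.card_union_le H E2
  unfold dIn
  omega

lemma dIn_lt_card {E : Finset V} {z : V} (hz : z ∈ E) : dIn G E z + 1 ≤ E.card := by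
  unfold dIn
  have : G.neighborFinset z ∩ E ⊆ E.erase z := by
    intro x hx
    rw [Finset.mem_inter] at hx
    refine Finset.mem_erase.2 ⟨?_, hx.2⟩
    rintro rfl
    simp at hx
  have h1 := Finset.card_le_card this
  rw [Finset.card_erase_of_mem hz] at h1
  have h3 : 1 ≤ E.card := Finset.card_pos.2 ⟨z, hz⟩
  omega

/-- Claim B: deep levels. -/
lemma claimB {S E1 E2 H : Finset V} (hd12 : Disjoint E1 E2) (hdH1 : Disjoint H E1)
    (hdH2 : Disjoint H E2) (hS : S ⊆ E1 ∪ E2)
    (h1 : ∀ w ∈ E1, H ∪ E2 ⊆ G.neighborFinset w) (h2 : ∀ w ∈ E2, H ∪ E1 ⊆ G.neighborFinset w)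
    (h1' : ∀ w ∈ E1, G.neighborFinset w ⊆ H ∪ E1 ∪ E2)
    (h2' : ∀ w ∈ E2, G.neighborFinset w ⊆ H ∪ E1 ∪ E2)
    (hH : 2 ≤ H.card) (hg1 : 2 ≤ (S ∩ E1).card) (hg2 : 1 ≤ (S ∩ E2).card)
    {y z : V} (hy : y ∈ S ∩ E1) (hz : z ∈ E2) : G.degree y + G.degree z ≤ cut G S + 2 := by
  have hc := cut_ge_join hd12 hdH1 hdH2 hS h1 h2
  have hdy := degree_le_dIn (h1' y (Finset.mem_inter.1 hy).2)
  have hdz := degree_le_dIn (E1 := E2) (E2 := E1) (w := z) (by
    intro x hx
    have := h2' z hz hx
    simp only [Finset.mem_union] at *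
    tauto)
  have hdz2 := dIn_lt_card (G := G) hz
  have hdy2 := dIn_le_of_mem (G := G) hy
  have hE1 : E1.card = (S ∩ E1).card + (E1 \ S).card := by
    rw [Finset.inter_comm]; exact (Finset.card_inter_add_card_sdiff E1 S).symm
  have hE2 : E2.card = (S ∩ E2).card + (E2 \ S).card := by
    rw [Finset.inter_comm]; exact (Finset.card_inter_add_card_sdiff E2 S).symm
  generalize (S ∩ E1).card = g1 at *
  generalize (S ∩ E2).card = g2 at *
  generalize (E1 \ S).card = v at *
  generalize (E2 \ S).card = u at *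
  generalize H.card = h at *
  generalize ∑ w ∈ S ∩ E1, dIn G (E1 \ S) w = c1 at *
  generalize ∑ w ∈ S ∩ E2, dIn G (E2 \ S) w = c2 at *
  generalize E1.card = e1 at *
  generalize E2.card = e2 at *
  subst hE1 hE2
  obtain ⟨g1', rfl⟩ := Nat.exists_eq_add_of_le hg1
  obtain ⟨g2', rfl⟩ := Nat.exists_eq_add_of_le hg2
  obtain ⟨h', rfl⟩ := Nat.exists_eq_add_of_le hH
  nlinarith [Nat.zero_le (g1' * u), Nat.zero_le (g2' * v), Nat.zero_le (g1' * h'),
    Nat.zero_le (g2' * h'), Nat.zero_le h']

/-- Claim A: top level, purely numerical part. -/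
lemma claimA {S E1 E2 : Finset V} (hd12 : Disjoint E1 E2) (hcov : E1 ∪ E2 = univ)
    (h1 : ∀ w ∈ E1, E2 ⊆ G.neighborFinset w) (h2 : ∀ w ∈ E2, E1 ⊆ G.neighborFinset w)
    (hlight : Light G S) {r : V} (hr : r ∈ E1) (hrS : r ∉ S)
    (huniv : ∀ w, ∃ w', w' ≠ w ∧ ¬ G.Adj w w')
    (hE2 : 3 ≤ E2.card) (hu : 1 ≤ (E2 \ S).card)
    (hg2 : 1 ≤ (S ∩ E2).card) (hg12 : (S ∩ E2).card + 1 ≤ (S ∩ E1).card)
    (hx : ∀ x0 ∈ S ∩ E2, (S ∩ E2).card = 1 → ∀ z ∈ E2, z ≠ x0 → ¬ G.Adj z x0 →
      dIn G E2 z + 3 ≤ E2.card)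
    {y z : V} (hy : y ∈ S ∩ E1) (hz : z ∈ E2) : G.degree y + G.degree z ≤ cut G S + 2 := by
  have hc := cut_ge_join (H := ∅) hd12 (Finset.disjoint_empty_left _)
    (Finset.disjoint_empty_left _) (S := S) (by rw [hcov]; exact Finset.subset_univ _)
    (by simpa using h1) (by simpa using h2)
  have hdy := degree_le_dIn (G := G) (H := ∅) (E1 := E1) (E2 := E2) (w := y)
    (by rw [Finset.empty_union, hcov]; exact Finset.subset_univ _)
  have hdz := degree_le_dIn (G := G) (H := ∅) (E1 := E2) (E2 := E1) (w := z)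
    (by rw [Finset.empty_union, Finset.union_comm, hcov]; exact Finset.subset_univ _)
  have hdy2 := dIn_le_of_mem (G := G) hy
  have hcE1 : E1.card = (S ∩ E1).card + (E1 \ S).card := by
    rw [Finset.inter_comm]; exact (Finset.card_inter_add_card_sdiff E1 S).symm
  have hcE2 : E2.card = (S ∩ E2).card + (E2 \ S).card := by
    rw [Finset.inter_comm]; exact (Finset.card_inter_add_card_sdiff E2 S).symm
  -- degrees inside the two sides are at most size - 2
  have hnu : ∀ (A B : Finset V), A ∪ B = univ → (∀ w ∈ A, B ⊆ G.neighborFinset w) →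
      ∀ w ∈ A, dIn G A w + 2 ≤ A.card := by
    intro A B hAB hN w hw
    obtain ⟨w', hw', hadj⟩ := huniv w
    have hw'A : w' ∈ A := by
      have : w' ∈ A ∪ B := by rw [hAB]; exact Finset.mem_univ _
      rcases Finset.mem_union.1 this with h | h
      · exact h
      · have := hN w hw h
        rw [SimpleGraph.mem_neighborFinset] at this
        exact absurd this hadj
    have hsub : G.neighborFinset w ∩ A ⊆ (A.erase w).erase w' := by
      intro x hx
      rw [Finset.mem_inter, SimpleGraph.mem_neighborFinset] at hx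
      refine Finset.mem_erase.2 ⟨?_, Finset.mem_erase.2 ⟨?_, hx.2⟩⟩
      · rintro rfl; exact hadj hx.1
      · rintro rfl; exact G.loopless.irrefl _ hx.1
    have h3 := Finset.card_le_card hsub
    rw [Finset.card_erase_of_mem (Finset.mem_erase.2 ⟨hw', hw'A⟩),
      Finset.card_erase_of_mem hw] at h3
    have h4 : 2 ≤ A.card := by
      have : ({w, w'} : Finset V) ⊆ A := by
        intro x hx
        simp only [Finset.mem_insert, Finset.mem_singleton] at hx
        rcases hx with rfl | rfl <;> assumption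
      have h5 := Finset.card_le_card this
      rwa [Finset.card_pair hw'.symm] at h5
    unfold dIn
    omega
  have hny := hnu E1 E2 hcov h1 y (Finset.mem_inter.1 hy).2
  have hnz := hnu E2 E1 (by rw [Finset.union_comm]; exact hcov) h2 z hz
  -- neighbours outside S
  have hout : ∀ (A B : Finset V), A ∪ B = univ → ∀ w ∈ S ∩ A,
      2 ≤ dIn G (A \ S) w + (B \ S).card := by
    intro A B hAB w hw
    have h5 := hlight w (Finset.mem_inter.1 hw).1
    refine le_trans h5 ?_
    unfold dIn
    refine le_trans (Finset.card_le_card ?_) (Finset.card_union_le _ _)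
    intro x hx
    rw [Finset.mem_sdiff] at hx
    have : x ∈ A ∪ B := by rw [hAB]; exact Finset.mem_univ _
    rcases Finset.mem_union.1 this with h | h
    · exact Finset.mem_union_left _ (Finset.mem_inter.2 ⟨hx.1, Finset.mem_sdiff.2 ⟨h, hx.2⟩⟩)
    · exact Finset.mem_union_right _ (Finset.mem_sdiff.2 ⟨h, hx.2⟩)
  have hv : 1 ≤ (E1 \ S).card := Finset.card_pos.2 ⟨r, Finset.mem_sdiff.2 ⟨hr, hrS⟩⟩
  by_cases hα : (S ∩ E2).card = 1
  · -- α = 1
    obtain ⟨x0, hx0⟩ := Finset.card_eq_one.1 hα
    have hx0m : x0 ∈ S ∩ E2 := by rw [hx0]; exact Finset.mem_singleton_self _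
    have hc2 : ∑ w ∈ S ∩ E2, dIn G (E2 \ S) w = dIn G (E2 \ S) x0 := by
      rw [hx0, Finset.sum_singleton]
    have hc2' : dIn G (E2 \ S) x0 = dIn G E2 x0 := by
      unfold dIn
      congr 1
      ext x
      simp only [Finset.mem_inter, Finset.mem_sdiff, SimpleGraph.mem_neighborFinset]
      constructor
      · rintro ⟨a, b, c⟩; exact ⟨a, b⟩
      · rintro ⟨a, b⟩
        refine ⟨a, b, fun hxS => ?_⟩
        have : x ∈ S ∩ E2 := Finset.mem_inter.2 ⟨hxS, b⟩
        rw [hx0, Finset.mem_singleton] at this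
        rw [this] at a
        exact G.loopless.irrefl _ a
    have hzb : dIn G E2 z + 3 ≤ E2.card + dIn G E2 x0 := by
      by_cases hzx : z = x0
      · subst hzx; omega
      · by_cases hadj : G.Adj z x0
        · have : 1 ≤ dIn G E2 x0 := by
            apply Finset.card_pos.2
            refine ⟨z, Finset.mem_inter.2 ⟨?_, hz⟩⟩
            rw [SimpleGraph.mem_neighborFinset]; exact hadj.symm
          omega
        · have := hx x0 hx0m hα z hz hzx hadj
          omega
    rw [hc2, hc2'] at hc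
    rw [hα] at hc hcE2 hg12
    generalize (S ∩ E1).card = b at *
    generalize (E1 \ S).card = v at *
    generalize (E2 \ S).card = u at *
    generalize ∑ w ∈ S ∩ E1, dIn G (E1 \ S) w = c1 at *
    generalize E1.card = e1 at *
    generalize E2.card = e2 at *
    subst hcE1 hcE2
    simp only [Finset.card_empty, zero_add] at *
    obtain ⟨b', rfl⟩ := Nat.exists_eq_add_of_le (show 2 ≤ b by omega)
    obtain ⟨u', rfl⟩ := Nat.exists_eq_add_of_le (show 2 ≤ u by omega)
    nlinarith [Nat.zero_le (b' * u')]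
  · by_cases hu1 : (E2 \ S).card = 1
    · -- u = 1
      have hc1 : (S ∩ E1).card ≤ ∑ w ∈ S ∩ E1, dIn G (E1 \ S) w := by
        have := Finset.card_nsmul_le_sum (S ∩ E1) (fun w => dIn G (E1 \ S) w) 1
          (fun w hw => by have := hout E1 E2 hcov w hw; omega)
        simpa using this
      have hv2 : 2 ≤ (E1 \ S).card := by
        by_contra hcon
        have hv1 : (E1 \ S).card = 1 := by omega
        obtain ⟨r', hr'⟩ := Finset.card_eq_one.1 hv1
        have hrr : r ∈ E1 \ S := Finset.mem_sdiff.2 ⟨hr, hrS⟩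
        have hrr' : r = r' := by rw [hr', Finset.mem_singleton] at hrr; exact hrr
        subst hrr'
        obtain ⟨w', hw', hadj⟩ := huniv r
        apply hadj
        have : w' ∈ E1 ∪ E2 := by rw [hcov]; exact Finset.mem_univ _
        rcases Finset.mem_union.1 this with h | h
        · by_cases hwS : w' ∈ S
          · have h6 := hout E1 E2 hcov w' (Finset.mem_inter.2 ⟨hwS, h⟩)
            rw [hu1, hr'] at h6
            have h7 : 1 ≤ dIn G {r} w' := by omega
            obtain ⟨x, hxx⟩ := Finset.card_pos.1 h7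
            rw [Finset.mem_inter, Finset.mem_singleton, SimpleGraph.mem_neighborFinset] at hxx
            rw [hxx.2] at hxx
            exact hxx.1.symm
          · have : w' ∈ E1 \ S := Finset.mem_sdiff.2 ⟨h, hwS⟩
            rw [hr', Finset.mem_singleton] at this
            exact absurd this hw'
        · have := h1 r hr h
          rwa [SimpleGraph.mem_neighborFinset] at this
      rw [hu1] at hc hcE2
      generalize (S ∩ E1).card = b at *
      generalize (S ∩ E2).card = a at *
      generalize (E1 \ S).card = v at *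
      generalize ∑ w ∈ S ∩ E1, dIn G (E1 \ S) w = c1 at *
      generalize ∑ w ∈ S ∩ E2, dIn G (E2 \ S) w = c2 at *
      generalize E1.card = e1 at *
      generalize E2.card = e2 at *
      subst hcE1 hcE2
      simp only [Finset.card_empty, zero_add] at *
      obtain ⟨a', rfl⟩ := Nat.exists_eq_add_of_le (show 2 ≤ a by omega)
      obtain ⟨v', rfl⟩ := Nat.exists_eq_add_of_le (show 2 ≤ v by omega)
      nlinarith [Nat.zero_le (a' * v')]
    · by_cases hv1 : (E1 \ S).card = 1
      · -- v = 1
        have hc2 : (S ∩ E2).card ≤ ∑ w ∈ S ∩ E2, dIn G (E2 \ S) w := by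
          have := Finset.card_nsmul_le_sum (S ∩ E2) (fun w => dIn G (E2 \ S) w) 1
            (fun w hw => by
              have := hout E2 E1 (by rw [Finset.union_comm]; exact hcov) w hw; omega)
          simpa using this
        rw [hv1] at hc hcE1
        generalize (S ∩ E1).card = b at *
        generalize (S ∩ E2).card = a at *
        generalize (E2 \ S).card = u at *
        generalize ∑ w ∈ S ∩ E1, dIn G (E1 \ S) w = c1 at *
        generalize ∑ w ∈ S ∩ E2, dIn G (E2 \ S) w = c2 at *
        generalize E1.card = e1 at *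
        generalize E2.card = e2 at *
        subst hcE1 hcE2
        simp only [Finset.card_empty, zero_add] at *
        obtain ⟨b', rfl⟩ := Nat.exists_eq_add_of_le (show 2 ≤ b by omega)
        obtain ⟨u', rfl⟩ := Nat.exists_eq_add_of_le (show 2 ≤ u by omega)
        nlinarith [Nat.zero_le (b' * u')]
      · -- all at least 2
        have hzb : dIn G E2 z + 1 ≤ (∑ w ∈ S ∩ E2, dIn G (E2 \ S) w) +
            max (S ∩ E2).card (E2 \ S).card := by
          by_cases hzS : z ∈ S
          · have := dIn_le_of_mem (G := G) (Finset.mem_inter.2 ⟨hzS, hz⟩)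
            have := le_max_left (S ∩ E2).card (E2 \ S).card
            omega
          · have := dIn_le_of_not_mem (G := G) (Finset.mem_sdiff.2 ⟨hz, hzS⟩)
            have := le_max_right (S ∩ E2).card (E2 \ S).card
            omega
        generalize (S ∩ E1).card = b at *
        generalize (S ∩ E2).card = a at *
        generalize (E2 \ S).card = u at *
        generalize (E1 \ S).card = v at *
        generalize ∑ w ∈ S ∩ E1, dIn G (E1 \ S) w = c1 at *
        generalize ∑ w ∈ S ∩ E2, dIn G (E2 \ S) w = c2 at *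
        generalize E1.card = e1 at *
        generalize E2.card = e2 at *
        subst hcE1 hcE2
        simp only [Finset.card_empty, zero_add] at *
        obtain ⟨b', rfl⟩ := Nat.exists_eq_add_of_le (show 2 ≤ b by omega)
        obtain ⟨u', rfl⟩ := Nat.exists_eq_add_of_le (show 2 ≤ u by omega)
        obtain ⟨a', rfl⟩ := Nat.exists_eq_add_of_le (show 2 ≤ a by omega)
        obtain ⟨v', rfl⟩ := Nat.exists_eq_add_of_le (show 2 ≤ v by omega)
        rcases max_cases (2 + a') (2 + u') with ⟨hm, _⟩ | ⟨hm, _⟩ <;> rw [hm] at hzb <;>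
        nlinarith [Nat.zero_le (b' * u'), Nat.zero_le (a' * v')]

end Pool.Agent.Lib.MP_fe081e_lc
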