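import Mathlib

/-!
Combinatorial core: cuts, light sets, and the structure of a `P₄`-free graph seen from a root `r`.
-/

namespace Pool.Agent.Lib.MP_fe081e_lc

open Finset

variable {V : Type*} [Fintype V] [DecidableEq V] (G : SimpleGraph V) [DecidableRel G.Adj]

/-- The number of edges of `G` leaving the vertex set `S`. -/
def cut (S : Finset V) : ℕ := ∑ w ∈ S, (G.neighborFinset w \ S).card

/-- Every vertex of `S` has at least two neighbours outside `S`. -/
def Light (S : Finset V) : Prop := ∀ w ∈ S, 2 ≤ (G.neighborFinset w \ S).card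

/-- `P₄`-freeness, in the form used in the proofs. -/
def P4Free : Prop := ∀ a b c d, G.Adj a b → G.Adj b c → G.Adj c d → ¬ G.Adj a c → ¬ G.Adj b d →
  G.Adj a d

/-- the non-neighbours of `r` -/
def nonNbr (r : V) : Finset V := univ.filter (fun y => y ≠ r ∧ ¬ G.Adj r y)

/-- the set of non-neighbours of `r` that are adjacent to `z` -/
def Zs (r z : V) : Finset V := (nonNbr G r).filter (fun y => G.Adj z y)

/-- The certificate: a root `r` and a matching of the non-neighbours of `r` into the
neighbours of `r` such that all the congestions are at most `k`. -/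
def Good (k : ℕ) : Prop :=
  ∃ r, (∀ z, z ≠ r → G.degree z ≤ k) ∧
    ∃ f : V → V, (∀ y, y ≠ r → ¬ G.Adj r y →
      G.Adj r (f y) ∧ G.Adj y (f y) ∧ G.degree y + G.degree (f y) ≤ k + 2) ∧
      (∀ y y', y ≠ r → ¬ G.Adj r y → y' ≠ r → ¬ G.Adj r y' → f y = f y' → y = y')

variable {G}

@[simp] lemma mem_nonNbr {r y : V} : y ∈ nonNbr G r ↔ y ≠ r ∧ ¬ G.Adj r y := by
  simp [nonNbr]

@[simp] lemma mem_Zs {r z y : V} : y ∈ Zs G r z ↔ (y ≠ r ∧ ¬ G.Adj r y) ∧ G.Adj z y := by
  simp [Zs]

lemma cut_ge_of_mem {S : Finset V} {x : V} (hx : x ∈ S)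
    (h : ∀ w ∈ S, 1 ≤ (G.neighborFinset w \ S).card) : G.degree x ≤ cut G S := by
  unfold cut
  rw [← Finset.add_sum_erase _ _ hx]
  have h1 : (S.erase x).card ≤ ∑ w ∈ S.erase x, (G.neighborFinset w \ S).card := by
    have := Finset.card_nsmul_le_sum (S.erase x) (fun w => (G.neighborFinset w \ S).card) 1
      (fun w hw => h w (Finset.mem_of_mem_erase hw))
    simpa using this
  have h2 : G.degree x ≤ (G.neighborFinset x \ S).card + (S.erase x).card := by
    rw [← G.card_neighborFinset_eq_degree x]
    calc (G.neighborFinset x).card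
        ≤ ((G.neighborFinset x \ S) ∪ (S.erase x)).card := by
          apply Finset.card_le_card
          intro w hw
          by_cases hwS : w ∈ S
          · apply Finset.mem_union_right
            refine Finset.mem_erase.2 ⟨?_, hwS⟩
            rintro rfl
            simp at hw
          · exact Finset.mem_union_left _ (Finset.mem_sdiff.2 ⟨hw, hwS⟩)
      _ ≤ _ := Finset.card_union_le _ _
  omega

lemma Light.degree_le {S : Finset V} (hS : Light G S) {x : V} (hx : x ∈ S) :
    G.degree x ≤ cut G S :=
  cut_ge_of_mem hx (fun w hw => le_trans (by norm_num) (hS w hw))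

lemma Light.pair_le {S : Finset V} (hS : Light G S) {x y : V} (hx : x ∈ S) (hy : y ∈ S)
    (hxy : G.Adj x y) : G.degree x + G.degree y ≤ cut G S + 2 := by
  unfold cut
  have hne : x ≠ y := hxy.ne
  have hy' : y ∈ S.erase x := Finset.mem_erase.2 ⟨hne.symm, hy⟩
  rw [← Finset.add_sum_erase _ _ hx, ← Finset.add_sum_erase _ _ hy']
  set R := (S.erase x).erase y with hR
  have hcard : ∀ v ∈ ({x, y} : Finset V), G.degree v ≤ (G.neighborFinset v \ S).card + 1 +
      (R.filter (fun w => G.Adj v w)).card := by
    intro v hv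
    rw [← G.card_neighborFinset_eq_degree v]
    -- the neighbour of v inside {x,y}
    have hv' : v = x ∨ v = y := by simpa using hv
    set o : V := if v = x then y else x with ho
    calc (G.neighborFinset v).card
        ≤ ((G.neighborFinset v \ S) ∪ ({o} ∪ (R.filter (fun w => G.Adj v w)))).card := by
          apply Finset.card_le_card
          intro w hw
          have hw' : G.Adj v w := by simpa using hw
          by_cases hwS : w ∈ S
          · apply Finset.mem_union_right
            by_cases hwo : w = o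
            · exact Finset.mem_union_left _ (by simp [hwo])
            · apply Finset.mem_union_right
              simp only [Finset.mem_filter, hR, Finset.mem_erase]
              refine ⟨⟨?_, ?_, hwS⟩, hw'⟩
              · rcases hv' with h | h
                · rw [ho, if_pos h] at hwo; exact hwo
                · rintro rfl; rw [h] at hw'; exact (G.loopless.irrefl _ hw').elim
              · rcases hv' with h | h
                · rintro rfl; rw [h] at hw'; exact (G.loopless.irrefl _ hw').elim
                · have : v ≠ x := by rw [h]; exact hne.symm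
                  rw [ho, if_neg this] at hwo; exact hwo
          · exact Finset.mem_union_left _ (Finset.mem_sdiff.2 ⟨hw, hwS⟩)
      _ ≤ (G.neighborFinset v \ S).card + ({o} ∪ (R.filter (fun w => G.Adj v w))).card :=
          Finset.card_union_le _ _
      _ ≤ (G.neighborFinset v \ S).card + (1 + (R.filter (fun w => G.Adj v w)).card) := by
          gcongr
          refine le_trans (Finset.card_union_le _ _) ?_
          simp
      _ = _ := by ring
  have hx1 := hcard x (by simp)
  have hy1 := hcard y (by simp)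
  have hsum : (R.filter (fun w => G.Adj x w)).card + (R.filter (fun w => G.Adj y w)).card ≤
      ∑ w ∈ R, (G.neighborFinset w \ S).card := by
    rw [Finset.card_filter, Finset.card_filter, ← Finset.sum_add_distrib]
    apply Finset.sum_le_sum
    intro w hw
    have hwS : w ∈ S := Finset.mem_of_mem_erase (Finset.mem_of_mem_erase hw)
    have := hS w hwS
    split_ifs <;> omega
  omega

/-! ### The view from a root -/

section Root

variable {r : V}

/-- `F1` -/
lemma adj_of_Zs (hP : P4Free G) {z z' y : V} (hz : G.Adj r z) (hz' : G.Adj r z')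
    (hy : y ∈ Zs G r z') (hy' : y ∉ Zs G r z) : G.Adj z z' := by
  rw [mem_Zs] at hy hy'
  obtain ⟨⟨hyr, hry⟩, hzy⟩ := hy
  by_contra hcon
  apply hy'
  refine ⟨⟨hyr, hry⟩, ?_⟩
  have := hP y z' r z hzy.symm hz'.symm hz (fun h => hry h.symm) (fun h => hcon h.symm)
  exact this.symm

/-- `F2` : the sets `Zs` form a chain -/
lemma Zs_chain (hP : P4Free G) {z z' : V} (hz : G.Adj r z) (hz' : G.Adj r z') :
    Zs G r z ⊆ Zs G r z' ∨ Zs G r z' ⊆ Zs G r z := by
  by_contra hcon
  rw [not_or] at hcon
  obtain ⟨h1, h2⟩ := hcon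
  rw [Finset.not_subset] at h1 h2
  obtain ⟨y, hy, hy'⟩ := h1
  obtain ⟨x, hx, hx'⟩ := h2
  have hzz : G.Adj z z' := adj_of_Zs hP hz hz' hx hx'
  rw [mem_Zs] at hy hx hy' hx'
  have hyz' : ¬ G.Adj z' y := fun h => hy' ⟨hy.1, h⟩
  have hxz : ¬ G.Adj z x := fun h => hx' ⟨hx.1, h⟩
  have hyx : G.Adj y x := hP y z z' x hy.2.symm hzz hx.2 (fun h => hyz' h.symm) hxz
  have := hP r z y x hz hy.2 hyx hy.1.2 hxz
  exact hx.1.2 this

/-- `F3` -/
lemma not_adj_of_Zs (hP : P4Free G) {z y y' : V} (hz : G.Adj r z) (hy : y ∈ nonNbr G r)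
    (hyZ : y ∉ Zs G r z) (hy' : y' ∈ Zs G r z) : ¬ G.Adj y y' := by
  intro h
  rw [mem_nonNbr] at hy
  rw [mem_Zs] at hyZ hy'
  have hzy : ¬ G.Adj z y := fun h => hyZ ⟨hy, h⟩
  have := hP y y' z r h hy'.2.symm hz.symm (fun h => hzy h.symm) (fun h => hy'.1.2 h.symm)
  exact hy.2 this.symm

lemma Zs_subset_of_card_le (hP : P4Free G) {z z' : V} (hz : G.Adj r z) (hz' : G.Adj r z')
    (h : (Zs G r z).card ≤ (Zs G r z').card) : Zs G r z ⊆ Zs G r z' := by
  rcases Zs_chain hP hz hz' with h1 | h1
  · exact h1
  · rw [Finset.eq_of_subset_of_card_le h1 h]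

lemma Zs_eq_of_card_eq (hP : P4Free G) {z z' : V} (hz : G.Adj r z) (hz' : G.Adj r z')
    (h : (Zs G r z).card = (Zs G r z').card) : Zs G r z = Zs G r z' :=
  Finset.Subset.antisymm (Zs_subset_of_card_le hP hz hz' h.le)
    (Zs_subset_of_card_le hP hz' hz h.ge)

lemma adj_of_card_lt (hP : P4Free G) {z z' : V} (hz : G.Adj r z) (hz' : G.Adj r z')
    (h : (Zs G r z).card < (Zs G r z').card) : G.Adj z z' := by
  have h1 : ¬ Zs G r z' ⊆ Zs G r z := fun h' => absurd (Finset.card_le_card h') (by omega)
  rw [Finset.not_subset] at h1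
  obtain ⟨y, hy, hy'⟩ := h1
  exact adj_of_Zs hP hz hz' hy hy'

end Root

end Pool.Agent.Lib.MP_fe081e_lc
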