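import Mathlib

/-!
# Spanning tree congestion : definitions
-/

namespace Pool.Agent.Lib.MP_fe081e_lc

variable {V : Type*}

/-- The congestion of the edge `e` of the spanning tree `T` of `G`: the number of edges of `G`
whose two ends lie in different components of `T - e`. -/
noncomputable def edgeCongestion (G T : SimpleGraph V) (e : Sym2 V) : ℕ :=
  {f ∈ G.edgeSet | ∃ u v, f = s(u, v) ∧ ¬ (T.deleteEdges {e}).Reachable u v}.ncard

/-- The congestion `ec(G;T)` of `T`: the maximum congestion of an edge of `T`
(`0` if `T` has no edge). -/
noncomputable def treeCongestion (G T : SimpleGraph V) : ℕ :=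
  sSup (edgeCongestion G T '' T.edgeSet)

/-- `T` is a spanning tree of `G`. -/
def IsSpanningTree (G T : SimpleGraph V) : Prop := T ≤ G ∧ T.IsTree

/-- The spanning tree congestion `stc(G)`: the minimum of `ec(G;T)` over all spanning trees. -/
noncomputable def stc (G : SimpleGraph V) : ℕ :=
  sInf (treeCongestion G '' {T | IsSpanningTree G T})

/-- A cograph is a graph without an induced path on four vertices. -/
def IsCograph (G : SimpleGraph V) : Prop := ¬ (SimpleGraph.pathGraph 4).IsIndContained G

end Pool.Agent.Lib.MP_fe081e_lc
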