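import Pool.Agent.Lib.MP_fe081e_lc.Upper

/-!
The exceptional graphs and the final characterisation.
-/

namespace Pool.Agent.Lib.MP_fe081e_lc

open Finset

section MaxDeg

variable {W : Type*} [Fintype W] [DecidableEq W] {H : SimpleGraph W} [DecidableRel H.Adj]

/-- In a connected cograph the non-neighbours of some vertex can be matched into its
neighbours. -/
lemma exists_root_matching (hP : P4Free H) (hconn : H.Connected) :
    ∃ z, ∃ f : W → W, (∀ y, y ≠ z → ¬ H.Adj z y → H.Adj z (f y) ∧ H.Adj y (f y)) ∧
      (∀ y y', y ≠ z → ¬ H.Adj z y → y' ≠ z → ¬ H.Adj z y' → f y = f y' → y = y') := by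
  classical
  obtain ⟨w0⟩ : Nonempty W := hconn.nonempty
  obtain ⟨z, _, hz⟩ := Finset.exists_max_image (univ : Finset W) (fun w => H.degree w)
    ⟨w0, Finset.mem_univ _⟩
  refine ⟨z, ?_⟩
  by_cases hQ : (nonNbr H z).Nonempty
  · have hA : (Atop H z).Nonempty := by
      by_contra hcon
      rw [Finset.not_nonempty_iff_eq_empty] at hcon
      obtain ⟨y, hy⟩ := R0_nonempty hP hQ
      have : z ∈ R0 H z := by
        refine walk_closure (H := H) (P := fun w => w ∈ R0 H z) ?_ (hconn.preconnected y z) hy
        intro u w huw hu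
        by_contra hw
        exact R0_not_adj hP hu (by rw [hcon]; simp) hw huw
      exact not_mem_R0_self this
    obtain ⟨x, hx⟩ := hA
    have h1 : (univ \ Atop H z).card ≤ H.degree x := by
      rw [← H.card_neighborFinset_eq_degree]
      apply Finset.card_le_card
      intro w hw
      rw [SimpleGraph.mem_neighborFinset]
      exact Atop_adj hP hx (Finset.mem_sdiff.1 hw).2
    have h2 : H.degree x ≤ H.degree z := hz x (Finset.mem_univ _)
    have h3 := degree_add_nonNbr (G := H) z
    have h4 : (univ \ Atop H z).card + (Atop H z).card = Fintype.card W := by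
      rw [← Finset.card_univ, Finset.card_sdiff_add_card_eq_card (Finset.subset_univ _)]
    obtain ⟨f, hf1, hf2⟩ := exists_inj_of_card_le (A := nonNbr H z) (B := Atop H z) (by omega)
    refine ⟨f, ?_, ?_⟩
    · intro y hy hadj
      have hyQ : y ∈ nonNbr H z := by rw [mem_nonNbr]; exact ⟨hy, hadj⟩
      refine ⟨(mem_Atop.1 (hf1 y hyQ)).1, (Atop_adj hP (hf1 y hyQ) ?_).symm⟩
      intro h
      exact hadj (mem_Atop.1 h).1
    · intro y y' hy hadj hy' hadj' hf
      exact hf2 y (by rw [mem_nonNbr]; exact ⟨hy, hadj⟩) y'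
        (by rw [mem_nonNbr]; exact ⟨hy', hadj'⟩) hf
  · refine ⟨id, ?_, ?_⟩
    · intro y hy hadj
      exact absurd ⟨y, by rw [mem_nonNbr]; exact ⟨hy, hadj⟩⟩ hQ
    · intro y _ hy hadj
      exact absurd ⟨y, by rw [mem_nonNbr]; exact ⟨hy, hadj⟩⟩ hQ

end MaxDeg

variable {V : Type*} [Fintype V] [DecidableEq V] {G : SimpleGraph V} [DecidableRel G.Adj]

lemma exceptional_tree (hP : P4Free G) (hexc : Exceptional G) {k : ℕ}
    (hk : Fintype.card V ≤ k + 2) : ∃ T : SimpleGraph V, T ≤ G ∧ T.IsTree ∧
    ∀ e ∈ T.edgeSet, edgeCongestion G T e ≤ k := by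
  classical
  obtain ⟨x₁, x₂, hne, hnadj, hall, hpre⟩ := hexc
  set B : Set V := {v | v ≠ x₁ ∧ v ≠ x₂} with hB
  set H := G.induce B with hH
  unfold SimpleGraph.Preconnected at hpre
  push Not at hpre
  obtain ⟨a, b, hab⟩ := hpre
  let C : B → Finset V := fun z => univ.filter (fun v => ∃ h : v ∈ B, H.Reachable z ⟨v, h⟩)
  have mC : ∀ z v, v ∈ C z ↔ ∃ h : v ∈ B, H.Reachable z ⟨v, h⟩ := by
    intro z v; simp [C]
  obtain ⟨z0, _, hz0⟩ := Finset.exists_min_image (univ : Finset B) (fun z => (C z).card)
    ⟨a, Finset.mem_univ _⟩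
  have hBc : (univ.filter (fun v => v ∈ B)).card + 2 = Fintype.card V := by
    have h1 : (univ.filter (fun v => v ∈ B)) = ((univ : Finset V).erase x₁).erase x₂ := by
      ext v
      simp only [Finset.mem_filter, Finset.mem_univ, true_and, Finset.mem_erase, hB,
        Set.mem_ofPred_eq, and_true]
      tauto
    rw [h1]
    have h2 := Finset.card_erase_add_one (Finset.mem_erase.2 ⟨hne.symm, Finset.mem_univ x₂⟩)
    have h3 := Finset.card_erase_add_one (Finset.mem_univ x₁)
    rw [Finset.card_univ] at h3
    omega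
  have hD2 : 2 * (C z0).card + 2 ≤ Fintype.card V := by
    have h1 : Disjoint (C a) (C b) := by
      rw [Finset.disjoint_left]
      intro v hva hvb
      rw [mC] at hva hvb
      obtain ⟨h, hva⟩ := hva
      obtain ⟨_, hvb⟩ := hvb
      exact hab (hva.trans hvb.symm)
    have h2 : C a ∪ C b ⊆ univ.filter (fun v => v ∈ B) := by
      intro v hv
      rw [Finset.mem_union, mC, mC] at hv
      rw [Finset.mem_filter]
      rcases hv with ⟨h, _⟩ | ⟨h, _⟩ <;> exact ⟨Finset.mem_univ _, h⟩
    have h3 := Finset.card_le_card h2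
    rw [Finset.card_union_of_disjoint h1] at h3
    have h4 : (C z0).card ≤ (C a).card := hz0 a (Finset.mem_univ _)
    have h5 : (C z0).card ≤ (C b).card := hz0 b (Finset.mem_univ _)
    omega
  set D : Set V := {v | v ∈ C z0} with hD
  have hDB : ∀ v, v ∈ D → v ∈ B := by
    intro v hv
    rw [hD, Set.mem_ofPred_eq, mC] at hv
    exact hv.1
  have hz0D : (z0 : V) ∈ D := by
    rw [hD, Set.mem_ofPred_eq, mC]
    exact ⟨z0.2, SimpleGraph.Reachable.refl _⟩
  -- closedness of D in B
  have hclosed : ∀ u v, u ∈ D → v ∈ B → G.Adj u v → v ∈ D := by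
    intro u v hu hv huv
    rw [hD, Set.mem_ofPred_eq, mC] at hu ⊢
    obtain ⟨hu1, hu2⟩ := hu
    refine ⟨hv, hu2.trans (SimpleGraph.Adj.reachable ?_)⟩
    exact huv
  -- K is connected
  set K := G.induce D with hK
  have hKconn : K.Connected := by
    have key : ∀ (v : V) (hv : v ∈ D), K.Reachable ⟨z0, hz0D⟩ ⟨v, hv⟩ := by
      intro v hv
      have hv' := hv
      rw [hD, Set.mem_ofPred_eq, mC] at hv'
      obtain ⟨hvB, hreach⟩ := hv'
      have := walk_closure (H := H)
        (P := fun w => ∃ h : (w : V) ∈ D, K.Reachable ⟨z0, hz0D⟩ ⟨w, h⟩) ?_ hreach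
        ⟨hz0D, SimpleGraph.Reachable.refl _⟩
      · exact this.2
      · rintro ⟨u, hu⟩ ⟨w, hw⟩ huw ⟨h1, h2⟩
        have huw' : G.Adj u w := huw
        have hwD := hclosed u w h1 hw huw'
        exact ⟨hwD, h2.trans (SimpleGraph.Adj.reachable huw')⟩
    have : Nonempty D := ⟨⟨z0, hz0D⟩⟩
    refine ⟨fun u v => ?_⟩
    exact (key u.1 u.2).symm.trans (key v.1 v.2)
  have hKP : P4Free K := by
    rintro ⟨p, hp⟩ ⟨q, hq⟩ ⟨s, hs⟩ ⟨t, ht⟩ h1 h2 h3 h4 h5
    exact hP p q s t h1 h2 h3 h4 h5
  obtain ⟨⟨z, hzD⟩, f, hf1, hf2⟩ := exists_root_matching hKP hKconn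
  have hzB := hDB z hzD
  have hx1B : x₁ ∉ B := fun h => h.1 rfl
  have hx2B : x₂ ∉ B := fun h => h.2 rfl
  have hzx1 : z ≠ x₁ := hzB.1
  have hzx2 : z ≠ x₂ := hzB.2
  have hadjz := hall z hzx1 hzx2
  let par : V → V := fun v => if v = z then z else if G.Adj z v then z else
    if h : v ∈ D then (f ⟨v, h⟩ : V) else x₁
  have hparD : ∀ v (hv : v ∈ D), v ≠ z → ¬ G.Adj z v → par v = f ⟨v, hv⟩ := by
    intro v hv h1 h2; simp [par, h1, h2, hv]
  have hparnD : ∀ v, v ∉ D → v ≠ z → ¬ G.Adj z v → par v = x₁ := by
    intro v hv h1 h2; simp [par, h1, h2, hv]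
  have hnB : ∀ v, v ≠ z → ¬ G.Adj z v → v ∈ B := by
    intro v hv hadj
    refine ⟨?_, ?_⟩
    · rintro rfl; exact hadj hadjz.1.symm
    · rintro rfl; exact hadj hadjz.2.symm
  have hleaf : ∀ v, G.degree v ≤ k := by
    intro v
    have h1 := degree_add_nonNbr (G := G) v
    have h2 : 1 ≤ (nonNbr G v).card := by
      apply Finset.card_pos.2
      by_cases h3 : v = x₁
      · exact ⟨x₂, by rw [mem_nonNbr, h3]; exact ⟨hne.symm, hnadj⟩⟩
      by_cases h4 : v = x₂
      · exact ⟨x₁, by rw [mem_nonNbr, h4]; exact ⟨hne, fun h => hnadj h.symm⟩⟩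
      have hvB : v ∈ B := ⟨h3, h4⟩
      by_cases h5 : H.Reachable ⟨v, hvB⟩ a
      · refine ⟨b, ?_⟩
        rw [mem_nonNbr]
        constructor
        · rintro h
          have : b = ⟨v, hvB⟩ := Subtype.ext h
          rw [← this] at h5
          exact hab h5.symm
        · intro h
          have : H.Reachable ⟨v, hvB⟩ b := SimpleGraph.Adj.reachable (by exact h)
          exact hab (h5.symm.trans this)
      · refine ⟨a, ?_⟩
        rw [mem_nonNbr]
        constructor
        · rintro h
          have : a = ⟨v, hvB⟩ := Subtype.ext h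
          rw [← this] at h5
          exact h5 (SimpleGraph.Reachable.refl _)
        · intro h
          exact h5 (SimpleGraph.Adj.reachable (by exact h))
    omega
  have hdegD : ∀ v, v ∈ D → G.degree v ≤ (C z0).card + 1 := by
    intro v hv
    have hsub : G.neighborFinset v ⊆ {x₁, x₂} ∪ (C z0).erase v := by
      intro w hw
      rw [SimpleGraph.mem_neighborFinset] at hw
      rw [Finset.mem_union, Finset.mem_insert, Finset.mem_singleton, Finset.mem_erase]
      by_cases h1 : w = x₁
      · exact Or.inl (Or.inl h1)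
      by_cases h2 : w = x₂
      · exact Or.inl (Or.inr h2)
      · right
        exact ⟨hw.ne', hclosed v w hv ⟨h1, h2⟩ hw⟩
    rw [← G.card_neighborFinset_eq_degree]
    have h1 := le_trans (Finset.card_le_card hsub) (Finset.card_union_le _ _)
    rw [Finset.card_pair hne] at h1
    have hvC : v ∈ C z0 := hv
    have h2 := Finset.card_erase_add_one hvC
    omega
  refine ⟨parentGraph par, tree_of_data (r := z) (par := par) (k := k) ?_ ?_ ?_
    (fun v _ => hleaf v) ?_⟩
  · simp [par]
  · intro v hv
    have : v ≠ z := hv.ne'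
    simp [par, this, hv]
  · intro v hv hadj
    by_cases hvD : v ∈ D
    · rw [hparD v hvD hv hadj]
      have := hf1 ⟨v, hvD⟩ (by intro h; exact hv (congrArg Subtype.val h)) (by exact hadj)
      exact this
    · rw [hparnD v hvD hv hadj]
      have hvB := hnB v hv hadj
      exact ⟨hadjz.1.symm, (hall v hvB.1 hvB.2).1.symm⟩
  · intro x hx
    by_cases hx1 : x = x₁
    · -- the big branch
      rw [hx1]
      set F := (nonNbr G z).filter (fun y => par y = x₁) with hF
      have mF : ∀ y, y ∈ F ↔ y ∈ B ∧ y ∉ D := by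
        intro y
        rw [hF, Finset.mem_filter, mem_nonNbr]
        constructor
        · rintro ⟨⟨h1, h2⟩, h3⟩
          refine ⟨hnB y h1 h2, ?_⟩
          intro hyD
          rw [hparD y hyD h1 h2] at h3
          have := hDB _ (f ⟨y, hyD⟩).2
          rw [h3] at this
          exact hx1B this
        · rintro ⟨h1, h2⟩
          have h3 : y ≠ z := by rintro rfl; exact h2 hzD
          have h4 : ¬ G.Adj z y := fun h => h2 (hclosed z y hzD h1 h)
          exact ⟨⟨h3, h4⟩, hparnD y h2 h3 h4⟩
      have hx1F : x₁ ∉ F := by rw [mF]; exact fun h => hx1B h.1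
      unfold cut
      rw [Finset.sum_insert hx1F]
      have e1 : (G.neighborFinset x₁ \ insert x₁ F).card ≤ (C z0).card := by
        apply Finset.card_le_card
        intro w hw
        rw [Finset.mem_sdiff, SimpleGraph.mem_neighborFinset, Finset.mem_insert, mF, not_or] at hw
        have hwB : w ∈ B := ⟨hw.2.1, by rintro rfl; exact hnadj hw.1⟩
        by_contra hcon
        exact hw.2.2 ⟨hwB, hcon⟩
      have e2 : ∑ w ∈ F, (G.neighborFinset w \ insert x₁ F).card ≤ F.card := by
        have := Finset.sum_le_card_nsmul F (fun w => (G.neighborFinset w \ insert x₁ F).card) 1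
          (fun w hw => by
            have hsub : G.neighborFinset w \ insert x₁ F ⊆ {x₂} := by
              intro u hu
              rw [Finset.mem_sdiff, SimpleGraph.mem_neighborFinset, Finset.mem_insert, mF,
                not_or] at hu
              rw [Finset.mem_singleton]
              by_contra hcon
              rw [mF] at hw
              have huB : u ∈ B := ⟨hu.2.1, hcon⟩
              apply hu.2.2
              refine ⟨huB, ?_⟩
              intro huD
              exact hw.2 (hclosed u w huD hw.1 hu.1.symm)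
            have := Finset.card_le_card hsub
            simpa using this)
        simpa using this
      have e3 : F.card + (C z0).card ≤ (univ.filter (fun v => v ∈ B)).card := by
        have hdis : Disjoint F (C z0) := by
          rw [Finset.disjoint_left]
          intro v hv hv'
          rw [mF] at hv
          exact hv.2 hv'
        rw [← Finset.card_union_of_disjoint hdis]
        apply Finset.card_le_card
        intro v hv
        rw [Finset.mem_union, mF] at hv
        rw [Finset.mem_filter]
        rcases hv with h | h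
        · exact ⟨Finset.mem_univ _, h.1⟩
        · exact ⟨Finset.mem_univ _, hDB v h⟩
      omega
    · by_cases hne' : ((nonNbr G z).filter (fun y => par y = x)).Nonempty
      · obtain ⟨y, hy⟩ := hne'
        rw [Finset.mem_filter, mem_nonNbr] at hy
        obtain ⟨⟨hyr, hyadj⟩, hyx⟩ := hy
        have hyD : y ∈ D := by
          by_contra hyD
          rw [hparnD y hyD hyr hyadj] at hyx
          exact hx1 hyx.symm
        rw [hparD y hyD hyr hyadj] at hyx
        have hxD : x ∈ D := by rw [← hyx]; exact (f ⟨y, hyD⟩).2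
        have heq : (nonNbr G z).filter (fun y => par y = x) = {y} := by
          ext w
          rw [Finset.mem_filter, mem_nonNbr, Finset.mem_singleton]
          constructor
          · rintro ⟨⟨h1, h2⟩, h3⟩
            have hwD : w ∈ D := by
              by_contra hwD
              rw [hparnD w hwD h1 h2] at h3
              exact hx1 h3.symm
            rw [hparD w hwD h1 h2] at h3
            have := hf2 ⟨w, hwD⟩ ⟨y, hyD⟩ (fun h => h1 (congrArg Subtype.val h)) h2
              (fun h => hyr (congrArg Subtype.val h)) hyadj (Subtype.ext (h3.trans hyx.symm))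
            exact congrArg Subtype.val this
          · rintro rfl
            exact ⟨⟨hyr, hyadj⟩, by rw [hparD _ hyD hyr hyadj]; exact hyx⟩
        rw [heq]
        have h1 := hf1 ⟨y, hyD⟩ (by intro h; exact hyr (congrArg Subtype.val h)) (by exact hyadj)
        have h1' : G.Adj y (f ⟨y, hyD⟩) := h1.2
        rw [hyx] at h1'
        have h2 := cut_pair h1'.symm
        have h3 := hdegD x hxD
        have h4 := hdegD y hyD
        show cut G {x, y} ≤ k
        omega
      · rw [Finset.not_nonempty_iff_eq_empty] at hne'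
        rw [hne']
        show cut G {x} ≤ k
        rw [cut_singleton]
        exact hleaf x

omit [Fintype V] [DecidableEq V] [DecidableRel G.Adj] in
lemma p4Free_of_isCograph (h : IsCograph G) : P4Free G := by
  classical
  intro a b c d hab hbc hcd hac hbd
  by_contra had
  apply h
  have hac' : a ≠ c := by rintro rfl; exact had hcd
  have hbd' : b ≠ d := by rintro rfl; exact had hab
  have had' : a ≠ d := by rintro rfl; exact hac hcd.symm
  have hab' := hab.ne
  have hbc' := hbc.ne
  have hcd' := hcd.ne
  have hba := hab.symm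
  have hcb := hbc.symm
  have hdc := hcd.symm
  have hca : ¬ G.Adj c a := fun h => hac h.symm
  have hdb : ¬ G.Adj d b := fun h => hbd h.symm
  have hda : ¬ G.Adj d a := fun h => had h.symm
  refine ⟨⟨⟨![a, b, c, d], ?_⟩, ?_⟩⟩
  · intro i j hij
    fin_cases i <;> fin_cases j <;> simp_all
  · intro i j
    fin_cases i <;> fin_cases j <;> simp_all [SimpleGraph.pathGraph_adj]
    all_goals first
      | exact hab
      | exact hba
      | exact hbc
      | exact hcb
      | exact hcd
      | exact hdc
      | exact hac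
      | exact hca
      | exact hbd
      | exact hdb
      | exact had
      | exact hda

/-- The characterisation of the spanning tree congestion of connected cographs. -/
theorem stc_le_iff (hcog : IsCograph G) (hconn : G.Connected) (k : ℕ) :
    stc G ≤ k ↔ Good G k ∨ (Exceptional G ∧ Fintype.card V ≤ k + 2) := by
  classical
  have hP := p4Free_of_isCograph hcog
  have hne : (treeCongestion G '' {T | IsSpanningTree G T}).Nonempty := by
    obtain ⟨T, hTG, hT⟩ := hconn.exists_isTree_le
    exact ⟨_, T, ⟨hTG, hT⟩, rfl⟩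
  constructor
  · intro h
    obtain ⟨T, ⟨hTG, hT⟩, hTc⟩ := Nat.sInf_mem hne
    have h2 : treeCongestion G T ≤ k := by rw [hTc]; exact h
    rw [treeCongestion_le_iff] at h2
    exact good_or_exceptional hP hconn hTG hT h2
  · intro h
    have hT : ∃ T : SimpleGraph V, T ≤ G ∧ T.IsTree ∧
        ∀ e ∈ T.edgeSet, edgeCongestion G T e ≤ k := by
      rcases h with h | ⟨h1, h2⟩
      · exact tree_of_good h
      · exact exceptional_tree hP h1 h2
    obtain ⟨T, hTG, hT, hTc⟩ := hT
    rw [← treeCongestion_le_iff] at hTc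
    exact le_trans (Nat.sInf_le ⟨T, ⟨hTG, hT⟩, rfl⟩) hTc

end Pool.Agent.Lib.MP_fe081e_lc
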