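import Pool.Agent.Lib.MP_fe081e_lc.Branch

/-!
Glueing the matchings of the levels.
-/

namespace Pool.Agent.Lib.MP_fe081e_lc

open Finset

lemma exists_inj_of_card_le {V : Type*} [DecidableEq V] {A B : Finset V} (h : A.card ≤ B.card) :
    ∃ f : V → V, (∀ a ∈ A, f a ∈ B) ∧ ∀ a ∈ A, ∀ a' ∈ A, f a = f a' → a = a' := by
  classical
  have h' : Fintype.card A ≤ Fintype.card B := by simpa using h
  obtain ⟨e⟩ := Function.Embedding.nonempty_of_card_le h'
  refine ⟨fun v => if h : v ∈ A then (e ⟨v, h⟩ : V) else v, ?_, ?_⟩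
  · intro a ha
    simp only [dif_pos ha]
    exact (e ⟨a, ha⟩).2
  · intro a ha a' ha' hf
    simp only [dif_pos ha, dif_pos ha'] at hf
    have := e.injective (Subtype.ext hf)
    simpa using this

/-- fibrewise injection -/
lemma exists_fiber_inj {V W : Type*} [DecidableEq V] [DecidableEq W] {Q N : Finset V} (β : V → W)
    (h : ∀ c, (Q.filter (fun y => β y = c)).card ≤ (N.filter (fun y => β y = c)).card) :
    ∃ f : V → V, (∀ y ∈ Q, f y ∈ N ∧ β (f y) = β y) ∧
      ∀ a ∈ Q, ∀ a' ∈ Q, f a = f a' → a = a' := by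
  classical
  choose g hg1 hg2 using fun c => exists_inj_of_card_le (h c)
  refine ⟨fun y => g (β y) y, ?_, ?_⟩
  · intro y hy
    have := hg1 (β y) y (Finset.mem_filter.2 ⟨hy, rfl⟩)
    rw [Finset.mem_filter] at this
    exact this
  · intro a ha a' ha' hf
    have h1 := hg1 (β a) a (Finset.mem_filter.2 ⟨ha, rfl⟩)
    have h2 := hg1 (β a') a' (Finset.mem_filter.2 ⟨ha', rfl⟩)
    rw [Finset.mem_filter] at h1 h2
    have hβ : β a = β a' := by rw [← h1.2, ← h2.2]; exact congrArg β hf
    simp only at hf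
    rw [hβ] at hf
    exact hg2 (β a') a (Finset.mem_filter.2 ⟨ha, hβ⟩) a' (Finset.mem_filter.2 ⟨ha', rfl⟩) hf

/-- Extending a partial matching: the elements outside `Q'` are related to everything. -/
lemma level_matching {V : Type*} [DecidableEq V] {Q Q' N : Finset V} (R : V → V → Prop)
    (hQ' : Q' ⊆ Q) (f : V → V) (hf : ∀ y ∈ Q', f y ∈ N ∧ R y (f y))
    (hinj : ∀ a ∈ Q', ∀ a' ∈ Q', f a = f a' → a = a')
    (hall : ∀ y ∈ Q, y ∉ Q' → ∀ z ∈ N, R y z) :
    (Q.card ≤ N.card → ∃ g : V → V, (∀ y ∈ Q, g y ∈ N ∧ R y (g y)) ∧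
      ∀ a ∈ Q, ∀ a' ∈ Q, g a = g a' → a = a') ∧
    (N.card ≤ Q.card → ∃ g : V → V, (∀ z ∈ N, g z ∈ Q ∧ R (g z) z) ∧
      ∀ a ∈ N, ∀ a' ∈ N, g a = g a' → a = a') := by
  classical
  set I := Q'.image f with hI
  have hIN : I ⊆ N := by
    intro x hx
    rw [hI, Finset.mem_image] at hx
    obtain ⟨y, hy, rfl⟩ := hx
    exact (hf y hy).1
  have hIcard : I.card = Q'.card :=
    Finset.card_image_of_injOn (fun a ha a' ha' h => hinj a ha a' ha' h)
  have h1 : (Q \ Q').card = Q.card - Q'.card := Finset.card_sdiff_of_subset hQ'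
  have h2 : (N \ I).card = N.card - I.card := Finset.card_sdiff_of_subset hIN
  constructor
  · intro hle
    obtain ⟨e, he1, he2⟩ := exists_inj_of_card_le (A := Q \ Q') (B := N \ I) (by omega)
    refine ⟨fun y => if y ∈ Q' then f y else e y, ?_, ?_⟩
    · intro y hy
      by_cases hyQ : y ∈ Q'
      · simp only [if_pos hyQ]; exact hf y hyQ
      · simp only [if_neg hyQ]
        have := he1 y (Finset.mem_sdiff.2 ⟨hy, hyQ⟩)
        rw [Finset.mem_sdiff] at this
        exact ⟨this.1, hall y hy hyQ _ this.1⟩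
    · intro a ha a' ha' h
      by_cases haQ : a ∈ Q' <;> by_cases haQ' : a' ∈ Q'
      · simp only [if_pos haQ, if_pos haQ'] at h
        exact hinj a haQ a' haQ' h
      · simp only [if_pos haQ, if_neg haQ'] at h
        have := he1 a' (Finset.mem_sdiff.2 ⟨ha', haQ'⟩)
        rw [← h, Finset.mem_sdiff] at this
        exact absurd (Finset.mem_image_of_mem f haQ) this.2
      · simp only [if_neg haQ, if_pos haQ'] at h
        have := he1 a (Finset.mem_sdiff.2 ⟨ha, haQ⟩)
        rw [h, Finset.mem_sdiff] at this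
        exact absurd (Finset.mem_image_of_mem f haQ') this.2
      · simp only [if_neg haQ, if_neg haQ'] at h
        exact he2 a (Finset.mem_sdiff.2 ⟨ha, haQ⟩) a' (Finset.mem_sdiff.2 ⟨ha', haQ'⟩) h
  · intro hle
    obtain ⟨e, he1, he2⟩ := exists_inj_of_card_le (A := N \ I) (B := Q \ Q') (by
      have := Finset.card_le_card hQ'; omega)
    have hinv : ∀ z ∈ I, ∃ y ∈ Q', f y = z := by
      intro z hz
      rw [hI, Finset.mem_image] at hz
      exact hz
    choose! ι hι1 hι2 using hinv
    refine ⟨fun z => if z ∈ I then ι z else e z, ?_, ?_⟩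
    · intro z hz
      by_cases hzI : z ∈ I
      · simp only [if_pos hzI]
        refine ⟨hQ' (hι1 z hzI), ?_⟩
        have := (hf (ι z) (hι1 z hzI)).2
        rwa [hι2 z hzI] at this
      · simp only [if_neg hzI]
        have := he1 z (Finset.mem_sdiff.2 ⟨hz, hzI⟩)
        rw [Finset.mem_sdiff] at this
        exact ⟨this.1, hall _ this.1 this.2 z hz⟩
    · intro a ha a' ha' h
      by_cases haI : a ∈ I <;> by_cases haI' : a' ∈ I
      · simp only [if_pos haI, if_pos haI'] at h
        rw [← hι2 a haI, ← hι2 a' haI', h]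
      · simp only [if_pos haI, if_neg haI'] at h
        have := he1 a' (Finset.mem_sdiff.2 ⟨ha', haI'⟩)
        rw [← h, Finset.mem_sdiff] at this
        exact absurd (hι1 a haI) this.2
      · simp only [if_neg haI, if_pos haI'] at h
        have := he1 a (Finset.mem_sdiff.2 ⟨ha, haI⟩)
        rw [h, Finset.mem_sdiff] at this
        exact absurd (hι1 a' haI') this.2
      · simp only [if_neg haI, if_neg haI'] at h
        exact he2 a (Finset.mem_sdiff.2 ⟨ha, haI⟩) a' (Finset.mem_sdiff.2 ⟨ha', haI'⟩) h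

variable {V : Type*} [Fintype V] [DecidableEq V] {G : SimpleGraph V} [DecidableRel G.Adj]

/-- the non-neighbours of `r` lying in branches of level `t` -/
def Qt {r : V} {k : ℕ} (D : Branching G r k) (t : ℕ) : Finset V :=
  (nonNbr G r).filter (fun y => lev G r (D.B y) = t)

lemma good_of_branching (hP : P4Free G) (hconn : G.Connected)
    (huniv : ∀ w, ∃ w', w' ≠ w ∧ ¬ G.Adj w w') (hexc : ¬ Exceptional G) {r : V} {k : ℕ}
    (D : Branching G r k) : Good G k := by
  classical
  by_contra hng
  -- basic facts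
  have hBr : ∀ y ∈ nonNbr G r, y ≠ r := by intro y hy; rw [mem_nonNbr] at hy; exact hy.1
  have hZs : ∀ y ∈ nonNbr G r, ∀ z, G.Adj r z → lev G r (D.B y) ≤ tz G r z → y ∈ Zs G r z := by
    intro y hy z hz hle
    exact adj_of_lev hP (D.not_mem y) (D.nbr y (hBr y hy)) (D.conn y (hBr y hy))
      (D.mem y (hBr y hy)) hy hz hle
  -- the relation
  let R : V → V → Prop := fun y z => G.Adj y z ∧ G.degree y + G.degree z ≤ k + 2
  -- level matchings
  have hlevel : ∀ t, ((Qt D t).card ≤ (Nt G r t).card →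
      ∃ g : V → V, (∀ y ∈ Qt D t, g y ∈ Nt G r t ∧ R y (g y)) ∧
        ∀ a ∈ Qt D t, ∀ a' ∈ Qt D t, g a = g a' → a = a') ∧
      ((Nt G r t).card ≤ (Qt D t).card → ∃ g : V → V, (∀ z ∈ Nt G r t, g z ∈ Qt D t ∧ R (g z) z) ∧
        ∀ a ∈ Nt G r t, ∀ a' ∈ Nt G r t, g a = g a' → a = a') := by
    intro t
    set Q' := (Qt D t).filter (fun y =>
      (D.B y ∩ nonNbr G r).card ≤ (D.B y ∩ Nt G r t).card) with hQ'
    have memQt : ∀ y, y ∈ Qt D t ↔ y ∈ nonNbr G r ∧ lev G r (D.B y) = t := by
      intro y; unfold Qt; rw [Finset.mem_filter]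
    have hfib : ∀ c, (Q'.filter (fun y => D.B y = c)).card ≤
        ((Nt G r t).filter (fun y => D.B y = c)).card := by
      intro c
      by_cases hc : (Q'.filter (fun y => D.B y = c)).Nonempty
      · obtain ⟨y, hy⟩ := hc
        rw [Finset.mem_filter, hQ', Finset.mem_filter, memQt] at hy
        obtain ⟨⟨⟨hyQ, hyt⟩, hle⟩, hyc⟩ := hy
        have hyr := hBr y hyQ
        have h1 : Q'.filter (fun y => D.B y = c) ⊆ D.B y ∩ nonNbr G r := by
          intro x hx
          rw [Finset.mem_filter, hQ', Finset.mem_filter, memQt] at hx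
          refine Finset.mem_inter.2 ⟨?_, hx.1.1.1⟩
          rw [hyc, ← hx.2]
          exact D.mem x (hBr x hx.1.1.1)
        have h2 : D.B y ∩ Nt G r t ⊆ (Nt G r t).filter (fun y => D.B y = c) := by
          intro x hx
          rw [Finset.mem_inter] at hx
          refine Finset.mem_filter.2 ⟨hx.2, ?_⟩
          rw [← hyc]
          exact D.eq y x hyr hx.1
        exact le_trans (Finset.card_le_card h1) (le_trans hle (Finset.card_le_card h2))
      · rw [Finset.not_nonempty_iff_eq_empty] at hc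
        rw [hc]; simp
    obtain ⟨f, hf1, hf2⟩ := exists_fiber_inj D.B hfib
    refine level_matching (Q' := Q') R (Finset.filter_subset _ _) f ?_ hf2 ?_
    · intro y hy
      have hy' := hy
      rw [hQ', Finset.mem_filter, memQt] at hy'
      obtain ⟨⟨hyQ, hyt⟩, _⟩ := hy'
      obtain ⟨hfN, hfB⟩ := hf1 y hy
      refine ⟨hfN, ?_⟩
      have hyr := hBr y hyQ
      have hfN' := hfN
      rw [mem_Nt] at hfN'
      have hadj : G.Adj y (f y) := by
        have := hZs y hyQ (f y) hfN'.1 (by rw [hyt, hfN'.2])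
        rw [mem_Zs] at this
        exact this.2.symm
      have hfr : f y ≠ r := by
        intro h; rw [h] at hfN'; exact G.loopless.irrefl _ hfN'.1
      have hfy : f y ∈ D.B y := by rw [← hfB]; exact D.mem _ hfr
      have h3 := (D.light y hyr).pair_le (D.mem y hyr) hfy hadj
      have h4 := D.cut_le y hyr
      exact ⟨hadj, by omega⟩
    · intro y hy hyQ' z hz
      rw [memQt] at hy
      have hex : (D.B y ∩ Nt G r (lev G r (D.B y))).card < (D.B y ∩ nonNbr G r).card := by
        rw [hy.2]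
        by_contra hcon
        apply hyQ'
        rw [hQ', Finset.mem_filter, memQt]
        exact ⟨hy, by omega⟩
      have hyr := hBr y hy.1
      have hz' := hz
      rw [mem_Nt] at hz'
      refine ⟨?_, ?_⟩
      · have := hZs y hy.1 z hz'.1 (by rw [hy.2, hz'.2])
        rw [mem_Zs] at this
        exact this.2.symm
      · exact key_claim hP hconn huniv hexc D hng hyr hex (D.mem y hyr) hy.1 (by rw [hy.2]; exact hz)
  have memQt : ∀ y t, y ∈ Qt D t ↔ y ∈ nonNbr G r ∧ lev G r (D.B y) = t := by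
    intro y t; unfold Qt; rw [Finset.mem_filter]
  have hdeg : ∀ z, z ≠ r → G.degree z ≤ k := fun z hz =>
    le_trans ((D.light z hz).degree_le (D.mem z hz)) (D.cut_le z hz)
  by_cases hallt : ∀ t, (Qt D t).card ≤ (Nt G r t).card
  · choose g hg1 hg2 using fun t => (hlevel t).1 (hallt t)
    apply hng
    refine ⟨r, hdeg, fun y => g (lev G r (D.B y)) y, ?_, ?_⟩
    · intro y hy hadj
      have hyQ : y ∈ nonNbr G r := by rw [mem_nonNbr]; exact ⟨hy, hadj⟩
      have := hg1 (lev G r (D.B y)) y ((memQt _ _).2 ⟨hyQ, rfl⟩)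
      rw [mem_Nt] at this
      exact ⟨this.1.1, this.2.1, this.2.2⟩
    · intro y y' hy hadj hy' hadj' hf
      have hyQ : y ∈ nonNbr G r := by rw [mem_nonNbr]; exact ⟨hy, hadj⟩
      have hyQ' : y' ∈ nonNbr G r := by rw [mem_nonNbr]; exact ⟨hy', hadj'⟩
      have h1 := hg1 (lev G r (D.B y)) y ((memQt _ _).2 ⟨hyQ, rfl⟩)
      have h2 := hg1 (lev G r (D.B y')) y' ((memQt _ _).2 ⟨hyQ', rfl⟩)
      rw [mem_Nt] at h1 h2
      simp only at hf
      have hl : lev G r (D.B y) = lev G r (D.B y') := by rw [← h1.1.2, ← h2.1.2, hf]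
      rw [hl] at hf
      exact hg2 _ y ((memQt _ _).2 ⟨hyQ, hl⟩) y' ((memQt _ _).2 ⟨hyQ', rfl⟩) hf
  · -- a maximal bad level
    have hbad : ∃ T, (Nt G r T).card < (Qt D T).card ∧
        ∀ t, T < t → (Qt D t).card ≤ (Nt G r t).card := by
      set F := (range ((nonNbr G r).card + 1)).filter
        (fun t => (Nt G r t).card < (Qt D t).card) with hF
      have hbd : ∀ t, (Nt G r t).card < (Qt D t).card → t ∈ F := by
        intro t ht
        rw [hF, Finset.mem_filter, Finset.mem_range]
        refine ⟨?_, ht⟩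
        have hne : (Qt D t).Nonempty := by rw [← Finset.card_pos]; omega
        obtain ⟨y, hy⟩ := hne
        rw [memQt] at hy
        obtain ⟨z, _, _, h3, _⟩ := exists_lev (G := G) (D.nbr y (hBr y hy.1))
        have := tz_le (G := G) r z
        omega
      have hFne : F.Nonempty := by
        by_contra hcon
        apply hallt
        intro t
        by_contra h
        exact hcon ⟨t, hbd t (by omega)⟩
      refine ⟨F.max' hFne, ?_, ?_⟩
      · have := F.max'_mem hFne
        have h' : F.max' hFne ∈ (range ((nonNbr G r).card + 1)).filter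
          (fun t => (Nt G r t).card < (Qt D t).card) := this
        exact (Finset.mem_filter.1 h').2
      · intro t ht
        by_contra h
        have := F.le_max' t (hbd t (by omega))
        omega
    obtain ⟨T, hT1, hT2⟩ := hbad
    have hQne : (Qt D T).Nonempty := by rw [← Finset.card_pos]; omega
    obtain ⟨y0, hy0⟩ := hQne
    have hy0' := hy0
    rw [memQt] at hy0'
    obtain ⟨r', hr'S, hrr', hr't, _⟩ := exists_lev (G := G) (D.nbr y0 (hBr y0 hy0'.1))
    rw [hy0'.2] at hr't
    have hr'N : r' ∈ Nt G r T := by rw [mem_Nt]; exact ⟨hrr', hr't⟩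
    have hr'r : r' ≠ r := by rintro rfl; exact G.loopless.irrefl _ hrr'
    obtain ⟨gN, hgN1, hgN2⟩ := (hlevel T).2 hT1.le
    have hlev' : ∀ t, ∃ g : V → V, T < t → ((∀ y ∈ Qt D t, g y ∈ Nt G r t ∧ R y (g y)) ∧
        ∀ a ∈ Qt D t, ∀ a' ∈ Qt D t, g a = g a' → a = a') := by
      intro t
      by_cases ht : T < t
      · obtain ⟨g, hg⟩ := (hlevel t).1 (hT2 t ht)
        exact ⟨g, fun _ => hg⟩
      · exact ⟨id, fun h => absurd h ht⟩
    choose g hg using hlev'
    apply hng
    -- non-neighbours of r'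
    have hcase : ∀ x, x ≠ r' → ¬ G.Adj r' x →
        (x ∈ Nt G r T) ∨ (x ∉ Nt G r T ∧ x ∈ nonNbr G r ∧ T < lev G r (D.B x) ∧
          x ∉ Zs G r r') := by
      intro x hx hadj
      have hxr : x ≠ r := by rintro rfl; exact hadj hrr'.symm
      by_cases hrx : G.Adj r x
      · left
        rw [mem_Nt]
        refine ⟨hrx, ?_⟩
        by_contra hcon
        rcases Nat.lt_or_gt_of_ne hcon with h | h
        · exact hadj (adj_of_card_lt hP hrx hrr' (by unfold tz at *; omega)).symm
        · exact hadj (adj_of_card_lt hP hrr' hrx (by unfold tz at *; omega))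
      · right
        have hxQ : x ∈ nonNbr G r := by rw [mem_nonNbr]; exact ⟨hxr, hrx⟩
        refine ⟨?_, hxQ, ?_, ?_⟩
        · intro h; rw [mem_Nt] at h; exact hrx h.1
        · by_contra hcon
          have := hZs x hxQ r' hrr' (by omega)
          rw [mem_Zs] at this
          exact hadj this.2
        · rw [mem_Zs]; exact fun h => hadj h.2
    refine ⟨r', ?_, fun x => if x ∈ Nt G r T then gN x else g (lev G r (D.B x)) x, ?_, ?_⟩
    · intro z hz
      by_cases hzr : z = r
      · -- deg r ≤ deg r' ≤ k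
        rw [hzr]
        have h1 := degree_add_nonNbr (G := G) r
        have h2 := degree_add_nonNbr (G := G) r'
        have h3 : nonNbr G r' ⊆ ((Nt G r T).erase r') ∪ (nonNbr G r \ Zs G r r') := by
          intro x hx
          rw [mem_nonNbr] at hx
          rcases hcase x hx.1 hx.2 with h | h
          · exact Finset.mem_union_left _ (Finset.mem_erase.2 ⟨hx.1, h⟩)
          · exact Finset.mem_union_right _ (Finset.mem_sdiff.2 ⟨h.2.1, h.2.2.2⟩)
        have h4 := le_trans (Finset.card_le_card h3) (Finset.card_union_le _ _)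
        have hZsub : Zs G r r' ⊆ nonNbr G r := Finset.filter_subset _ _
        rw [Finset.card_erase_of_mem hr'N, Finset.card_sdiff_of_subset hZsub] at h4
        have h5 : Qt D T ⊆ Zs G r r' := by
          intro x hx
          rw [memQt] at hx
          exact hZs x hx.1 r' hrr' (by omega)
        have h6 := Finset.card_le_card h5
        have h7 := tz_le (G := G) r r'
        unfold tz at h7
        have := hdeg r' hr'r
        omega
      · exact hdeg z hzr
    · intro x hx hadj
      beta_reduce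
      rcases hcase x hx hadj with h | h
      · rw [if_pos h]
        obtain ⟨h1, h2⟩ := hgN1 x h
        have h1' := h1
        rw [memQt] at h1'
        refine ⟨?_, h2.1.symm, ?_⟩
        · have := hZs (gN x) h1'.1 r' hrr' (by omega)
          rw [mem_Zs] at this
          exact this.2
        · have := h2.2; omega
      · rw [if_neg h.1]
        obtain ⟨h1, h2⟩ := (hg _ h.2.2.1).1 x ((memQt _ _).2 ⟨h.2.1, rfl⟩)
        rw [mem_Nt] at h1
        refine ⟨?_, h2.1, h2.2⟩
        exact adj_of_card_lt hP hrr' h1.1 (by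
          have := h.2.2.1; have := h1.2; unfold tz at *; omega)
    · intro x x' hx hadj hx' hadj' hf
      rcases hcase x hx hadj with h | h <;> rcases hcase x' hx' hadj' with h' | h'
      · simp only [if_pos h, if_pos h'] at hf
        exact hgN2 x h x' h' hf
      · simp only [if_pos h, if_neg h'.1] at hf
        exfalso
        have h1 := (hgN1 x h).1
        obtain ⟨h2, _⟩ := (hg _ h'.2.2.1).1 x' ((memQt _ _).2 ⟨h'.2.1, rfl⟩)
        rw [memQt, hf, mem_nonNbr] at h1
        rw [mem_Nt] at h2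
        exact h1.1.2 h2.1
      · simp only [if_neg h.1, if_pos h'] at hf
        exfalso
        have h1 := (hgN1 x' h').1
        obtain ⟨h2, _⟩ := (hg _ h.2.2.1).1 x ((memQt _ _).2 ⟨h.2.1, rfl⟩)
        rw [memQt, ← hf, mem_nonNbr] at h1
        rw [mem_Nt] at h2
        exact h1.1.2 h2.1
      · simp only [if_neg h.1, if_neg h'.1] at hf
        obtain ⟨h1, _⟩ := (hg _ h.2.2.1).1 x ((memQt _ _).2 ⟨h.2.1, rfl⟩)
        obtain ⟨h2, _⟩ := (hg _ h'.2.2.1).1 x' ((memQt _ _).2 ⟨h'.2.1, rfl⟩)
        rw [mem_Nt] at h1 h2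
        have hl : lev G r (D.B x) = lev G r (D.B x') := by rw [← h1.2, ← h2.2, hf]
        rw [← hl] at hf
        exact (hg _ h.2.2.1).2 x ((memQt _ _).2 ⟨h.2.1, rfl⟩) x'
          ((memQt _ _).2 ⟨h'.2.1, hl.symm⟩) hf

end Pool.Agent.Lib.MP_fe081e_lc
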