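import Pool.Agent.Lib.MP_fe081e_lc.Claims

/-!
Levels of the neighbours of a root, and the matching obtained from a family of light branches.
-/

namespace Pool.Agent.Lib.MP_fe081e_lc

open Finset

variable {V : Type*} [Fintype V] [DecidableEq V] {G : SimpleGraph V} [DecidableRel G.Adj]

/-- level of a neighbour `z` of `r` : number of non-neighbours of `r` it sees -/
def tz (G : SimpleGraph V) [DecidableRel G.Adj] (r z : V) : ℕ := (Zs G r z).card

/-- neighbours of `r` of level `t` -/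
def Nt (G : SimpleGraph V) [DecidableRel G.Adj] (r : V) (t : ℕ) : Finset V :=
  univ.filter (fun z => G.Adj r z ∧ tz G r z = t)

/-- neighbours of `r` that see all non-neighbours of `r` -/
def Atop (G : SimpleGraph V) [DecidableRel G.Adj] (r : V) : Finset V :=
  Nt G r (nonNbr G r).card

/-- level of a set : maximal level of a neighbour of `r` in it -/
def lev (G : SimpleGraph V) [DecidableRel G.Adj] (r : V) (S : Finset V) : ℕ :=
  (S.filter (fun z => G.Adj r z)).sup (tz G r)

@[simp] lemma mem_Nt {r z : V} {t : ℕ} : z ∈ Nt G r t ↔ G.Adj r z ∧ tz G r z = t := by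
  simp [Nt]

lemma tz_le (r z : V) : tz G r z ≤ (nonNbr G r).card :=
  Finset.card_le_card (Finset.filter_subset _ _)

lemma mem_Atop {r z : V} : z ∈ Atop G r ↔ G.Adj r z ∧ Zs G r z = nonNbr G r := by
  unfold Atop
  rw [mem_Nt]
  constructor
  · rintro ⟨h1, h2⟩
    exact ⟨h1, Finset.eq_of_subset_of_card_le (Finset.filter_subset _ _) h2.ge⟩
  · rintro ⟨h1, h2⟩
    exact ⟨h1, by unfold tz; rw [h2]⟩

lemma Atop_adj (hP : P4Free G) {r z w : V} (hz : z ∈ Atop G r) (hw : w ∉ Atop G r) :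
    G.Adj z w := by
  have hz' := mem_Atop.1 hz
  by_cases hwr : w = r
  · subst hwr; exact hz'.1.symm
  · by_cases hadj : G.Adj r w
    · have hlt : tz G r w < tz G r z := by
        have h1 := tz_le (G := G) r w
        have h2 : tz G r z = (nonNbr G r).card := by unfold tz; rw [hz'.2]
        have h3 : tz G r w ≠ (nonNbr G r).card := by
          intro h
          apply hw
          unfold Atop
          rw [mem_Nt]
          exact ⟨hadj, h⟩
        omega
      exact (adj_of_card_lt hP hadj hz'.1 hlt).symm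
    · have : w ∈ nonNbr G r := by rw [mem_nonNbr]; exact ⟨hwr, hadj⟩
      rw [← hz'.2, mem_Zs] at this
      exact this.2

/-- the non-neighbours of `r` that see only the top level -/
def R0 (G : SimpleGraph V) [DecidableRel G.Adj] (r : V) : Finset V :=
  (nonNbr G r).filter (fun y => ∀ z, G.Adj r z → z ∉ Atop G r → ¬ G.Adj z y)

lemma R0_nonempty (hP : P4Free G) {r : V} (hQ : (nonNbr G r).Nonempty) : (R0 G r).Nonempty := by
  classical
  set M := univ.filter (fun z => G.Adj r z ∧ z ∉ Atop G r) with hM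
  by_cases hMe : M.Nonempty
  · obtain ⟨z2, hz2, hmax⟩ := Finset.exists_max_image M (tz G r) hMe
    rw [hM, Finset.mem_filter] at hz2
    have hne : Zs G r z2 ≠ nonNbr G r := by
      intro h
      exact hz2.2.2 (mem_Atop.2 ⟨hz2.2.1, h⟩)
    have hss : Zs G r z2 ⊂ nonNbr G r :=
      Finset.ssubset_iff_subset_ne.2 ⟨Finset.filter_subset _ _, hne⟩
    obtain ⟨y, hy, hyZ⟩ := Finset.exists_of_ssubset hss
    refine ⟨y, Finset.mem_filter.2 ⟨hy, ?_⟩⟩
    intro z hz hzA hzy
    have h1 : tz G r z ≤ tz G r z2 := hmax z (by rw [hM, Finset.mem_filter]; simp [hz, hzA])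
    have h2 := Zs_subset_of_card_le hP hz hz2.2.1 h1
    apply hyZ
    apply h2
    rw [mem_Zs]
    rw [mem_nonNbr] at hy
    exact ⟨hy, hzy⟩
  · obtain ⟨y, hy⟩ := hQ
    refine ⟨y, Finset.mem_filter.2 ⟨hy, ?_⟩⟩
    intro z hz hzA _
    exact hMe ⟨z, by rw [hM, Finset.mem_filter]; simp [hz, hzA]⟩

lemma R0_not_adj (hP : P4Free G) {r y w : V} (hy : y ∈ R0 G r) (hwA : w ∉ Atop G r)
    (hw : w ∉ R0 G r) : ¬ G.Adj y w := by
  intro hadj
  rw [R0, Finset.mem_filter] at hy hw
  have hyQ := hy.1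
  rw [mem_nonNbr] at hyQ
  by_cases hwr : w = r
  · subst hwr; exact hyQ.2 hadj.symm
  · by_cases hrw : G.Adj r w
    · exact hy.2 w hrw hwA hadj.symm
    · have hwQ : w ∈ nonNbr G r := by rw [mem_nonNbr]; exact ⟨hwr, hrw⟩
      have : ∃ z, G.Adj r z ∧ z ∉ Atop G r ∧ G.Adj z w := by
        by_contra hcon
        apply hw
        refine ⟨hwQ, ?_⟩
        intro z h1 h2 h3
        exact hcon ⟨z, h1, h2, h3⟩
      obtain ⟨z, hz1, hz2, hz3⟩ := this
      refine not_adj_of_Zs hP hz1 hy.1 ?_ ?_ hadj (y' := w)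
      · rw [mem_Zs]
        exact fun h => hy.2 z hz1 hz2 h.2
      · rw [mem_Zs]
        rw [mem_nonNbr] at hwQ
        exact ⟨hwQ, hz3⟩

lemma not_mem_R0_self {r : V} : r ∉ R0 G r := by
  intro h
  rw [R0, Finset.mem_filter, mem_nonNbr] at h
  exact h.1.1 rfl

lemma not_mem_Atop_self {r : V} : r ∉ Atop G r := by
  intro h
  exact G.loopless.irrefl _ (mem_Atop.1 h).1

/-- The exceptional graphs: the join of two isolated vertices and a disconnected graph. -/
def Exceptional (G : SimpleGraph V) : Prop :=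
  ∃ x₁ x₂, x₁ ≠ x₂ ∧ ¬ G.Adj x₁ x₂ ∧ (∀ v, v ≠ x₁ → v ≠ x₂ → G.Adj x₁ v ∧ G.Adj x₂ v) ∧
    ¬ (G.induce {v | v ≠ x₁ ∧ v ≠ x₂}).Preconnected

lemma walk_closure {W : Type*} {H : SimpleGraph W} {P : W → Prop}
    (h : ∀ u w, H.Adj u w → P u → P w) {a b : W} (hab : H.Reachable a b) (ha : P a) : P b := by
  obtain ⟨p⟩ := hab
  induction p with
  | nil => exact ha
  | cons hadj _ ih => exact ih (h _ _ hadj ha)

lemma three_le_Atop (hP : P4Free G) (hconn : G.Connected)
    (huniv : ∀ w, ∃ w', w' ≠ w ∧ ¬ G.Adj w w') (hexc : ¬ Exceptional G) (r : V) :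
    3 ≤ (Atop G r).card := by
  have hQ : (nonNbr G r).Nonempty := by
    obtain ⟨w', h1, h2⟩ := huniv r
    exact ⟨w', by rw [mem_nonNbr]; exact ⟨h1, h2⟩⟩
  obtain ⟨y, hy⟩ := R0_nonempty hP hQ
  have hyA : y ∉ Atop G r := by
    intro h
    rw [R0, Finset.mem_filter, mem_nonNbr] at hy
    exact hy.1.2 (mem_Atop.1 h).1
  by_contra hcon
  have h012 : (Atop G r).card = 0 ∨ (Atop G r).card = 1 ∨ (Atop G r).card = 2 := by omega
  rcases h012 with h0 | h1 | h2
  · rw [Finset.card_eq_zero] at h0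
    have : r ∈ R0 G r := by
      refine walk_closure (H := G) (P := fun w => w ∈ R0 G r) ?_ (hconn.preconnected y r) hy
      intro u w huw hu
      by_contra hw
      exact R0_not_adj hP hu (by rw [h0]; simp) hw huw
    exact not_mem_R0_self this
  · obtain ⟨x, hx⟩ := Finset.card_eq_one.1 h1
    obtain ⟨w', hw', hadj⟩ := huniv x
    apply hadj
    apply Atop_adj hP (r := r)
    · rw [hx]; simp
    · rw [hx]; simpa using hw'
  · obtain ⟨x₁, x₂, hne, hx⟩ := Finset.card_eq_two.1 h2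
    have hall : ∀ v, v ≠ x₁ → v ≠ x₂ → G.Adj x₁ v ∧ G.Adj x₂ v := by
      intro v hv1 hv2
      have hv : v ∉ Atop G r := by rw [hx]; simp [hv1, hv2]
      exact ⟨Atop_adj hP (by rw [hx]; simp) hv, Atop_adj hP (by rw [hx]; simp) hv⟩
    by_cases hadj : G.Adj x₁ x₂
    · obtain ⟨w', hw', hnadj⟩ := huniv x₁
      apply hnadj
      by_cases hw2 : w' = x₂
      · rw [hw2]; exact hadj
      · exact (hall w' hw' hw2).1
    · apply hexc
      refine ⟨x₁, x₂, hne, hadj, hall, ?_⟩
      intro hpre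
      have hmem : ∀ v, v ∉ Atop G r → v ∈ {v | v ≠ x₁ ∧ v ≠ x₂} := by
        intro v hv
        rw [hx] at hv
        simp only [Finset.mem_insert, Finset.mem_singleton, not_or] at hv
        exact hv
      have : (r : V) ∈ R0 G r := by
        refine walk_closure (H := G.induce {v | v ≠ x₁ ∧ v ≠ x₂}) (P := fun w => (w : V) ∈ R0 G r)
          (a := ⟨y, hmem y hyA⟩) (b := ⟨r, hmem r not_mem_Atop_self⟩) ?_ (hpre _ _) hy
        rintro ⟨u, hu⟩ ⟨w, hw⟩ huw hu'
        by_contra hw'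
        have hwA : w ∉ Atop G r := by
          rw [hx]; simp only [Finset.mem_insert, Finset.mem_singleton, not_or]; exact hw
        exact R0_not_adj hP hu' hwA hw' huw
      exact not_mem_R0_self this

/-- every branch has a vertex realising its level -/
lemma exists_lev {r : V} {S : Finset V} (h : ∃ z ∈ S, G.Adj r z) :
    ∃ z ∈ S, G.Adj r z ∧ tz G r z = lev G r S ∧ ∀ z' ∈ S, G.Adj r z' → tz G r z' ≤ lev G r S := by
  classical
  obtain ⟨z, hz, hrz⟩ := h
  have hne : (S.filter (fun z => G.Adj r z)).Nonempty := ⟨z, Finset.mem_filter.2 ⟨hz, hrz⟩⟩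
  obtain ⟨z0, hz0, h0⟩ := Finset.exists_mem_eq_sup _ hne (tz G r)
  rw [Finset.mem_filter] at hz0
  refine ⟨z0, hz0.1, hz0.2, h0.symm, ?_⟩
  intro z' hz' hrz'
  exact Finset.le_sup (f := tz G r) (Finset.mem_filter.2 ⟨hz', hrz'⟩)

/-- the non-neighbours of `r` in a connected branch are seen by each vertex at its level -/
lemma adj_of_lev (hP : P4Free G) {r : V} {S : Finset V} (hr : r ∉ S)
    (hnbr : ∃ z ∈ S, G.Adj r z)
    (hconn : ∀ P : V → Prop, (∃ w ∈ S, P w) →
      (∀ u ∈ S, ∀ w ∈ S, G.Adj u w → P u → P w) → ∀ w ∈ S, P w)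
    {y z : V} (hy : y ∈ S) (hyQ : y ∈ nonNbr G r) (hz : G.Adj r z)
    (hlev : lev G r S ≤ tz G r z) : y ∈ Zs G r z := by
  obtain ⟨z0, hz0S, hrz0, htz0, hmax⟩ := exists_lev hnbr
  have key : ∀ w ∈ S, (G.Adj r w ∨ w ∈ Zs G r z0) := by
    apply hconn
    · exact ⟨z0, hz0S, Or.inl hrz0⟩
    · intro u hu w hw huw hPu
      by_cases hrw : G.Adj r w
      · exact Or.inl hrw
      · right
        have hwr : w ≠ r := by rintro rfl; exact hr hw
        have hwQ : w ∈ nonNbr G r := by rw [mem_nonNbr]; exact ⟨hwr, hrw⟩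
        rcases hPu with h | h
        · have h1 : tz G r u ≤ tz G r z0 := by rw [htz0]; exact hmax u hu h
          apply Zs_subset_of_card_le hP h hrz0 h1
          rw [mem_Zs]; rw [mem_nonNbr] at hwQ
          exact ⟨hwQ, huw⟩
        · by_contra hcon
          exact not_adj_of_Zs hP hrz0 hwQ hcon h huw.symm
  have hyz0 : y ∈ Zs G r z0 := by
    rcases key y hy with h | h
    · rw [mem_nonNbr] at hyQ; exact absurd h hyQ.2
    · exact h
  exact Zs_subset_of_card_le hP hrz0 hz (by rw [← htz0] at hlev; exact hlev) hyz0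

end Pool.Agent.Lib.MP_fe081e_lc
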