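import Pool.Agent.Lib.MP_fe081e_lc.Tree

/-!
The lower bound: a spanning tree of congestion at most `k` yields the certificate.
-/

namespace Pool.Agent.Lib.MP_fe081e_lc

open Finset

variable {V : Type*} [Fintype V] [DecidableEq V] {G : SimpleGraph V} [DecidableRel G.Adj]

lemma exceptional_lower {T : SimpleGraph V} (hT : T.IsTree) {k : ℕ}
    (hk : ∀ e ∈ T.edgeSet, edgeCongestion G T e ≤ k) (hexc : Exceptional G) :
    Fintype.card V ≤ k + 2 := by
  classical
  obtain ⟨x₁, x₂, hne, hnadj, hall, _⟩ := hexc
  obtain ⟨s, hs, hsx⟩ := exists_side hT (r := x₁) (v := x₂) hne.symm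
  set S := side T s x₁ with hS
  have hcut : cut G S ≤ k := side_cut_le hs hk
  have hx1 : x₁ ∉ S := root_not_mem_side hT hs
  -- count: each vertex other than x₁, x₂ contributes
  have h1 : (S.erase x₂).card + ((univ \ S).erase x₁).card ≤ cut G S := by
    unfold cut
    rw [← Finset.add_sum_erase _ _ hsx]
    have e1 : ((univ \ S).erase x₁).card ≤ (G.neighborFinset x₂ \ S).card := by
      apply Finset.card_le_card
      intro v hv
      rw [Finset.mem_erase, Finset.mem_sdiff] at hv
      rw [Finset.mem_sdiff, SimpleGraph.mem_neighborFinset]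
      refine ⟨(hall v hv.1 ?_).2, hv.2.2⟩
      rintro rfl
      exact hv.2.2 hsx
    have e2 : (S.erase x₂).card ≤ ∑ w ∈ S.erase x₂, (G.neighborFinset w \ S).card := by
      have := Finset.card_nsmul_le_sum (S.erase x₂) (fun w => (G.neighborFinset w \ S).card) 1
        (fun w hw => by
          apply Finset.card_pos.2
          rw [Finset.mem_erase] at hw
          refine ⟨x₁, ?_⟩
          rw [Finset.mem_sdiff, SimpleGraph.mem_neighborFinset]
          refine ⟨(hall w ?_ hw.1).1.symm, hx1⟩
          rintro rfl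
          exact hx1 hw.2)
      simpa using this
    omega
  have h2 : (S.erase x₂).card + 1 = S.card := Finset.card_erase_add_one hsx
  have h3 : ((univ \ S).erase x₁).card + 1 = (univ \ S).card :=
    Finset.card_erase_add_one (Finset.mem_sdiff.2 ⟨Finset.mem_univ _, hx1⟩)
  have h4 : S.card + (univ \ S).card = Fintype.card V := by
    have := Finset.card_inter_add_card_sdiff (univ : Finset V) S
    rwa [Finset.univ_inter, Finset.card_univ] at this
  omega

lemma universal_lower {T : SimpleGraph V} (hT : T.IsTree) {k : ℕ}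
    (hk : ∀ e ∈ T.edgeSet, edgeCongestion G T e ≤ k) {r : V} (hr : ∀ w, w ≠ r → G.Adj r w) :
    Good G k := by
  classical
  refine ⟨r, ?_, id, ?_, ?_⟩
  · intro z hz
    obtain ⟨s, hs, hsz⟩ := exists_side hT hz
    refine le_trans (cut_ge_of_mem hsz ?_) (side_cut_le hs hk)
    intro w hw
    apply Finset.card_pos.2
    refine ⟨r, ?_⟩
    rw [Finset.mem_sdiff, SimpleGraph.mem_neighborFinset]
    have hrS := root_not_mem_side hT hs
    refine ⟨(hr w ?_).symm, hrS⟩
    rintro rfl
    exact hrS hw
  · intro y hy hadj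
    exact absurd (hr y hy) hadj
  · intro y _ hy hadj
    exact absurd (hr y hy) hadj

/-- **Lower bound.** -/
theorem good_or_exceptional (hP : P4Free G) (hconn : G.Connected) {T : SimpleGraph V}
    (hTG : T ≤ G) (hT : T.IsTree) {k : ℕ} (hk : ∀ e ∈ T.edgeSet, edgeCongestion G T e ≤ k) :
    Good G k ∨ (Exceptional G ∧ Fintype.card V ≤ k + 2) := by
  classical
  by_cases hexc : Exceptional G
  · exact Or.inr ⟨hexc, exceptional_lower hT hk hexc⟩
  left
  by_cases hu : ∃ r, ∀ w, w ≠ r → G.Adj r w
  · obtain ⟨r, hr⟩ := hu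
    exact universal_lower hT hk hr
  have huniv : ∀ w, ∃ w', w' ≠ w ∧ ¬ G.Adj w w' := by
    push Not at hu
    exact hu
  -- no edge with two non-light sides
  by_cases hedge : ∃ s r, T.Adj s r ∧ ¬ Light G (side T s r) ∧ ¬ Light G (side T r s)
  · obtain ⟨s, r, hsr, h1, h2⟩ := hedge
    exact good_of_not_light hP hconn huniv hexc (fun x => not_mem_side_iff hT hsr)
      (side_cut_le hsr hk) h1 h2
  push Not at hedge
  obtain ⟨v0⟩ : Nonempty V := hconn.nonempty
  obtain ⟨v1, hv1, _⟩ := huniv v0
  obtain ⟨s0, hs0, _⟩ := exists_side hT hv1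
  set F := (univ : Finset (V × V)).filter
    (fun p => T.Adj p.1 p.2 ∧ Light G (side T p.1 p.2)) with hF
  have hFne : F.Nonempty := by
    by_cases hl : Light G (side T s0 v0)
    · exact ⟨(s0, v0), by rw [hF, Finset.mem_filter]; exact ⟨Finset.mem_univ _, hs0, hl⟩⟩
    · exact ⟨(v0, s0), by
        rw [hF, Finset.mem_filter]; exact ⟨Finset.mem_univ _, hs0.symm, hedge s0 v0 hs0 hl⟩⟩
  obtain ⟨⟨s, r⟩, hsr, hmax⟩ := Finset.exists_max_image F
    (fun p => (side T p.1 p.2).card) hFne
  rw [hF, Finset.mem_filter] at hsr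
  obtain ⟨_, hadj, hlight⟩ := hsr
  simp only at hadj hlight
  have hall : ∀ s', T.Adj s' r → Light G (side T s' r) := by
    intro s' hs'
    by_contra hnl
    have hss : s ≠ s' := by rintro rfl; exact hnl hlight
    have hl' := hedge s' r hs' hnl
    have hmem : (r, s') ∈ F := by
      rw [hF, Finset.mem_filter]; exact ⟨Finset.mem_univ _, hs'.symm, hl'⟩
    have hle := hmax (r, s') hmem
    simp only at hle
    have hlt : (side T s r).card < (side T r s').card := by
      apply Finset.card_lt_card
      rw [Finset.ssubset_iff_of_subset]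
      · exact ⟨r, self_mem_side, root_not_mem_side hT hadj⟩
      · intro x hx
        rw [← not_mem_side_iff hT hs']
        intro hx'
        exact hss (side_unique hT hadj hs' hx hx')
    omega
  obtain ⟨D⟩ := exists_branching hTG hT hk r hall
  exact good_of_branching hP hconn huniv hexc D

end Pool.Agent.Lib.MP_fe081e_lc
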