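import Pool.Agent.Lib.MP_fe081e_lc.Defs
import Pool.Agent.Lib.MP_fe081e_lc.Glue

/-!
From spanning trees to branchings.
-/

namespace Pool.Agent.Lib.MP_fe081e_lc

open Finset

variable {V : Type*} [Fintype V] [DecidableEq V] {G : SimpleGraph V} [DecidableRel G.Adj]

omit [DecidableEq V] in
lemma treeCongestion_le_iff {G T : SimpleGraph V} {k : ℕ} :
    treeCongestion G T ≤ k ↔ ∀ e ∈ T.edgeSet, edgeCongestion G T e ≤ k := by
  unfold treeCongestion
  have hfin : (edgeCongestion G T '' T.edgeSet).Finite := Set.Finite.image _ (Set.toFinite _)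
  constructor
  · intro h e he
    exact le_trans (le_csSup hfin.bddAbove ⟨e, he, rfl⟩) h
  · intro h
    apply csSup_le'
    rintro x ⟨e, he, rfl⟩
    exact h e he

/-- pairs representing the edges that leave `S` -/
def outPairs (G : SimpleGraph V) [DecidableRel G.Adj] (S : Finset V) : Finset (Σ _ : V, V) :=
  S.sigma (fun w => G.neighborFinset w \ S)

lemma card_outPairs (S : Finset V) : (outPairs G S).card = cut G S := by
  unfold outPairs cut
  rw [Finset.card_sigma]

lemma mem_outPairs {S : Finset V} {p : Σ _ : V, V} :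
    p ∈ outPairs G S ↔ p.1 ∈ S ∧ G.Adj p.1 p.2 ∧ p.2 ∉ S := by
  unfold outPairs
  rw [Finset.mem_sigma, Finset.mem_sdiff, SimpleGraph.mem_neighborFinset]

lemma cut_le_edgeCongestion {T : SimpleGraph V} {e : Sym2 V} {S : Finset V}
    (h : ∀ u ∈ S, ∀ v, v ∉ S → ¬ (T.deleteEdges {e}).Reachable u v) :
    cut G S ≤ edgeCongestion G T e := by
  classical
  rw [← card_outPairs]
  unfold edgeCongestion
  have hinj : Set.InjOn (fun p : (Σ _ : V, V) => s(p.1, p.2)) (outPairs G S) := by
    rintro ⟨a, b⟩ hab ⟨c, d⟩ hcd heq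
    rw [Finset.mem_coe, mem_outPairs] at hab hcd
    simp only [Sym2.eq_iff] at heq
    rcases heq with ⟨rfl, rfl⟩ | ⟨rfl, rfl⟩
    · rfl
    · exact absurd hcd.1 hab.2.2
  rw [← Finset.card_image_of_injOn hinj, ← Set.ncard_coe_finset]
  apply Set.ncard_le_ncard _ (Set.toFinite _)
  intro f hf
  rw [Finset.mem_coe, Finset.mem_image] at hf
  obtain ⟨⟨a, b⟩, hab, rfl⟩ := hf
  rw [mem_outPairs] at hab
  exact ⟨hab.2.1, a, b, rfl, h a hab.1 b hab.2.2⟩

lemma edgeCongestion_le_cut {T : SimpleGraph V} {e : Sym2 V} {S : Finset V}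
    (h : ∀ u v, (u ∈ S ↔ v ∈ S) → (T.deleteEdges {e}).Reachable u v) :
    edgeCongestion G T e ≤ cut G S := by
  classical
  rw [← card_outPairs]
  unfold edgeCongestion
  refine le_trans ?_ (Finset.card_image_le (s := outPairs G S)
    (f := (fun p : (Σ _ : V, V) => s(p.1, p.2))))
  rw [← Set.ncard_coe_finset]
  apply Set.ncard_le_ncard _ (Set.toFinite _)
  rintro f ⟨hf, u, v, rfl, hn⟩
  rw [Finset.mem_coe, Finset.mem_image]
  have hadj : G.Adj u v := hf
  have hiff : ¬ (u ∈ S ↔ v ∈ S) := fun h' => hn (h u v h')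
  by_cases hu : u ∈ S
  · have hv : v ∉ S := fun hv => hiff ⟨fun _ => hv, fun _ => hu⟩
    exact ⟨⟨u, v⟩, mem_outPairs.2 ⟨hu, hadj, hv⟩, rfl⟩
  · have hv : v ∈ S := by
      by_contra hv
      exact hiff ⟨fun h => absurd h hu, fun h => absurd h hv⟩
    exact ⟨⟨v, u⟩, mem_outPairs.2 ⟨hv, hadj.symm, hu⟩, Sym2.eq_swap⟩

/-! ### Sides of tree edges -/

section Sides

open scoped Classical in
/-- the side of `s` when the edge `sr` is removed from `T` -/
noncomputable def side (T : SimpleGraph V) (s r : V) : Finset V :=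
  univ.filter (fun v => (T.deleteEdges {s(s, r)}).Reachable s v)

variable {T : SimpleGraph V}

lemma mem_side {s r v : V} : v ∈ side T s r ↔ (T.deleteEdges {s(s, r)}).Reachable s v := by
  simp [side]

lemma self_mem_side {s r : V} : s ∈ side T s r := mem_side.2 (SimpleGraph.Reachable.refl _)

lemma root_not_mem_side (hT : T.IsTree) {s r : V} (h : T.Adj s r) : r ∉ side T s r := by
  rw [mem_side]
  exact SimpleGraph.isAcyclic_iff_forall_adj_isBridge.1 hT.2 h

lemma side_or (hT : T.IsTree) (s r v : V) : v ∈ side T s r ∨ v ∈ side T r s := by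
  rw [mem_side, mem_side, Sym2.eq_swap (a := r) (b := s)]
  refine walk_closure (H := T) (P := fun v => (T.deleteEdges {s(s, r)}).Reachable s v ∨
    (T.deleteEdges {s(s, r)}).Reachable r v) ?_ (hT.1.preconnected s v)
      (Or.inl (SimpleGraph.Reachable.refl _))
  intro u w huw hu
  by_cases he : s(u, w) = s(s, r)
  · rw [Sym2.eq_iff] at he
    rcases he with ⟨_, rfl⟩ | ⟨_, rfl⟩
    · exact Or.inr (SimpleGraph.Reachable.refl _)
    · exact Or.inl (SimpleGraph.Reachable.refl _)
  · have hadj : (T.deleteEdges {s(s, r)}).Adj u w := by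
      rw [SimpleGraph.deleteEdges_adj]
      exact ⟨huw, he⟩
    rcases hu with hu | hu
    · exact Or.inl (hu.trans hadj.reachable)
    · exact Or.inr (hu.trans hadj.reachable)

lemma not_mem_side_iff (hT : T.IsTree) {s r v : V} (h : T.Adj s r) :
    v ∉ side T s r ↔ v ∈ side T r s := by
  constructor
  · intro hv
    rcases side_or hT s r v with h' | h'
    · exact absurd h' hv
    · exact h'
  · intro hv hv'
    rw [mem_side] at hv hv'
    rw [Sym2.eq_swap (a := r) (b := s)] at hv
    exact (SimpleGraph.isAcyclic_iff_forall_adj_isBridge.1 hT.2 h) (hv'.trans hv.symm)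

/-- A vertex on the side of `s` is reachable from `s` in `T` minus another edge at `r`. -/
lemma side_reach (hT : T.IsTree) {s r s' v : V} (h : T.Adj s r) (hv : v ∈ side T s r) :
    (T.deleteEdges {s(s', r)}).Reachable s v := by
  rw [mem_side] at hv
  have key : ∀ w, (T.deleteEdges {s(s, r)}).Reachable s w →
      (T.deleteEdges {s(s', r)}).Reachable s w := by
    intro w hw
    refine (walk_closure (H := T.deleteEdges {s(s, r)})
      (P := fun w => (T.deleteEdges {s(s, r)}).Reachable s w ∧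
        (T.deleteEdges {s(s', r)}).Reachable s w) ?_ hw
        ⟨SimpleGraph.Reachable.refl _, SimpleGraph.Reachable.refl _⟩).2
    intro a b hab ha
    refine ⟨ha.1.trans hab.reachable, ?_⟩
    have har : a ≠ r := by
      rintro rfl
      exact root_not_mem_side hT h (mem_side.2 ha.1)
    have hbr : b ≠ r := by
      rintro rfl
      exact root_not_mem_side hT h (mem_side.2 (ha.1.trans hab.reachable))
    have hadj : (T.deleteEdges {s(s', r)}).Adj a b := by
      rw [SimpleGraph.deleteEdges_adj] at hab ⊢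
      refine ⟨hab.1, ?_⟩
      intro heq
      rw [Set.mem_singleton_iff, Sym2.eq_iff] at heq
      rcases heq with ⟨_, h2⟩ | ⟨h1, _⟩
      · exact hbr h2
      · exact har h1
    exact ha.2.trans hadj.reachable
  exact key v hv

lemma side_unique (hT : T.IsTree) {s s' r v : V} (h : T.Adj s r) (h' : T.Adj s' r)
    (hv : v ∈ side T s r) (hv' : v ∈ side T s' r) : s = s' := by
  by_contra hne
  have h1 := side_reach hT (s' := s') h hv
  have h2 : (T.deleteEdges {s(s', r)}).Reachable r s := by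
    apply SimpleGraph.Adj.reachable
    rw [SimpleGraph.deleteEdges_adj]
    refine ⟨h.symm, ?_⟩
    intro heq
    rw [Set.mem_singleton_iff, Sym2.eq_iff] at heq
    rcases heq with ⟨h3, h4⟩ | ⟨_, h4⟩
    · rw [h4] at h; exact T.loopless.irrefl _ h
    · exact hne h4
  rw [mem_side] at hv'
  exact (SimpleGraph.isAcyclic_iff_forall_adj_isBridge.1 hT.2 h')
    (hv'.trans (h1.symm.trans h2.symm))

lemma exists_side (hT : T.IsTree) {r v : V} (hv : v ≠ r) :
    ∃ s, T.Adj s r ∧ v ∈ side T s r := by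
  refine (walk_closure (H := T) (P := fun v => v = r ∨ ∃ s, T.Adj s r ∧ v ∈ side T s r) ?_
    (hT.1.preconnected r v) (Or.inl rfl)).resolve_left hv
  intro u w huw hu
  by_cases hw : w = r
  · exact Or.inl hw
  right
  by_cases hur : u = r
  · subst hur
    exact ⟨w, huw.symm, self_mem_side⟩
  · rcases hu with hu | ⟨s, hs, hus⟩
    · exact absurd hu hur
    · refine ⟨s, hs, ?_⟩
      rw [mem_side] at hus ⊢
      refine hus.trans (SimpleGraph.Adj.reachable ?_)
      rw [SimpleGraph.deleteEdges_adj]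
      refine ⟨huw, ?_⟩
      intro heq
      rw [Set.mem_singleton_iff, Sym2.eq_iff] at heq
      rcases heq with ⟨_, h2⟩ | ⟨h1, _⟩
      · exact hw h2
      · exact hur h1

lemma side_cut_le {s r : V} (h : T.Adj s r) {k : ℕ}
    (hk : ∀ e ∈ T.edgeSet, edgeCongestion G T e ≤ k) : cut G (side T s r) ≤ k := by
  refine le_trans (cut_le_edgeCongestion (T := T) (e := s(s, r)) ?_) (hk _ h)
  intro u hu v hv hr
  apply hv
  rw [mem_side] at hu ⊢
  exact hu.trans hr

omit [DecidableRel G.Adj] in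
/-- connectedness of a side, as an induction principle -/
lemma side_closure (hTG : T ≤ G) {s r : V} (P : V → Prop) (hex : ∃ w ∈ side T s r, P w)
    (hcl : ∀ u ∈ side T s r, ∀ w ∈ side T s r, G.Adj u w → P u → P w) :
    ∀ w ∈ side T s r, P w := by
  obtain ⟨w0, hw0, hP0⟩ := hex
  intro w hw
  have hr : (T.deleteEdges {s(s, r)}).Reachable w0 w := by
    rw [mem_side] at hw0 hw
    exact hw0.symm.trans hw
  refine (walk_closure (H := T.deleteEdges {s(s, r)}) (P := fun x => x ∈ side T s r ∧ P x) ?_ hr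
    ⟨hw0, hP0⟩).2
  intro a b hab ha
  have hb : b ∈ side T s r := by
    have := ha.1
    rw [mem_side] at this ⊢
    exact this.trans hab.reachable
  rw [SimpleGraph.deleteEdges_adj] at hab
  exact ⟨hb, hcl a ha.1 b hb (hTG hab.1) ha.2⟩

end Sides

/-- a branching from a root all of whose sides are light -/
lemma exists_branching {T : SimpleGraph V} (hTG : T ≤ G) (hT : T.IsTree) {k : ℕ}
    (hk : ∀ e ∈ T.edgeSet, edgeCongestion G T e ≤ k) (r : V)
    (hl : ∀ s, T.Adj s r → Light G (side T s r)) : Nonempty (Branching G r k) := by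
  classical
  choose! nx hnx1 hnx2 using fun v (hv : v ≠ r) => exists_side hT hv
  refine ⟨⟨fun v => if v = r then ∅ else side T (nx v) r, ?_, ?_, ?_, ?_, ?_, ?_, ?_, ?_⟩⟩
  · intro v hv
    simp only [if_neg hv]
    exact hnx2 v hv
  · intro v
    by_cases hv : v = r
    · simp [hv]
    · simp only [if_neg hv]
      exact root_not_mem_side hT (hnx1 v hv)
  · intro v w hv hw
    simp only [if_neg hv] at hw ⊢
    have hwr : w ≠ r := by
      rintro rfl
      exact root_not_mem_side hT (hnx1 v hv) hw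
    simp only [if_neg hwr]
    rw [side_unique hT (hnx1 w hwr) (hnx1 v hv) (hnx2 w hwr) hw]
  · intro v hv
    simp only [if_neg hv]
    exact hl _ (hnx1 v hv)
  · intro v hv
    simp only [if_neg hv]
    exact side_cut_le (hnx1 v hv) hk
  · intro v hv
    simp only [if_neg hv]
    exact ⟨nx v, self_mem_side, (hTG (hnx1 v hv)).symm⟩
  · intro v hv P hex hcl
    simp only [if_neg hv] at hex hcl ⊢
    exact side_closure hTG P hex hcl
  · intro v hv P hPr hcl w hw
    simp only [if_neg hv] at hcl hw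
    have h1 := hnx1 v hv
    refine side_closure (s := r) (r := nx v) hTG P ⟨r, self_mem_side, hPr⟩ ?_ w
      ((not_mem_side_iff hT h1).1 hw)
    intro u hu x hx hux
    exact hcl u ((not_mem_side_iff hT h1).2 hu) x ((not_mem_side_iff hT h1).2 hx) hux

/-! ### Edges none of whose sides is light -/

/-- A join `({w} ∪ U) + ({w'} ∪ B)` in which `w`, `w'` are isolated in their parts. -/
structure Twin (G : SimpleGraph V) (w w' : V) (U B : Finset V) : Prop where
  cover : ∀ x, x = w ∨ x = w' ∨ x ∈ U ∨ x ∈ B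
  wU : w ∉ U
  wB : w ∉ B
  w'U : w' ∉ U
  w'B : w' ∉ B
  disj : Disjoint U B
  adj : G.Adj w w'
  adjB : ∀ x ∈ B, G.Adj w x
  adjU : ∀ x ∈ U, G.Adj w' x
  adjUB : ∀ x ∈ U, ∀ y ∈ B, G.Adj x y
  nadjU : ∀ x ∈ U, ¬ G.Adj w x
  nadjB : ∀ x ∈ B, ¬ G.Adj w' x

omit [Fintype V] [DecidableEq V] [DecidableRel G.Adj] in
lemma Twin.symm {w w' : V} {U B : Finset V} (h : Twin G w w' U B) : Twin G w' w B U where
  cover x := by have := h.cover x; tauto
  wU := h.w'B
  wB := h.w'U
  w'U := h.wB
  w'B := h.wU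
  disj := h.disj.symm
  adj := h.adj.symm
  adjB := h.adjU
  adjU := h.adjB
  adjUB x hx y hy := (h.adjUB y hy x hx).symm
  nadjU := h.nadjB
  nadjB := h.nadjU

omit [DecidableRel G.Adj] in
lemma Twin.card {w w' : V} {U B : Finset V} (h : Twin G w w' U B) :
    Fintype.card V = U.card + B.card + 2 := by
  have huniv : (univ : Finset V) = insert w (insert w' (U ∪ B)) := by
    ext x
    have := h.cover x
    simp only [Finset.mem_univ, Finset.mem_insert, Finset.mem_union, true_iff]
    exact this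
  rw [← Finset.card_univ, huniv, Finset.card_insert_of_notMem, Finset.card_insert_of_notMem,
    Finset.card_union_of_disjoint h.disj]
  · rw [Finset.mem_union, not_or]; exact ⟨h.w'U, h.w'B⟩
  · rw [Finset.mem_insert, Finset.mem_union, not_or, not_or]
    exact ⟨h.adj.ne, h.wU, h.wB⟩

lemma Twin.degree_w {w w' : V} {U B : Finset V} (h : Twin G w w' U B) :
    G.degree w = B.card + 1 := by
  rw [← G.card_neighborFinset_eq_degree]
  have : G.neighborFinset w = insert w' B := by
    ext x
    rw [SimpleGraph.mem_neighborFinset, Finset.mem_insert]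
    constructor
    · intro hx
      rcases h.cover x with rfl | rfl | h1 | h1
      · exact absurd hx (G.loopless.irrefl _)
      · exact Or.inl rfl
      · exact absurd hx (h.nadjU x h1)
      · exact Or.inr h1
    · rintro (rfl | hx)
      · exact h.adj
      · exact h.adjB x hx
  rw [this, Finset.card_insert_of_notMem h.w'B]

/-- a vertex of `U` seeing the rest of `U` gives a good root -/
lemma Twin.good_of_full (huniv : ∀ w, ∃ w', w' ≠ w ∧ ¬ G.Adj w w') {w w' : V} {U B : Finset V}
    (h : Twin G w w' U B) {k : ℕ} (hU : 2 ≤ U.card) (hB : 2 ≤ B.card)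
    (hk : 1 + B.card * U.card ≤ k) {x : V} (hx : x ∈ U) (hfull : ∀ y ∈ U, y ≠ x → G.Adj x y) :
    Good G k := by
  have hne : w ≠ x := by rintro rfl; exact h.wU hx
  refine good_of_unique (z := x) (x0 := w) (y := w') hne ?_ huniv ?_ (h.adjU x hx).symm h.adj ?_
  · intro y hy hyw
    rcases h.cover y with rfl | rfl | h1 | h1
    · exact absurd rfl hyw
    · exact (h.adjU x hx).symm
    · exact hfull y h1 hy
    · exact h.adjUB x hx y h1
  · have h1 := degree_add_nonNbr (G := G) x
    have h2 := h.card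
    have h3 : 1 ≤ (nonNbr G x).card := by
      apply Finset.card_pos.2
      refine ⟨w, ?_⟩
      rw [mem_nonNbr]
      exact ⟨hne, fun h' => h.nadjU x hx h'.symm⟩
    nlinarith
  · rw [h.degree_w, h.symm.degree_w]
    nlinarith

lemma Twin.degree_U {w w' : V} {U B : Finset V} (h : Twin G w w' U B)
    (hnf : ∀ x ∈ U, ∃ y ∈ U, y ≠ x ∧ ¬ G.Adj x y) {x : V} (hx : x ∈ U) :
    G.degree x + 1 ≤ U.card + B.card := by
  have h1 := degree_add_nonNbr (G := G) x
  have h2 := h.card
  obtain ⟨y, hy, hyx, hadj⟩ := hnf x hx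
  have h3 : 2 ≤ (nonNbr G x).card := by
    have hsub : ({w, y} : Finset V) ⊆ nonNbr G x := by
      intro z hz
      rw [Finset.mem_insert, Finset.mem_singleton] at hz
      rw [mem_nonNbr]
      rcases hz with rfl | rfl
      · exact ⟨by rintro rfl; exact h.wU hx, fun h' => h.nadjU x hx h'.symm⟩
      · exact ⟨hyx, hadj⟩
    have := Finset.card_le_card hsub
    rwa [Finset.card_pair (fun h' : w = y => h.wU (by rw [h']; exact hy))] at this
  omega

/-- the case `|U| ≤ |B|` : root `w` -/
lemma Twin.good_of_le {w w' : V} {U B : Finset V}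
    (h : Twin G w w' U B) {k : ℕ} (hU : 2 ≤ U.card) (hB : 2 ≤ B.card)
    (hk : 1 + B.card * U.card ≤ k)
    (hnf : ∀ x ∈ U, ∃ y ∈ U, y ≠ x ∧ ¬ G.Adj x y)
    (hnf' : ∀ x ∈ B, ∃ y ∈ B, y ≠ x ∧ ¬ G.Adj x y) (hle : U.card ≤ B.card) : Good G k := by
  obtain ⟨f, hf1, hf2⟩ := exists_inj_of_card_le hle
  obtain ⟨u, hu⟩ := Nat.exists_eq_add_of_le hU
  obtain ⟨b, hb⟩ := Nat.exists_eq_add_of_le hB
  have hbu : 5 + 2 * b + 2 * u ≤ k := by
    rw [hu, hb] at hk
    nlinarith [Nat.zero_le (u * b)]
  have hnn : ∀ y, y ≠ w → ¬ G.Adj w y → y ∈ U := by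
    intro y hy hadj
    rcases h.cover y with rfl | rfl | h1 | h1
    · exact absurd rfl hy
    · exact absurd h.adj hadj
    · exact h1
    · exact absurd (h.adjB y h1) hadj
  refine ⟨w, ?_, f, ?_, ?_⟩
  · intro z hz
    rcases h.cover z with rfl | rfl | h1 | h1
    · exact absurd rfl hz
    · rw [h.symm.degree_w]; omega
    · have := h.degree_U hnf h1; omega
    · have := h.symm.degree_U hnf' h1; omega
  · intro y hy hadj
    have hyU := hnn y hy hadj
    refine ⟨h.adjB _ (hf1 y hyU), h.adjUB y hyU _ (hf1 y hyU), ?_⟩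
    have h1 := h.degree_U hnf hyU
    have h2 := h.symm.degree_U hnf' (hf1 y hyU)
    omega
  · intro y y' hy hadj hy' hadj' hf
    exact hf2 y (hnn y hy hadj) y' (hnn y' hy' hadj') hf

lemma Twin.good (huniv : ∀ w, ∃ w', w' ≠ w ∧ ¬ G.Adj w w') {w w' : V} {U B : Finset V}
    (h : Twin G w w' U B) {k : ℕ} (hU : 2 ≤ U.card) (hB : 2 ≤ B.card)
    (hk : 1 + B.card * U.card ≤ k) : Good G k := by
  by_cases h1 : ∀ x ∈ U, ∃ y ∈ U, y ≠ x ∧ ¬ G.Adj x y
  · by_cases h2 : ∀ x ∈ B, ∃ y ∈ B, y ≠ x ∧ ¬ G.Adj x y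
    · rcases le_total U.card B.card with hle | hle
      · exact h.good_of_le hU hB hk h1 h2 hle
      · exact h.symm.good_of_le hB hU (by rw [mul_comm]; exact hk) h2 h1 hle
    · push Not at h2
      obtain ⟨x, hx, hfull⟩ := h2
      exact h.symm.good_of_full huniv hB hU (by rw [mul_comm]; exact hk) hx hfull
  · push Not at h1
    obtain ⟨x, hx, hfull⟩ := h1
    exact h.good_of_full huniv hU hB hk hx hfull

/-- If neither side of a cut is light the certificate exists. -/
lemma good_of_not_light (hP : P4Free G) (hconn : G.Connected)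
    (huniv : ∀ w, ∃ w', w' ≠ w ∧ ¬ G.Adj w w') (hexc : ¬ Exceptional G) {k : ℕ}
    {S S' : Finset V} (hSS : ∀ x, x ∉ S ↔ x ∈ S') (hcut : cut G S ≤ k)
    (h1 : ¬ Light G S) (h2 : ¬ Light G S') : Good G k := by
  classical
  unfold Light at h1 h2
  push Not at h1 h2
  obtain ⟨w, hwS, hw⟩ := h1
  obtain ⟨w', hw'S, hw'⟩ := h2
  have hSS' : ∀ x, x ∉ S' ↔ x ∈ S := by
    intro x; have := hSS x; tauto
  have hAw := three_le_Atop hP hconn huniv hexc w
  have hAw' := three_le_Atop hP hconn huniv hexc w'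
  -- few neighbours on the other side
  have hw1 : ∀ x y, x ∉ S → y ∉ S → G.Adj w x → G.Adj w y → x = y := by
    intro x y hx hy hwx hwy
    have : (G.neighborFinset w \ S).card ≤ 1 := by omega
    rw [Finset.card_le_one] at this
    exact this x (by rw [Finset.mem_sdiff, SimpleGraph.mem_neighborFinset]; exact ⟨hwx, hx⟩) y
      (by rw [Finset.mem_sdiff, SimpleGraph.mem_neighborFinset]; exact ⟨hwy, hy⟩)
  have hw1' : ∀ x y, x ∈ S → y ∈ S → G.Adj w' x → G.Adj w' y → x = y := by
    intro x y hx hy hwx hwy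
    have : (G.neighborFinset w' \ S').card ≤ 1 := by omega
    rw [Finset.card_le_one] at this
    exact this x (by rw [Finset.mem_sdiff, SimpleGraph.mem_neighborFinset]
                     exact ⟨hwx, (hSS' x).2 hx⟩) y
      (by rw [Finset.mem_sdiff, SimpleGraph.mem_neighborFinset]; exact ⟨hwy, (hSS' y).2 hy⟩)
  have hAS : 2 ≤ (Atop G w ∩ S).card := by
    have e1 := Finset.card_inter_add_card_sdiff (Atop G w) S
    have e2 : (Atop G w \ S).card ≤ 1 := by
      rw [Finset.card_le_one]
      intro a ha b hb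
      rw [Finset.mem_sdiff, mem_Atop] at ha hb
      exact hw1 a b ha.2 hb.2 ha.1.1 hb.1.1
    omega
  have hAS' : 2 ≤ (Atop G w' \ S).card := by
    have e1 := Finset.card_inter_add_card_sdiff (Atop G w') S
    have e2 : (Atop G w' ∩ S).card ≤ 1 := by
      rw [Finset.card_le_one]
      intro a ha b hb
      rw [Finset.mem_inter, mem_Atop] at ha hb
      exact hw1' a b ha.2 hb.2 ha.1.1 hb.1.1
    omega
  have hw'nS : w' ∉ S := (hSS w').2 hw'S
  have hadj : G.Adj w w' := by
    by_contra hcon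
    have hw'A : w' ∉ Atop G w := fun h => hcon (mem_Atop.1 h).1
    have : (Atop G w ∩ S).card ≤ 1 := by
      rw [Finset.card_le_one]
      intro a ha b hb
      rw [Finset.mem_inter] at ha hb
      exact hw1' a b ha.2 hb.2 (Atop_adj hP ha.1 hw'A).symm (Atop_adj hP hb.1 hw'A).symm
    omega
  have hnw : ∀ x, x ∉ S → x ≠ w' → ¬ G.Adj w x := fun x hx hne h =>
    hne (hw1 x w' hx hw'nS h hadj)
  have hnw' : ∀ x, x ∈ S → x ≠ w → ¬ G.Adj w' x := fun x hx hne h =>
    hne (hw1' x w hx hwS h hadj.symm)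
  have hw'A : w' ∈ Atop G w := by
    by_contra hcon
    obtain ⟨z, hz⟩ := Finset.card_pos.1 (show 0 < (Atop G w ∩ S).card by omega)
    rw [Finset.mem_inter] at hz
    have hzw : z ≠ w := by rintro rfl; exact not_mem_Atop_self hz.1
    exact hnw' z hz.2 hzw (Atop_adj hP hz.1 hcon).symm
  have hwA' : w ∈ Atop G w' := by
    by_contra hcon
    obtain ⟨z, hz⟩ := Finset.card_pos.1 (show 0 < (Atop G w' \ S).card by omega)
    rw [Finset.mem_sdiff] at hz
    have hzw : z ≠ w' := by rintro rfl; exact not_mem_Atop_self hz.1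
    exact hnw z hz.2 hzw (Atop_adj hP hz.1 hcon).symm
  have hw'adj : ∀ x, x ∉ S → x ≠ w' → G.Adj w' x := by
    intro x hx hne
    exact Atop_adj hP hw'A (fun h => hnw x hx hne (mem_Atop.1 h).1)
  have hwadj : ∀ x, x ∈ S → x ≠ w → G.Adj w x := by
    intro x hx hne
    exact Atop_adj hP hwA' (fun h => hnw' x hx hne (mem_Atop.1 h).1)
  have hcross : ∀ b ∈ S, b ≠ w → ∀ c, c ∉ S → c ≠ w' → G.Adj b c := by
    intro b hb hbw c hc hcw
    exact hP b w w' c (hwadj b hb hbw).symm hadj (hw'adj c hc hcw)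
      (fun h => hnw' b hb hbw h.symm) (hnw c hc hcw)
  set U := (univ \ S).erase w' with hU
  set B := S.erase w with hB
  have mU : ∀ x, x ∈ U ↔ x ≠ w' ∧ x ∉ S := by
    intro x; rw [hU, Finset.mem_erase, Finset.mem_sdiff]; simp
  have mB : ∀ x, x ∈ B ↔ x ≠ w ∧ x ∈ S := by
    intro x; rw [hB, Finset.mem_erase]
  have htwin : Twin G w w' U B := by
    refine ⟨?_, ?_, ?_, ?_, ?_, ?_, hadj, ?_, ?_, ?_, ?_, ?_⟩
    · intro x
      rw [mU, mB]
      by_cases hxS : x ∈ S <;> by_cases hxw : x = w <;> by_cases hxw' : x = w' <;> tauto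
    · rw [mU]; tauto
    · rw [mB]; tauto
    · rw [mU]; tauto
    · rw [mB]; tauto
    · rw [Finset.disjoint_left]
      intro x hx hx'
      rw [mU] at hx
      rw [mB] at hx'
      exact hx.2 hx'.2
    · intro x hx; rw [mB] at hx; exact hwadj x hx.2 hx.1
    · intro x hx; rw [mU] at hx; exact hw'adj x hx.2 hx.1
    · intro x hx y hy
      rw [mU] at hx
      rw [mB] at hy
      exact (hcross y hy.2 hy.1 x hx.2 hx.1).symm
    · intro x hx; rw [mU] at hx; exact hnw x hx.2 hx.1
    · intro x hx; rw [mB] at hx; exact hnw' x hx.2 hx.1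
  have hUc : 2 ≤ U.card := by
    refine le_trans hAS' (Finset.card_le_card ?_)
    intro x hx
    rw [Finset.mem_sdiff] at hx
    rw [mU]
    exact ⟨by rintro rfl; exact not_mem_Atop_self hx.1, hx.2⟩
  have hBc : 2 ≤ B.card := by
    refine le_trans hAS (Finset.card_le_card ?_)
    intro x hx
    rw [Finset.mem_inter] at hx
    rw [mB]
    exact ⟨by rintro rfl; exact not_mem_Atop_self hx.1, hx.2⟩
  refine htwin.good huniv hUc hBc (le_trans ?_ hcut)
  unfold cut
  rw [← Finset.add_sum_erase _ _ hwS]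
  have e1 : 1 ≤ (G.neighborFinset w \ S).card := by
    apply Finset.card_pos.2
    exact ⟨w', by rw [Finset.mem_sdiff, SimpleGraph.mem_neighborFinset]; exact ⟨hadj, hw'nS⟩⟩
  have e2 : B.card * U.card ≤ ∑ x ∈ S.erase w, (G.neighborFinset x \ S).card := by
    rw [← hB, ← smul_eq_mul]
    apply Finset.card_nsmul_le_sum
    intro b hb
    apply Finset.card_le_card
    intro x hx
    rw [mU] at hx
    rw [mB] at hb
    rw [Finset.mem_sdiff, SimpleGraph.mem_neighborFinset]
    exact ⟨hcross b hb.2 hb.1 x hx.2 hx.1, hx.2⟩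
  omega

end Pool.Agent.Lib.MP_fe081e_lc
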