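import Pool.Agent.Lib.MP_fe081e_lc.Lower

/-!
The upper bound: trees given by parent functions, and the trees built from the certificates.
-/

namespace Pool.Agent.Lib.MP_fe081e_lc

open Finset

/-- The graph whose edges join each vertex to its parent. -/
def parentGraph {V : Type*} (par : V → V) : SimpleGraph V :=
  SimpleGraph.fromRel (fun v w => par v = w)

lemma parentGraph_adj {V : Type*} {par : V → V} {v w : V} :
    (parentGraph par).Adj v w ↔ v ≠ w ∧ (par v = w ∨ par w = v) := by
  simp [parentGraph, SimpleGraph.fromRel_adj]

variable {V : Type*} [Fintype V] [DecidableEq V] {G : SimpleGraph V} [DecidableRel G.Adj]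

section Parent

variable {par : V → V} {r : V} {lv : V → ℕ}

omit [Fintype V] [DecidableEq V] in
lemma par_ne (hlv : ∀ v, v ≠ r → lv (par v) < lv v) {v : V} (hv : v ≠ r) : v ≠ par v := by
  intro h
  have := hlv v hv
  rw [← h] at this
  exact lt_irrefl _ this

omit [Fintype V] [DecidableEq V] in
lemma parent_connected (hlv : ∀ v, v ≠ r → lv (par v) < lv v) : (parentGraph par).Connected := by
  have key : ∀ n v, lv v ≤ n → (parentGraph par).Reachable v r := by
    intro n
    induction n with
    | zero =>
      intro v hv
      by_cases hvr : v = r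
      · rw [hvr]
      · have := hlv v hvr; omega
    | succ n ih =>
      intro v hv
      by_cases hvr : v = r
      · rw [hvr]
      · have h1 := hlv v hvr
        have h2 : (parentGraph par).Adj v (par v) := by
          rw [parentGraph_adj]
          exact ⟨par_ne hlv hvr, Or.inl rfl⟩
        exact h2.reachable.trans (ih (par v) (by omega))
  have : Nonempty V := ⟨r⟩
  refine ⟨fun u v => ?_⟩
  exact (key _ u le_rfl).trans (key _ v le_rfl).symm

omit [DecidableEq V] in
lemma parent_isTree (hr : par r = r) (hlv : ∀ v, v ≠ r → lv (par v) < lv v) :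
    (parentGraph par).IsTree := by
  classical
  have hconn := parent_connected (par := par) hlv
  rw [SimpleGraph.isTree_iff_connected_and_card]
  refine ⟨hconn, ?_⟩
  apply le_antisymm
  · -- at most n-1 edges
    have hsub : (parentGraph par).edgeSet ⊆
        (((univ : Finset V).erase r).image (fun v => s(v, par v)) : Finset (Sym2 V)) := by
      intro e he
      induction e with
      | h u v =>
        rw [SimpleGraph.mem_edgeSet, parentGraph_adj] at he
        rw [Finset.mem_coe, Finset.mem_image]
        rcases he.2 with h | h
        · refine ⟨u, ?_, by rw [h]⟩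
          rw [Finset.mem_erase]
          refine ⟨?_, Finset.mem_univ _⟩
          rintro rfl
          exact he.1 (by rw [← h, hr])
        · refine ⟨v, ?_, by rw [h]; exact Sym2.eq_swap⟩
          rw [Finset.mem_erase]
          refine ⟨?_, Finset.mem_univ _⟩
          rintro rfl
          exact he.1 (by rw [← h, hr])
    have h1 : (parentGraph par).edgeSet.ncard ≤ _ :=
      Set.ncard_le_ncard hsub (Set.toFinite _)
    rw [Set.ncard_coe_finset] at h1
    have h2 := Finset.card_image_le (s := (univ : Finset V).erase r) (f := fun v => s(v, par v))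
    rw [Finset.card_erase_of_mem (Finset.mem_univ r), Finset.card_univ] at h2
    have h3 : 0 < Fintype.card V := Fintype.card_pos_iff.2 ⟨r⟩
    rw [Nat.card_eq_fintype_card (α := V)]
    have h4 : Nat.card (parentGraph par).edgeSet = (parentGraph par).edgeSet.ncard := rfl
    omega
  · exact hconn.card_vert_le_card_edgeSet_add_one

/-- the congestion of the edge `v - par v` is at most the cut of the descendants of `v` -/
lemma parent_congestion (hlv : ∀ v, v ≠ r → lv (par v) < lv v) {v : V} (hv : v ≠ r)
    {D : Finset V} (hvD : v ∈ D) (hrD : r ∉ D)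
    (hD : ∀ w, w ≠ v → w ≠ r → (w ∈ D ↔ par w ∈ D)) :
    edgeCongestion G (parentGraph par) s(v, par v) ≤ cut G D := by
  have hstep : ∀ a, a ≠ v → a ≠ r →
      ((parentGraph par).deleteEdges {s(v, par v)}).Adj a (par a) := by
    intro a hav har
    rw [SimpleGraph.deleteEdges_adj, parentGraph_adj]
    refine ⟨⟨par_ne hlv har, Or.inl rfl⟩, ?_⟩
    intro heq
    rw [Set.mem_singleton_iff, Sym2.eq_iff] at heq
    rcases heq with ⟨h1, _⟩ | ⟨h1, h2⟩
    · exact hav h1
    · have e1 := hlv v hv
      have e2 := hlv a har
      rw [h2] at e2
      rw [h1] at e2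
      omega
  have key1 : ∀ n a, lv a ≤ n → a ∈ D →
      ((parentGraph par).deleteEdges {s(v, par v)}).Reachable a v := by
    intro n
    induction n with
    | zero =>
      intro a ha haD
      by_cases hav : a = v
      · rw [hav]
      · have har : a ≠ r := by rintro rfl; exact hrD haD
        have := hlv a har
        omega
    | succ n ih =>
      intro a ha haD
      by_cases hav : a = v
      · rw [hav]
      · have har : a ≠ r := by rintro rfl; exact hrD haD
        have := hlv a har
        exact (hstep a hav har).reachable.trans (ih (par a) (by omega) ((hD a hav har).1 haD))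
  have key2 : ∀ n a, lv a ≤ n → a ∉ D →
      ((parentGraph par).deleteEdges {s(v, par v)}).Reachable a r := by
    intro n
    induction n with
    | zero =>
      intro a ha haD
      by_cases har : a = r
      · rw [har]
      · have := hlv a har
        omega
    | succ n ih =>
      intro a ha haD
      by_cases har : a = r
      · rw [har]
      · have hav : a ≠ v := by rintro rfl; exact haD hvD
        have := hlv a har
        exact (hstep a hav har).reachable.trans
          (ih (par a) (by omega) (fun h => haD ((hD a hav har).2 h)))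
  apply edgeCongestion_le_cut
  intro a b hab
  by_cases ha : a ∈ D
  · exact (key1 _ a le_rfl ha).trans (key1 _ b le_rfl (hab.1 ha)).symm
  · exact (key2 _ a le_rfl ha).trans (key2 _ b le_rfl (fun h => ha (hab.2 h))).symm

/-- If every non-root vertex has a descendant set of cut at most `k`, the parent graph is a
spanning tree of congestion at most `k`. -/
lemma parent_good (hG : ∀ v, v ≠ r → G.Adj v (par v)) (hr : par r = r)
    (hlv : ∀ v, v ≠ r → lv (par v) < lv v) {k : ℕ}
    (hD : ∀ v, v ≠ r → ∃ D : Finset V, v ∈ D ∧ r ∉ D ∧
      (∀ w, w ≠ v → w ≠ r → (w ∈ D ↔ par w ∈ D)) ∧ cut G D ≤ k) :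
    parentGraph par ≤ G ∧ (parentGraph par).IsTree ∧
      ∀ e ∈ (parentGraph par).edgeSet, edgeCongestion G (parentGraph par) e ≤ k := by
  refine ⟨?_, parent_isTree hr hlv, ?_⟩
  · intro u v huv
    rw [parentGraph_adj] at huv
    rcases huv.2 with h | h
    · have hur : u ≠ r := by
        rintro rfl
        exact huv.1 (by rw [← h, hr])
      rw [← h]
      exact hG u hur
    · have hur : v ≠ r := by
        rintro rfl
        exact huv.1 (by rw [← h, hr])
      rw [← h]
      exact (hG v hur).symm
  · intro e he
    have hex : ∃ v, v ≠ r ∧ e = s(v, par v) := by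
      induction e with
      | h u v =>
        rw [SimpleGraph.mem_edgeSet, parentGraph_adj] at he
        rcases he.2 with h | h
        · refine ⟨u, ?_, by rw [h]⟩
          rintro rfl
          exact he.1 (by rw [← h, hr])
        · refine ⟨v, ?_, by rw [h]; exact Sym2.eq_swap⟩
          rintro rfl
          exact he.1 (by rw [← h, hr])
    obtain ⟨v, hv, rfl⟩ := hex
    obtain ⟨D, h1, h2, h3, h4⟩ := hD v hv
    exact le_trans (parent_congestion hlv hv h1 h2 h3) h4

end Parent

lemma cut_singleton (v : V) : cut G {v} = G.degree v := by
  unfold cut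
  rw [Finset.sum_singleton]
  rw [← G.card_neighborFinset_eq_degree]
  congr 1
  ext x
  simp only [Finset.mem_sdiff, SimpleGraph.mem_neighborFinset, Finset.mem_singleton]
  constructor
  · exact fun h => h.1
  · exact fun h => ⟨h, h.ne'⟩

lemma cut_pair {x y : V} (h : G.Adj x y) : cut G {x, y} + 2 = G.degree x + G.degree y := by
  unfold cut
  rw [Finset.sum_pair h.ne]
  have e1 : (G.neighborFinset x \ {x, y}).card + 1 = G.degree x := by
    rw [← G.card_neighborFinset_eq_degree]
    have : G.neighborFinset x \ {x, y} = (G.neighborFinset x).erase y := by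
      ext z
      simp only [Finset.mem_sdiff, SimpleGraph.mem_neighborFinset, Finset.mem_insert,
        Finset.mem_singleton, Finset.mem_erase, not_or]
      constructor
      · rintro ⟨a, b, c⟩; exact ⟨c, a⟩
      · rintro ⟨a, b⟩; exact ⟨b, b.ne', a⟩
    rw [this]
    exact Finset.card_erase_add_one (by rw [SimpleGraph.mem_neighborFinset]; exact h)
  have e2 : (G.neighborFinset y \ {x, y}).card + 1 = G.degree y := by
    rw [← G.card_neighborFinset_eq_degree]
    have : G.neighborFinset y \ {x, y} = (G.neighborFinset y).erase x := by
      ext z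
      simp only [Finset.mem_sdiff, SimpleGraph.mem_neighborFinset, Finset.mem_insert,
        Finset.mem_singleton, Finset.mem_erase, not_or]
      constructor
      · rintro ⟨a, b, c⟩; exact ⟨b, a⟩
      · rintro ⟨a, b⟩; exact ⟨b, a, b.ne'⟩
    rw [this]
    exact Finset.card_erase_add_one (by rw [SimpleGraph.mem_neighborFinset]; exact h.symm)
  omega

/-- Data describing the trees of the upper bound: a root `r`, a neighbour `x₁` which may take a
set `F` of non-neighbours of `r` as children, and an injection `f` of the remaining
non-neighbours of `r` into the neighbours of `r` other than `x₁`. -/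
lemma tree_of_data {k : ℕ} {r : V} {par : V → V} (hr : par r = r)
    (hnb : ∀ v, G.Adj r v → par v = r)
    (hnn : ∀ v, v ≠ r → ¬ G.Adj r v → G.Adj r (par v) ∧ G.Adj v (par v))
    (hleaf : ∀ v, v ≠ r → G.degree v ≤ k)
    (hcut : ∀ x, G.Adj r x → cut G (insert x ((nonNbr G r).filter (fun y => par y = x))) ≤ k) :
    parentGraph par ≤ G ∧ (parentGraph par).IsTree ∧
      ∀ e ∈ (parentGraph par).edgeSet, edgeCongestion G (parentGraph par) e ≤ k := by
  classical
  have hparN : ∀ w, par w = r ∨ G.Adj r (par w) := by
    intro w
    by_cases hwr : w = r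
    · rw [hwr]; exact Or.inl hr
    · by_cases h : G.Adj r w
      · exact Or.inl (hnb w h)
      · exact Or.inr (hnn w hwr h).1
  refine parent_good (r := r) (lv := fun v => if v = r then 0 else if G.Adj r v then 1 else 2)
    ?_ hr ?_ ?_
  · intro v hv
    by_cases h : G.Adj r v
    · rw [hnb v h]; exact h.symm
    · exact (hnn v hv h).2
  · intro v hv
    by_cases h : G.Adj r v
    · simp [hnb v h, hv, h]
    · have h1 := (hnn v hv h).1
      have h2 : par v ≠ r := h1.ne'
      simp [hv, h, h1, h2]
  · intro v hv
    by_cases h : G.Adj r v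
    · refine ⟨insert v ((nonNbr G r).filter (fun y => par y = v)), Finset.mem_insert_self _ _,
        ?_, ?_, hcut v h⟩
      · rw [Finset.mem_insert, Finset.mem_filter, mem_nonNbr, not_or]
        exact ⟨hv.symm, fun h' => h'.1.1 rfl⟩
      · intro w hwv hwr
        rw [Finset.mem_insert, Finset.mem_filter, mem_nonNbr, Finset.mem_insert,
          Finset.mem_filter, mem_nonNbr]
        constructor
        · rintro (h' | h')
          · exact absurd h' hwv
          · exact Or.inl h'.2
        · rintro (h' | h')
          · right
            refine ⟨⟨hwr, ?_⟩, h'⟩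
            intro hadj
            rw [hnb w hadj] at h'
            exact hv h'.symm
          · rcases hparN w with h'' | h''
            · exact absurd h'' h'.1.1
            · exact absurd h'' h'.1.2
    · refine ⟨{v}, Finset.mem_singleton_self _, ?_, ?_, ?_⟩
      · rw [Finset.mem_singleton]; exact hv.symm
      · intro w hwv hwr
        rw [Finset.mem_singleton, Finset.mem_singleton]
        constructor
        · intro h'; exact absurd h' hwv
        · intro h'
          rcases hparN w with h'' | h''
          · exact absurd (h'.symm.trans h'') hv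
          · rw [h'] at h''; exact absurd h'' h
      · rw [cut_singleton]; exact hleaf v hv

/-- the tree built from a certificate -/
lemma tree_of_good {k : ℕ} (hg : Good G k) : ∃ T : SimpleGraph V, T ≤ G ∧ T.IsTree ∧
    ∀ e ∈ T.edgeSet, edgeCongestion G T e ≤ k := by
  classical
  obtain ⟨r, hdeg, f, hf1, hf2⟩ := hg
  let par : V → V := fun v => if v = r then r else if G.Adj r v then r else f v
  have hparQ : ∀ v, v ≠ r → ¬ G.Adj r v → par v = f v := by
    intro v h1 h2; simp [par, h1, h2]
  refine ⟨parentGraph par, tree_of_data (r := r) (par := par) (k := k) ?_ ?_ ?_ hdeg ?_⟩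
  · simp [par]
  · intro v hv
    have : v ≠ r := hv.ne'
    simp [par, this, hv]
  · intro v hv hadj
    rw [hparQ v hv hadj]
    exact ⟨(hf1 v hv hadj).1, (hf1 v hv hadj).2.1⟩
  · intro x hx
    by_cases hne : ((nonNbr G r).filter (fun y => par y = x)).Nonempty
    · obtain ⟨y, hy⟩ := hne
      have hy' := hy
      rw [Finset.mem_filter, mem_nonNbr] at hy'
      obtain ⟨⟨hyr, hyadj⟩, hyx⟩ := hy'
      rw [hparQ y hyr hyadj] at hyx
      have heq : (nonNbr G r).filter (fun y => par y = x) = {y} := by
        ext z
        rw [Finset.mem_filter, mem_nonNbr, Finset.mem_singleton]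
        constructor
        · rintro ⟨⟨h1, h2⟩, h3⟩
          rw [hparQ z h1 h2] at h3
          exact hf2 z y h1 h2 hyr hyadj (h3.trans hyx.symm)
        · rintro rfl
          exact ⟨⟨hyr, hyadj⟩, by rw [hparQ z hyr hyadj]; exact hyx⟩
      rw [heq]
      have h1 := hf1 y hyr hyadj
      rw [hyx] at h1
      have h2 := cut_pair h1.2.1.symm
      have h3 := h1.2.2
      show cut G {x, y} ≤ k
      omega
    · rw [Finset.not_nonempty_iff_eq_empty] at hne
      rw [hne]
      show cut G {x} ≤ k
      rw [cut_singleton]
      exact hdeg x hx.ne'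

end Pool.Agent.Lib.MP_fe081e_lc
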